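import Pool.Agent.H49.NB.Defs

/-!
# Flipping a set (2)

Direct from the definition of `W`. `W_single`: `adj v v = 0`. `W_union_ge`: `W (S ∪ T) = W S + W T - 2 ∑_{u ∈ S} ∑_{v ∈ T} adj u v spin u spin v` (split the sums over `(S ∪ T)`, `Sᶜ = (S ∪ T)ᶜ ∪ T`,
`Tᶜ = (S ∪ T)ᶜ ∪ S`) and `adj u v spin u spin v ≤ adj u v`. `W_union_eq`: the last sum is `0`. `W_ge`: `∑_{v ∈ Sᶜ} adj u v spin u spin v ≥ - ∑_v adj u v = - degree u`.
`W_pair`: from `W_union`-computation with `S = {u}`, `T = {v}`.
-/

set_option autoImplicit false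
set_option linter.unusedSectionVars false

namespace H49.NB

open Finset H97.Int
open scoped Classical symmDiff

variable {V : Type} [Fintype V] [DecidableEq V] (G : SimpleGraph V) [DecidableRel G.Adj]

private lemma spin_prod_pm (A : Finset V) (u v : V) :
    spin A u * spin A v = 1 ∨ spin A u * spin A v = -1 := by
  unfold spin
  split_ifs <;> simp

lemma W_single (A : Finset V) (v : V) : W G A {v} = spin A v * ∑ u, adj G v u * spin A u := by
  unfold W
  rw [Finset.sum_singleton, ← Finset.sum_compl_add_sum ({v} : Finset V) (fun u => adj G v u * spin A u),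
    Finset.sum_singleton, adj_self, zero_mul, add_zero, Finset.mul_sum]
  exact Finset.sum_congr rfl fun u _ => by ring

lemma W_union (A : Finset V) {S T : Finset V} (h : Disjoint S T) :
    W G A (S ∪ T) = W G A S + W G A T - 2 * ∑ u ∈ S, ∑ v ∈ T, adj G u v * (spin A u * spin A v) := by
  have hS : Sᶜ = T ∪ (S ∪ T)ᶜ := by
    ext x
    simp only [mem_compl, mem_union]
    constructor
    · intro hx
      by_cases hT : x ∈ T
      · exact Or.inl hT
      · exact Or.inr (by tauto)
    · rintro (hx | hx)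
      · exact fun hs => (Finset.disjoint_left.1 h hs hx)
      · tauto
  have hT : Tᶜ = S ∪ (S ∪ T)ᶜ := by
    ext x
    simp only [mem_compl, mem_union]
    constructor
    · intro hx
      by_cases hS : x ∈ S
      · exact Or.inl hS
      · exact Or.inr (by tauto)
    · rintro (hx | hx)
      · exact fun ht => (Finset.disjoint_left.1 h hx ht)
      · tauto
  have dT : Disjoint T (S ∪ T)ᶜ := by
    rw [Finset.disjoint_left]; intro x hx hx'
    simp only [mem_compl, mem_union] at hx'; tauto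
  have dS : Disjoint S (S ∪ T)ᶜ := by
    rw [Finset.disjoint_left]; intro x hx hx'
    simp only [mem_compl, mem_union] at hx'; tauto
  have e1 : W G A S = ∑ u ∈ S, ∑ v ∈ T, adj G u v * (spin A u * spin A v) +
      ∑ u ∈ S, ∑ v ∈ (S ∪ T)ᶜ, adj G u v * (spin A u * spin A v) := by
    unfold W
    rw [hS, ← Finset.sum_add_distrib]
    exact Finset.sum_congr rfl fun u _ => Finset.sum_union dT
  have e2 : W G A T = ∑ u ∈ T, ∑ v ∈ S, adj G u v * (spin A u * spin A v) +
      ∑ u ∈ T, ∑ v ∈ (S ∪ T)ᶜ, adj G u v * (spin A u * spin A v) := by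
    unfold W
    rw [hT, ← Finset.sum_add_distrib]
    exact Finset.sum_congr rfl fun u _ => Finset.sum_union dS
  have e3 : ∑ u ∈ T, ∑ v ∈ S, adj G u v * (spin A u * spin A v) =
      ∑ u ∈ S, ∑ v ∈ T, adj G u v * (spin A u * spin A v) := by
    rw [Finset.sum_comm]
    exact Finset.sum_congr rfl fun u _ => Finset.sum_congr rfl fun v _ => by
      rw [adj_symm G v u]; ring
  have e4 : W G A (S ∪ T) = ∑ u ∈ S, ∑ v ∈ (S ∪ T)ᶜ, adj G u v * (spin A u * spin A v) +
      ∑ u ∈ T, ∑ v ∈ (S ∪ T)ᶜ, adj G u v * (spin A u * spin A v) := by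
    unfold W
    rw [Finset.sum_union h]
  rw [e1, e2, e3, e4]
  ring

lemma W_union_ge (A : Finset V) {S T : Finset V} (h : Disjoint S T) :
    W G A S + W G A T - 2 * E G S T ≤ W G A (S ∪ T) := by
  rw [W_union G A h]
  have : ∑ u ∈ S, ∑ v ∈ T, adj G u v * (spin A u * spin A v) ≤ E G S T := by
    unfold E
    refine Finset.sum_le_sum fun u _ => Finset.sum_le_sum fun v _ => ?_
    have h0 := adj_nonneg G u v
    rcases spin_prod_pm A u v with h1 | h1 <;> rw [h1] <;> linarith
  linarith

lemma W_union_eq (A : Finset V) {S T : Finset V} (h : Disjoint S T) (h0 : ∀ u ∈ S, ∀ v ∈ T, ¬ G.Adj u v) :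
    W G A (S ∪ T) = W G A S + W G A T := by
  rw [W_union G A h]
  have : ∑ u ∈ S, ∑ v ∈ T, adj G u v * (spin A u * spin A v) = 0 := by
    refine Finset.sum_eq_zero fun u hu => Finset.sum_eq_zero fun v hv => ?_
    unfold adj
    rw [if_neg (h0 u hu v hv), zero_mul]
  rw [this]; ring

lemma W_ge {d : ℕ} (hd : ∀ v, G.degree v ≤ d) (A S : Finset V) : -((d : ℤ) * S.card) ≤ W G A S := by
  unfold W
  have key : ∀ u ∈ S, -(d : ℤ) ≤ ∑ v ∈ Sᶜ, adj G u v * (spin A u * spin A v) := by
    intro u _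
    have h1 : ∑ v ∈ Sᶜ, adj G u v ≤ (d : ℤ) := by
      have h2 : ∑ v ∈ Sᶜ, adj G u v = nin G u Sᶜ := by
        unfold nin E; rw [Finset.sum_singleton]
      rw [h2]
      calc nin G u Sᶜ ≤ nin G u univ := nin_mono G (Finset.subset_univ _) u
        _ = (G.degree u : ℤ) := nin_univ G u
        _ ≤ d := by exact_mod_cast hd u
    have h3 : -∑ v ∈ Sᶜ, adj G u v ≤ ∑ v ∈ Sᶜ, adj G u v * (spin A u * spin A v) := by
      rw [← Finset.sum_neg_distrib]
      refine Finset.sum_le_sum fun v _ => ?_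
      have h0 := adj_nonneg G u v
      rcases spin_prod_pm A u v with h1 | h1 <;> rw [h1] <;> linarith
    linarith
  calc -((d : ℤ) * S.card) = ∑ _u ∈ S, -(d : ℤ) := by
        rw [Finset.sum_const, nsmul_eq_mul]; ring
    _ ≤ _ := Finset.sum_le_sum key

lemma W_pair (A : Finset V) {u v : V} (h : G.Adj u v) :
    W G A {u, v} = W G A {u} + W G A {v} - 2 * (spin A u * spin A v) := by
  have hne : Disjoint ({u} : Finset V) {v} := by
    rw [Finset.disjoint_singleton]; exact h.ne
  have : ({u, v} : Finset V) = {u} ∪ {v} := by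
    ext x; simp
  rw [this, W_union G A hne, Finset.sum_singleton, Finset.sum_singleton]
  unfold adj
  rw [if_pos h, one_mul]

end H49.NB
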