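import Pool.Agent.H49.NB.RhoBas

/-!
# Balancing with the free gadgets

The sum of the final spins is `Mz + ∑ o ∈ flx, (1 + tn o) * ε o`; the values `ε` are chosen for one block `{o, π o}` after the other (`bal_aux`, induction on the set of the
gadgets which are not used yet): the value is the opposite of the sign of the present sum.
-/

set_option autoImplicit false
set_option linter.unusedSectionVars false

namespace H49.NB

open Finset H97.Int
open scoped Classical symmDiff

variable {V : Type} [Fintype V] [DecidableEq V] (G : SimpleGraph V) [DecidableRel G.Adj]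

omit [Fintype V] in
private lemma bal_aux {π : V → V} {m : V → ℤ} {d : ℤ} (F : Finset V) :
    (∀ o ∈ F, π o ∈ F) → (∀ o ∈ F, π (π o) = o) → (∀ o ∈ F, π o ≠ o) →
    (∀ o ∈ F, 1 ≤ m o) → (∀ o ∈ F, m o ≤ d) →
    ∀ M : ℤ, |M| ≤ 2 * d + ∑ o ∈ F, m o →
    ∃ ε : V → ℤ, (∀ v, ε v = 1 ∨ ε v = -1) ∧ (∀ o ∈ F, ε (π o) = ε o) ∧ (∀ o, o ∉ F → ε o = 1) ∧
      |M + ∑ o ∈ F, m o * ε o| ≤ 2 * d := by
  induction F using Finset.strongInduction with
  | H F ih =>
    intro h1 h2 h3 h4 h5 M hM
    rcases F.eq_empty_or_nonempty with rfl | ⟨o, ho⟩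
    · refine ⟨fun _ => 1, fun _ => Or.inl rfl, fun _ _ => rfl, fun _ _ => rfl, ?_⟩
      simpa using hM
    · have hpo : π o ∈ F := h1 o ho
      have hpo' : π o ∈ F.erase o := Finset.mem_erase.2 ⟨h3 o ho, hpo⟩
      have hsum : ∀ f : V → ℤ, ∑ x ∈ F, f x = ∑ x ∈ (F.erase o).erase (π o), f x + f (π o) + f o := by
        intro f
        rw [← Finset.sum_erase_add F f ho, ← Finset.sum_erase_add (F.erase o) f hpo']
      have hmem : ∀ x, x ∈ (F.erase o).erase (π o) ↔ x ≠ π o ∧ x ≠ o ∧ x ∈ F := by
        intro x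
        rw [Finset.mem_erase, Finset.mem_erase]
      have hss : (F.erase o).erase (π o) ⊂ F := by
        refine (Finset.ssubset_iff_of_subset ?_).2 ⟨o, ho, ?_⟩
        · intro x hx
          exact ((hmem x).1 hx).2.2
        · intro hx
          exact ((hmem o).1 hx).2.1 rfl
      obtain ⟨s, hs, hsM⟩ : ∃ s : ℤ, (s = 1 ∨ s = -1) ∧ s * M = |M| := by
        rcases le_total 0 M with h | h
        · exact ⟨1, Or.inl rfl, by rw [abs_of_nonneg h, one_mul]⟩
        · exact ⟨-1, Or.inr rfl, by rw [abs_of_nonpos h]; ring⟩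
      have hnn : 0 ≤ ∑ x ∈ (F.erase o).erase (π o), m x :=
        Finset.sum_nonneg fun x hx => le_trans zero_le_one (h4 x ((hmem x).1 hx).2.2)
      have ha := h4 o ho
      have hb := h4 _ hpo
      have ha' := h5 o ho
      have hb' := h5 _ hpo
      have hMs := hsum m
      have hM' : |M - s * (m o + m (π o))| ≤ 2 * d + ∑ x ∈ (F.erase o).erase (π o), m x := by
        have habs := abs_nonneg M
        have e1 : |M - s * (m o + m (π o))| = |(|M| - (m o + m (π o)))| := by
          rw [← hsM]
          rcases hs with rfl | rfl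
          · congr 1
            ring
          · rw [← abs_neg]
            congr 1
            ring
        rw [e1, abs_le]
        constructor <;> linarith
      obtain ⟨ε', e1, e2, e3, e4⟩ := ih _ hss
        (fun x hx => by
          have hx' := (hmem x).1 hx
          refine (hmem _).2 ⟨?_, ?_, h1 x hx'.2.2⟩
          · intro h
            apply hx'.2.1
            rw [← h2 x hx'.2.2, h, h2 o ho]
          · intro h
            apply hx'.1
            rw [← h2 x hx'.2.2, h])
        (fun x hx => h2 x ((hmem x).1 hx).2.2) (fun x hx => h3 x ((hmem x).1 hx).2.2)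
        (fun x hx => h4 x ((hmem x).1 hx).2.2) (fun x hx => h5 x ((hmem x).1 hx).2.2) _ hM'
      refine ⟨fun v => if v = o ∨ v = π o then -s else ε' v, ?_, ?_, ?_, ?_⟩
      · intro v
        show (if v = o ∨ v = π o then -s else ε' v) = 1 ∨ (if v = o ∨ v = π o then -s else ε' v) = -1
        split_ifs with h
        · rcases hs with rfl | rfl
          · exact Or.inr rfl
          · exact Or.inl (by norm_num)
        · exact e1 v
      · intro x hx
        show (if π x = o ∨ π x = π o then -s else ε' (π x)) = (if x = o ∨ x = π o then -s else ε' x)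
        by_cases h : x = o ∨ x = π o
        · have h' : π x = o ∨ π x = π o := by
            rcases h with rfl | rfl
            · exact Or.inr rfl
            · exact Or.inl (h2 o ho)
          rw [if_pos h, if_pos h']
        · have h' : ¬ (π x = o ∨ π x = π o) := by
            rintro (h' | h')
            · apply h
              right
              rw [← h', h2 x hx]
            · apply h
              left
              rw [← h2 x hx, h', h2 o ho]
          rw [if_neg h, if_neg h']
          push Not at h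
          exact e2 x ((hmem x).2 ⟨h.2, h.1, hx⟩)
      · intro x hx
        show (if x = o ∨ x = π o then -s else ε' x) = 1
        have h : ¬ (x = o ∨ x = π o) := by
          rintro (rfl | rfl)
          · exact hx ho
          · exact hx hpo
        rw [if_neg h]
        exact e3 x fun h' => hx ((hmem x).1 h').2.2
      · show |M + ∑ x ∈ F, m x * (if x = o ∨ x = π o then -s else ε' x)| ≤ 2 * d
        rw [hsum]
        have e5 : ∑ x ∈ (F.erase o).erase (π o), m x * (if x = o ∨ x = π o then -s else ε' x) =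
            ∑ x ∈ (F.erase o).erase (π o), m x * ε' x := by
          refine Finset.sum_congr rfl fun x hx => ?_
          have hx' := (hmem x).1 hx
          rw [if_neg (by rintro (h | h); exacts [hx'.2.1 h, hx'.1 h])]
        rw [e5, if_pos (Or.inr rfl), if_pos (Or.inl rfl)]
        have e6 : M + (∑ x ∈ (F.erase o).erase (π o), m x * ε' x + m (π o) * -s + m o * -s) =
            M - s * (m o + m (π o)) + ∑ x ∈ (F.erase o).erase (π o), m x * ε' x := by
          ring
        rw [e6]
        exact e4

private lemma val_eq (π : V → V) {O : Finset V} (Y : Finset V) (ε : V → ℤ) {o : V} (ho : o ∈ O) :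
    val G π O Y ε o = val G π O Y (fun _ => 0) o + if o ∈ flx G π O Y then ε o else 0 := by
  have hf : o ∈ flx G π O Y ↔ ¬ Strong G O Y o ∧ ¬ Strong G O Y (π o) := by
    unfold flx
    rw [Finset.mem_filter]
    exact ⟨fun h => h.2, fun h => ⟨ho, h⟩⟩
  unfold val
  by_cases h1 : Strong G O Y o
  · rw [if_pos h1, if_pos h1, if_neg (fun h => (hf.1 h).1 h1), add_zero]
  · rw [if_neg h1, if_neg h1]
    by_cases h2 : Strong G O Y (π o)
    · rw [if_pos h2, if_pos h2, if_neg (fun h => (hf.1 h).2 h2), add_zero]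
    · rw [if_neg h2, if_neg h2, if_pos (hf.2 ⟨h1, h2⟩), zero_add]

private lemma sum_rho {O : Finset V} {π : V → V} (hG : Gad G O π) (Y : Finset V) (ε : V → ℤ) :
    ∑ v, rho G π O Y ε v = Mz G π O Y + ∑ o ∈ flx G π O Y, (1 + tn G O Y o) * ε o := by
  have hfO : ∀ o ∈ flx G π O Y, o ∈ O := fun o ho => (Finset.mem_filter.1 ho).1
  have e1 : ∀ v, rho G π O Y ε v = rho G π O Y (fun _ => 0) v +
      ((if v ∈ flx G π O Y then ε v else 0) +
        ∑ o ∈ flx G π O Y, if v ∉ O ∧ Tied G O Y v ∧ root G O v = o then ε o else 0) := by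
    intro v
    unfold rho
    by_cases hv : v ∈ O
    · have h0 : ∑ o ∈ flx G π O Y, (if v ∉ O ∧ Tied G O Y v ∧ root G O v = o then ε o else 0) = 0 :=
        Finset.sum_eq_zero fun o _ => if_neg fun h => h.1 hv
      rw [if_pos hv, if_pos hv, h0, add_zero]
      exact val_eq G π Y ε hv
    · have hvf : v ∉ flx G π O Y := fun h => hv (hfO v h)
      rw [if_neg hv, if_neg hv, if_neg hvf, zero_add]
      by_cases ht : Tied G O Y v
      · have h0 : ∑ o ∈ flx G π O Y, (if v ∉ O ∧ Tied G O Y v ∧ root G O v = o then ε o else 0) =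
            if root G O v ∈ flx G π O Y then ε (root G O v) else 0 := by
          rw [← Finset.sum_ite_eq (flx G π O Y) (root G O v) ε]
          refine Finset.sum_congr rfl fun o _ => ?_
          by_cases h : root G O v = o
          · rw [if_pos h, if_pos ⟨hv, ht, h⟩]
          · rw [if_neg h, if_neg fun h' => h h'.2.2]
        rw [if_pos ht, if_pos ht, h0]
        exact val_eq G π Y ε (root_spec G ht.2.1).1
      · have h0 : ∑ o ∈ flx G π O Y, (if v ∉ O ∧ Tied G O Y v ∧ root G O v = o then ε o else 0) = 0 :=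
          Finset.sum_eq_zero fun o _ => if_neg fun h => ht h.2.1
        rw [if_neg ht, if_neg ht, h0, add_zero]
  rw [Finset.sum_congr rfl fun v _ => e1 v, Finset.sum_add_distrib, Finset.sum_add_distrib]
  have e2 : ∑ v, (if v ∈ flx G π O Y then ε v else 0) = ∑ o ∈ flx G π O Y, ε o := by
    rw [← Finset.sum_filter]
    refine Finset.sum_congr ?_ fun _ _ => rfl
    ext v
    simp
  have e3 : ∑ v, ∑ o ∈ flx G π O Y, (if v ∉ O ∧ Tied G O Y v ∧ root G O v = o then ε o else 0) =
      ∑ o ∈ flx G π O Y, tn G O Y o * ε o := by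
    rw [Finset.sum_comm]
    refine Finset.sum_congr rfl fun o ho => ?_
    rw [← Finset.sum_filter, Finset.sum_const, nsmul_eq_mul]
    congr 1
    unfold tn
    congr 2
    ext v
    rw [Finset.mem_filter, Finset.mem_filter, mem_bd]
    constructor
    · rintro ⟨_, hv, ht, hr⟩
      have h2 := root_spec G ht.2.1
      rw [hr] at h2
      exact ⟨⟨h2.2.symm, hv⟩, ht⟩
    · rintro ⟨⟨ha, hv⟩, ht⟩
      exact ⟨Finset.mem_univ v, hv, ht, root_eq G hG hv (hfO o ho) ha.symm⟩
  rw [e2, e3, ← Finset.sum_add_distrib]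
  unfold Mz
  congr 1
  exact Finset.sum_congr rfl fun o _ => by ring

theorem bal {d : ℕ} (hd : ∀ v, G.degree v ≤ d) {O : Finset V} {π : V → V} (hG : Gad G O π) {Y : Finset V}
    (hM : |Mz G π O Y| ≤ ((flx G π O Y).card : ℤ)) :
    ∃ ε : V → ℤ, (∀ v, ε v = 1 ∨ ε v = -1) ∧ (∀ o ∈ O, ε (π o) = ε o) ∧
      |∑ v, rho G π O Y ε v| ≤ 2 * d := by
  have hfO : ∀ o ∈ flx G π O Y, o ∈ O := fun o ho => (Finset.mem_filter.1 ho).1
  have hclosed : ∀ o ∈ flx G π O Y, π o ∈ flx G π O Y := by
    intro o ho
    have h := Finset.mem_filter.1 ho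
    refine Finset.mem_filter.2 ⟨hG.mem o h.1, h.2.2, ?_⟩
    rw [hG.invol o h.1]
    exact h.2.1
  have hm : ∀ o ∈ flx G π O Y, 1 + tn G O Y o ≤ (d : ℤ) := by
    intro o ho
    have h1 := bd_card G hd hG (hfO o ho)
    have h2 : ((bd G O o).filter fun x => Tied G O Y x).card ≤ (bd G O o).card :=
      Finset.card_filter_le _ _
    unfold tn
    have h3 : ((bd G O o).filter fun x => Tied G O Y x).card + 1 ≤ d := le_trans (by omega) h1
    have h4 : ((((bd G O o).filter fun x => Tied G O Y x).card : ℤ)) + 1 ≤ d := by exact_mod_cast h3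
    linarith
  have h1m : ∀ o ∈ flx G π O Y, 1 ≤ 1 + tn G O Y o := by
    intro o _
    have := tn_nonneg G O Y o
    linarith
  have hcard : ((flx G π O Y).card : ℤ) ≤ ∑ o ∈ flx G π O Y, (1 + tn G O Y o) := by
    calc ((flx G π O Y).card : ℤ) = ∑ _o ∈ flx G π O Y, (1 : ℤ) := by
          rw [Finset.sum_const, nsmul_eq_mul, mul_one]
      _ ≤ _ := Finset.sum_le_sum h1m
  obtain ⟨ε, e1, e2, e3, e4⟩ := bal_aux (π := π) (m := fun o => 1 + tn G O Y o) (d := (d : ℤ))
    (flx G π O Y) hclosed (fun o ho => hG.invol o (hfO o ho)) (fun o ho => (hG.adj o (hfO o ho)).ne')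
    h1m hm (Mz G π O Y) (by
      have : (0 : ℤ) ≤ d := Int.natCast_nonneg d
      show |Mz G π O Y| ≤ 2 * (d : ℤ) + ∑ o ∈ flx G π O Y, (1 + tn G O Y o)
      linarith)
  refine ⟨ε, e1, ?_, ?_⟩
  · intro o ho
    by_cases hf : o ∈ flx G π O Y
    · exact e2 o hf
    · have hf' : π o ∉ flx G π O Y := by
        intro h
        apply hf
        have h' := hclosed _ h
        rwa [hG.invol o ho] at h'
      rw [e3 o hf, e3 _ hf']
  · rw [sum_rho G hG]
    exact e4

end H49.NB
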