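import Pool.Agent.H49.NB.Energy

/-!
# Completion

`a = 2 (δ + 1/s) < 1/2`, `θ = (max a 0 + 1/2)/2`, so `a < θ`, `0 < θ < 1/2`. `C = d (d s)/(θ - a)`. Let `Z` minimise `W G X Z + θ |Z|` (real) among the finsets with `|Z| ≤ η n`
(`Finset.exists_min_image`; `∅` is one of them, as `0 ≤ η n` by the hypothesis, so the minimum is `≤ 0`). `energy` with `K = d s` gives `L ⊆ Z` with
`W Z ≥ -(E L L - 2|L| + 2|L|/s) - d (d s) |Z ∩ U|`, and `Spr` for `L` (`|L| ≤ |Z| ≤ η n`): `E L L - 2 |L| + 2|L|/s ≤ a |L| ≤ max a 0 |Z|`. So `(θ - max a 0)|Z| ≤ d (d s) |U|`; use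
`θ - max a 0 > 0` in the definition of `C` (`C = (d (d s) + 1)/(θ - max a 0)`, so `C > 0`).
`Y = X ∆ Z`, so `X ∆ Y = Z`. Let `T = {v}` or `T = {u, v}`; `|Z ∆ T| ≤ |Z| + 2 ≤ C |U| + 2 ≤ η n`, `|Z ∆ T| - |Z| ≤ 2`, so `W X (Z ∆ T) + θ |Z ∆ T| ≥ W X Z + θ |Z|` and `W_comp` give
`W G Y T ≥ - 2 θ > -1`, an integer, so `≥ 0`.
-/

set_option autoImplicit false
set_option linter.unusedSectionVars false

namespace H49.NB

open Finset H97.Int
open scoped Classical symmDiff

private lemma card_sd_le {V : Type} [Fintype V] [DecidableEq V] (Z T : Finset V) :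
    (Z ∆ T).card ≤ Z.card + T.card := by
  have h : Z ∆ T ⊆ Z ∪ T := by
    intro x hx
    rw [Finset.mem_symmDiff] at hx
    rw [Finset.mem_union]
    tauto
  exact (Finset.card_le_card h).trans (Finset.card_union_le _ _)

theorem compl (d s : ℕ) (h1 : 1 ≤ d) (hs : 1 ≤ s) (δ : ℝ) (hδ : 2 * (δ + 1 / s) < 1 / 2) :
    ∃ C : ℝ, 0 < C ∧ ∀ (V : Type) [Fintype V] [DecidableEq V] (G : SimpleGraph V) [DecidableRel G.Adj] (η : ℝ),
      (∀ v, G.degree v ≤ d) → Spr G η δ → ∀ X U : Finset V, KOpt G (d * s) X U →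
      C * U.card + 2 ≤ η * Fintype.card V →
      ∃ Y : Finset V, ((X ∆ Y).card : ℝ) ≤ C * U.card ∧ Opt2 G Y := by
  set a : ℝ := max (2 * (δ + 1 / s)) 0 with ha
  have ha0 : 0 ≤ a := le_max_right _ _
  have ha1 : 2 * (δ + 1 / s) ≤ a := le_max_left _ _
  have ha2 : a < 1 / 2 := max_lt hδ (by norm_num)
  set θ : ℝ := (a + 1 / 2) / 2 with hθ
  have hθa : 0 < θ - a := by rw [hθ]; linarith
  have hθ0 : 0 < θ := by rw [hθ]; linarith
  have hθ1 : θ < 1 / 2 := by rw [hθ]; linarith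
  have hs0 : (0 : ℝ) < s := by exact_mod_cast hs
  refine ⟨((d : ℝ) * (d * s) + 1) / (θ - a), by positivity, ?_⟩
  intro V _ _ G _ η hd hS X U hX hη
  set C : ℝ := ((d : ℝ) * (d * s) + 1) / (θ - a) with hC
  have hC0 : 0 < C := by rw [hC]; positivity
  have hU0 : (0 : ℝ) ≤ U.card := Nat.cast_nonneg _
  have hη0 : 0 ≤ η * Fintype.card V := by nlinarith
  obtain ⟨Z, hZ, hmin⟩ := Finset.exists_min_image
    ((univ : Finset (Finset V)).filter fun Z => (Z.card : ℝ) ≤ η * Fintype.card V)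
    (fun Z => (W G X Z : ℝ) + θ * Z.card) ⟨∅, by simp [hη0]⟩
  have hZη : (Z.card : ℝ) ≤ η * Fintype.card V := (Finset.mem_filter.1 hZ).2
  have hle0 : (W G X Z : ℝ) + θ * Z.card ≤ 0 := by
    have h := hmin ∅ (by simp [hη0])
    simpa [W_empty] using h
  obtain ⟨L, hL, hen⟩ := energy G (K := d * s) hd h1 hs le_rfl hX Z
  have hLc : (L.card : ℝ) ≤ Z.card := by exact_mod_cast Finset.card_le_card hL
  have hLE := hS L (hLc.trans hZη)
  have hZU : (((Z ∩ U).card : ℕ) : ℝ) ≤ U.card := by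
    exact_mod_cast Finset.card_le_card Finset.inter_subset_right
  have henR : -((s : ℝ) * ((E G L L : ℝ) - 2 * L.card) + 2 * L.card) -
      s * (d * (d * s)) * (Z ∩ U).card ≤ s * (W G X Z : ℝ) := by
    have h := (Int.cast_le (R := ℝ)).2 hen
    push_cast at h
    exact h
  have hL0 : (0 : ℝ) ≤ L.card := Nat.cast_nonneg _
  have hdR : (0 : ℝ) ≤ d := Nat.cast_nonneg _
  have h3 : (s : ℝ) * ((E G L L : ℝ) - 2 * L.card) + 2 * L.card ≤ s * (a * Z.card) := by
    have h4 : (s : ℝ) * ((E G L L : ℝ) - 2 * L.card) ≤ s * (2 * δ * L.card) := by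
      apply mul_le_mul_of_nonneg_left _ hs0.le
      linarith
    have h5 : (s : ℝ) * (2 * δ * L.card) + 2 * L.card = s * (2 * (δ + 1 / s) * L.card) := by
      field_simp
    have h6 : 2 * (δ + 1 / s) * L.card ≤ a * Z.card :=
      (mul_le_mul_of_nonneg_right ha1 hL0).trans (mul_le_mul_of_nonneg_left hLc ha0)
    have h7 := mul_le_mul_of_nonneg_left h6 hs0.le
    linarith
  have h8 : (s : ℝ) * (d * (d * s)) * (Z ∩ U).card ≤ s * ((d * (d * s)) * U.card) := by
    rw [mul_assoc]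
    apply mul_le_mul_of_nonneg_left _ hs0.le
    exact mul_le_mul_of_nonneg_left hZU (by positivity)
  have h9 : -(a * Z.card) - (d * (d * s)) * U.card ≤ (W G X Z : ℝ) := by
    have h10 : (s : ℝ) * (-(a * Z.card) - (d * (d * s)) * U.card) ≤ s * (W G X Z : ℝ) := by
      have e : (s : ℝ) * (-(a * Z.card) - (d * (d * s)) * U.card) =
        -(s * (a * Z.card)) - s * ((d * (d * s)) * U.card) := by ring
      rw [e]
      linarith
    exact le_of_mul_le_mul_left h10 hs0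
  have hZC : (Z.card : ℝ) ≤ C * U.card := by
    have h11 : (θ - a) * Z.card ≤ (d * (d * s)) * U.card := by
      have e : (θ - a) * (Z.card : ℝ) = θ * Z.card - a * Z.card := by ring
      rw [e]
      linarith
    have h12 : (θ - a) * (C * U.card) = ((d : ℝ) * (d * s) + 1) * U.card := by
      rw [hC]
      field_simp
    have h13 : (θ - a) * Z.card ≤ (θ - a) * (C * U.card) := by
      rw [h12]
      nlinarith
    exact le_of_mul_le_mul_left h13 hθa
  refine ⟨X ∆ Z, ?_, ?_⟩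
  · rw [symmDiff_symmDiff_cancel_left]
    exact hZC
  have key : ∀ T : Finset V, T.card ≤ 2 → 0 ≤ W G (X ∆ Z) T := by
    intro T hT
    have hTR : (T.card : ℝ) ≤ 2 := by exact_mod_cast hT
    have hc : ((Z ∆ T).card : ℝ) ≤ Z.card + T.card := by exact_mod_cast card_sd_le Z T
    have hm := hmin (Z ∆ T) (by
      rw [Finset.mem_filter]
      exact ⟨mem_univ _, by linarith⟩)
    simp only [W_comp] at hm
    push_cast at hm
    have h14 : θ * (((Z ∆ T).card : ℝ) - Z.card) ≤ θ * 2 :=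
      mul_le_mul_of_nonneg_left (by linarith) hθ0.le
    have h15 : (-1 : ℝ) < (W G (X ∆ Z) T : ℝ) := by
      have e : θ * (((Z ∆ T).card : ℝ) - Z.card) = θ * (Z ∆ T).card - θ * Z.card := by ring
      rw [e] at h14
      linarith
    have h16 : (-1 : ℤ) < W G (X ∆ Z) T := by exact_mod_cast h15
    linarith
  refine ⟨fun v => key {v} (by simp), fun u v _ => key {u, v} (Finset.card_le_two)⟩

end H49.NB
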