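import Pool.Agent.H49.NB.Defs

/-!
# Connected sets

`exists_comp`: a minimal nonempty `C ⊆ Z` (for `card`, `Finset.exists_min_image` or strong induction) without edges to `Z \ C` (`Z` itself has this property); if `T ⊆ C`, `T ≠ ∅, C`, has no
edges to `C \ T`, then it has no edges to `Z \ T`, against minimality.
`cn_union`: let `T' ⊆ S ∪ T` be nonempty, `≠ S ∪ T`. If `T' ∩ S ≠ ∅, S` use `hS`, the same for `T`. Otherwise `T' ∩ S` is `∅` or `S` and `T' ∩ T` is `∅` or `T`; both `∅` or both full is
impossible, otherwise use the edge between `S` and `T` (in one direction or the other).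
`cn_edges`: take `T ⊆ S` nonempty with `2 (|T| - 1) ≤ E G T T` of maximal size (singletons have the property). If `T ≠ S` there is an edge from `T` to `v ∈ S \ T` and
`E G (insert v T) (insert v T) ≥ E G T T + 2` (`H97.Int.E_insert_self` in `Growth.lean`, or `E_union_left/right`).
`cn_small`: for `u ∈ S` show by induction `min |S| (t + 1) ≤ |S ∩ nb G t {u}|`; so `S ⊆ nb G K {u}`.
-/

set_option autoImplicit false
set_option linter.unusedSectionVars false

namespace H49.NB

open Finset H97.Int
open scoped Classical symmDiff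

variable {V : Type} [Fintype V] [DecidableEq V] (G : SimpleGraph V) [DecidableRel G.Adj]

lemma cn_single (v : V) : Cn G {v} := by
  intro T hT h0 hne
  rcases Finset.subset_singleton_iff.1 hT with h | h
  · rw [h] at h0
    exact absurd h0 (by simp)
  · exact absurd h hne

lemma exists_comp {Z : Finset V} (hZ : Z.Nonempty) :
    ∃ C ⊆ Z, C.Nonempty ∧ Cn G C ∧ ∀ u ∈ C, ∀ v ∈ Z \ C, ¬ G.Adj u v := by
  obtain ⟨C, hC, hmin⟩ := Finset.exists_min_image
    (Z.powerset.filter fun C => C.Nonempty ∧ ∀ u ∈ C, ∀ v ∈ Z \ C, ¬ G.Adj u v) Finset.card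
    ⟨Z, by
      rw [Finset.mem_filter, Finset.mem_powerset]
      refine ⟨subset_rfl, hZ, fun u _ v hv => ?_⟩
      rw [Finset.sdiff_self] at hv
      exact absurd hv (by simp)⟩
  rw [Finset.mem_filter, Finset.mem_powerset] at hC
  obtain ⟨hCZ, hC0, hCe⟩ := hC
  refine ⟨C, hCZ, hC0, fun T hT h0 hne => ?_, hCe⟩
  by_contra hno
  push Not at hno
  have hTmem : T ∈ Z.powerset.filter fun C => C.Nonempty ∧ ∀ u ∈ C, ∀ v ∈ Z \ C, ¬ G.Adj u v := by
    rw [Finset.mem_filter, Finset.mem_powerset]
    refine ⟨hT.trans hCZ, h0, fun u hu v hv => ?_⟩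
    rw [Finset.mem_sdiff] at hv
    by_cases hvC : v ∈ C
    · exact hno u hu v (Finset.mem_sdiff.2 ⟨hvC, hv.2⟩)
    · exact hCe u (hT hu) v (Finset.mem_sdiff.2 ⟨hv.1, hvC⟩)
  have h1 := hmin T hTmem
  have h2 := Finset.card_lt_card (Finset.ssubset_iff_subset_ne.2 ⟨hT, hne⟩)
  omega

lemma cn_union {S T : Finset V} (hS : Cn G S) (hT : Cn G T) (h : ∃ u ∈ S, ∃ v ∈ T, G.Adj u v) :
    Cn G (S ∪ T) := by
  intro R hR h0 hne
  by_cases h1 : (R ∩ S).Nonempty ∧ R ∩ S ≠ S
  · obtain ⟨u, hu, v, hv, huv⟩ := hS (R ∩ S) Finset.inter_subset_right h1.1 h1.2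
    rw [Finset.mem_inter] at hu
    rw [Finset.mem_sdiff, Finset.mem_inter, not_and_or] at hv
    refine ⟨u, hu.1, v, Finset.mem_sdiff.2 ⟨Finset.mem_union_left _ hv.1, ?_⟩, huv⟩
    rcases hv.2 with h | h
    · exact h
    · exact absurd hv.1 h
  by_cases h2 : (R ∩ T).Nonempty ∧ R ∩ T ≠ T
  · obtain ⟨u, hu, v, hv, huv⟩ := hT (R ∩ T) Finset.inter_subset_right h2.1 h2.2
    rw [Finset.mem_inter] at hu
    rw [Finset.mem_sdiff, Finset.mem_inter, not_and_or] at hv
    refine ⟨u, hu.1, v, Finset.mem_sdiff.2 ⟨Finset.mem_union_right _ hv.1, ?_⟩, huv⟩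
    rcases hv.2 with h | h
    · exact h
    · exact absurd hv.1 h
  obtain ⟨u, hu, v, hv, huv⟩ := h
  rw [not_and_or, Finset.not_nonempty_iff_eq_empty, not_ne_iff] at h1 h2
  have hRe : R = (R ∩ S) ∪ (R ∩ T) := by
    rw [← Finset.inter_union_distrib_left]
    exact (Finset.inter_eq_left.2 hR).symm
  rcases h1 with h1 | h1 <;> rcases h2 with h2 | h2
  · rw [h1, h2, Finset.union_empty] at hRe
    rw [hRe] at h0
    exact absurd h0 (by simp)
  · have hvR : v ∈ R := (Finset.mem_inter.1 (h2.symm ▸ hv)).1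
    refine ⟨v, hvR, u, Finset.mem_sdiff.2 ⟨Finset.mem_union_left _ hu, fun huR => ?_⟩, huv.symm⟩
    have : u ∈ R ∩ S := Finset.mem_inter.2 ⟨huR, hu⟩
    rw [h1] at this
    exact absurd this (by simp)
  · have huR : u ∈ R := (Finset.mem_inter.1 (h1.symm ▸ hu)).1
    refine ⟨u, huR, v, Finset.mem_sdiff.2 ⟨Finset.mem_union_right _ hv, fun hvR => ?_⟩, huv⟩
    have : v ∈ R ∩ T := Finset.mem_inter.2 ⟨hvR, hv⟩
    rw [h2] at this
    exact absurd this (by simp)
  · rw [h1, h2] at hRe
    exact absurd hRe hne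

private lemma E_insert_left' {X : Finset V} {v : V} (h : v ∉ X) (T : Finset V) :
    E G (insert v X) T = nin G v T + E G X T := by
  unfold E nin E
  rw [Finset.sum_insert h]; simp

private lemma E_insert_self' {X : Finset V} {v : V} (h : v ∉ X) :
    E G (insert v X) (insert v X) = E G X X + 2 * nin G v X := by
  rw [E_insert_left' G h, E_symm G X (insert v X), E_insert_left' G h]
  have : nin G v (insert v X) = nin G v X := by
    rw [Finset.insert_eq, nin_union G (by simpa using h)]
    have : nin G v {v} = 0 := by simp [nin, E, adj_self]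
    rw [this, zero_add]
  rw [this]; ring

lemma cn_edges {S : Finset V} (hS : Cn G S) (h0 : S.Nonempty) : 2 * ((S.card : ℤ) - 1) ≤ E G S S := by
  have key : ∀ m : ℕ, 1 ≤ m → m ≤ S.card → ∃ T ⊆ S, T.card = m ∧ 2 * ((m : ℤ) - 1) ≤ E G T T := by
    intro m hm
    induction m, hm using Nat.le_induction with
    | base =>
      intro _
      obtain ⟨v, hv⟩ := h0
      refine ⟨{v}, by simpa using hv, by simp, ?_⟩
      have := E_nonneg G {v} {v}
      push_cast
      linarith
    | succ m hm ih =>
      intro hmS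
      obtain ⟨T, hTS, hTc, hTE⟩ := ih (by omega)
      have hT0 : T.Nonempty := by
        rw [← Finset.card_pos]
        omega
      have hTne : T ≠ S := by
        rintro rfl
        omega
      obtain ⟨u, hu, v, hv, huv⟩ := hS T hTS hT0 hTne
      rw [Finset.mem_sdiff] at hv
      refine ⟨insert v T, Finset.insert_subset hv.1 hTS, by
        rw [Finset.card_insert_of_notMem hv.2, hTc], ?_⟩
      rw [E_insert_self' G hv.2]
      have h1 : 1 ≤ nin G v T := by
        by_contra hlt
        have h2 : nin G v T = 0 := by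
          have := nin_nonneg G v T
          omega
        exact (nin_eq_zero_iff G v T).1 h2 u hu huv.symm
      push_cast
      linarith
  obtain ⟨T, hTS, hTc, hTE⟩ := key S.card (Finset.card_pos.2 h0) le_rfl
  have : T = S := Finset.eq_of_subset_of_card_le hTS hTc.ge
  rwa [this] at hTE

lemma cn_small {S : Finset V} {K : ℕ} (hS : Cn G S) (hc : S.card ≤ K + 1) : Small G K S := by
  intro u hu
  have key : ∀ t : ℕ, min S.card (t + 1) ≤ (S ∩ nb G t {u}).card := by
    intro t
    induction t with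
    | zero =>
      refine (min_le_right _ _).trans ?_
      rw [zero_add, Nat.succ_le_iff, Finset.card_pos]
      exact ⟨u, Finset.mem_inter.2 ⟨hu, by simp [nb]⟩⟩
    | succ t ih =>
      have hmono : S ∩ nb G t {u} ⊆ S ∩ nb G (t + 1) {u} :=
        Finset.inter_subset_inter_left (nb_mono_left G (Nat.le_succ t) _)
      by_cases hne : S ∩ nb G t {u} = S
      · refine (min_le_left _ _).trans ?_
        conv_lhs => rw [← hne]
        exact Finset.card_le_card hmono
      · obtain ⟨x, hx, y, hy, hxy⟩ := hS (S ∩ nb G t {u}) Finset.inter_subset_left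
          ⟨u, Finset.mem_inter.2 ⟨hu, subset_nb G t _ (by simp)⟩⟩ hne
        rw [Finset.mem_sdiff] at hy
        have hyn : y ∈ S ∩ nb G (t + 1) {u} := by
          refine Finset.mem_inter.2 ⟨hy.1, ?_⟩
          simp only [nb]
          exact (mem_nbr G).2 (Or.inr ⟨x, (Finset.mem_inter.1 hx).2, hxy⟩)
        have h1 : insert y (S ∩ nb G t {u}) ⊆ S ∩ nb G (t + 1) {u} :=
          Finset.insert_subset hyn hmono
        have h2 := Finset.card_le_card h1
        rw [Finset.card_insert_of_notMem hy.2] at h2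
        omega
  have h1 := key K
  rw [min_eq_left hc] at h1
  have h2 : S ∩ nb G K {u} = S := Finset.eq_of_subset_of_card_le Finset.inter_subset_left h1
  exact Finset.inter_eq_left.1 h2

end H49.NB
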