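import Pool.Agent.H49.NB.Defs

/-!
# Vertices which are not clean are on short cycles

Let `x ≠ y` be neighbours of `v` with `y ∈ nb H L {x}`, `H = del G {v}`. Let `k'` be minimal with `y ∈ nb H k' {x}`; `1 ≤ k' ≤ L`. Going back from `y`: there are `z_{k'} = y, z_{k'-1}, ..., z_0 = x`
with `z_i ∈ nb H i {x}`, `z_i ∉ nb H (i-1) {x}` (for `i ≥ 1`), `H.Adj z_{i-1} z_i` (if `z_i ∈ nb H i {x} \ nb H (i-1) {x}` then `z_i` has a neighbour in `nb H (i-1) {x}`, and it is not in
`nb H (i-2) {x}`). So the `z_i` are different, and `≠ v` (`v` is isolated in `H`, and `x, y ≠ v`; all `z_i` have a neighbour in `H`). With `k' = k + 1`: `f 0 = v`, `f (i + 1) = z_i` for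
`0 ≤ i ≤ k + 1`, `f : Fin (k + 3) → V`. (`Fin.cons`; in `Fin (k + 3)` the successor of the last element is `0`.)
-/

set_option autoImplicit false
set_option linter.unusedSectionVars false

namespace H49.NB

open Finset H97.Int
open scoped Classical

variable {V : Type} [Fintype V] [DecidableEq V] (G : SimpleGraph V) [DecidableRel G.Adj]

/-- a path through the spheres around `x` -/
private theorem CyA_path (x : V) : ∀ (k : ℕ) (y : V), y ∈ nb G k {x} → (∀ j < k, y ∉ nb G j {x}) →
    ∃ z : ℕ → V, z 0 = x ∧ z k = y ∧ (∀ i < k, G.Adj (z i) (z (i + 1))) ∧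
      ∀ i ≤ k, z i ∈ nb G i {x} ∧ ∀ j < i, z i ∉ nb G j {x} := by
  intro k
  induction k with
  | zero =>
    intro y hy _
    have hyx : y = x := by simpa [nb] using hy
    refine ⟨fun _ => x, rfl, hyx.symm, ?_, ?_⟩
    · intro i hi
      exact absurd hi (Nat.not_lt_zero i)
    · intro i hi
      obtain rfl : i = 0 := Nat.le_zero.1 hi
      refine ⟨by simp [nb], ?_⟩
      intro j hj
      exact absurd hj (Nat.not_lt_zero j)
  | succ k ih =>
    intro y hy hmin
    have h1 : y ∈ nbr G (nb G k {x}) := hy
    rw [nbr, Finset.mem_union] at h1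
    rcases h1 with h1 | h1
    · exact absurd h1 (hmin k (Nat.lt_succ_self k))
    · obtain ⟨u, hu, huy⟩ := Finset.mem_biUnion.1 h1
      rw [SimpleGraph.mem_neighborFinset] at huy
      have humin : ∀ j < k, u ∉ nb G j {x} := by
        intro j hj huj
        apply hmin (j + 1) (by omega)
        show y ∈ nbr G (nb G j {x})
        rw [nbr, Finset.mem_union]
        right
        exact Finset.mem_biUnion.2 ⟨u, huj, by rw [SimpleGraph.mem_neighborFinset]; exact huy⟩
      obtain ⟨z, hz0, hzk, hzadj, hzl⟩ := ih u hu humin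
      refine ⟨fun i => if i ≤ k then z i else y, ?_, ?_, ?_, ?_⟩
      · simp [hz0]
      · simp
      · intro i hi
        by_cases h2 : i + 1 ≤ k
        · simp only [h2, if_true, show i ≤ k by omega]
          exact hzadj i (by omega)
        · obtain rfl : i = k := by omega
          simp only [le_refl, if_true, show ¬ i + 1 ≤ i by omega, if_false]
          rw [hzk]
          exact huy
      · intro i hi
        by_cases h2 : i ≤ k
        · simp only [h2, if_true]
          exact hzl i h2
        · obtain rfl : i = k + 1 := by omega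
          simp only [h2, if_false]
          exact ⟨hy, hmin⟩

theorem not_clean {L : ℕ} {v : V} (h : ¬ Clean G L v) :
    ∃ k < L, ∃ f : Fin (k + 3) → V, Function.Injective f ∧ f 0 = v ∧ ∀ i, G.Adj (f i) (f (i + 1)) := by
  unfold Clean at h
  push Not at h
  obtain ⟨x, y, hx, hy, hxy, hL⟩ := h
  have hex : ∃ j, y ∈ nb (del G {v}) j {x} := ⟨L, hL⟩
  obtain ⟨z, hz0, hzk, hzadj, hzl⟩ := CyA_path (del G {v}) x (Nat.find hex) y (Nat.find_spec hex)
    (fun j hj => Nat.find_min hex hj)
  have hkL : Nat.find hex ≤ L := Nat.find_min' hex hL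
  obtain ⟨k, hk⟩ : ∃ k, Nat.find hex = k + 1 := by
    rcases Nat.eq_zero_or_pos (Nat.find hex) with h0 | h0
    · exfalso
      rw [h0] at hzk
      exact hxy (hz0.symm.trans hzk)
    · exact ⟨Nat.find hex - 1, by omega⟩
  rw [hk] at hzk hzadj hzl hkL
  have hne : ∀ i ≤ k + 1, z i ≠ v := by
    intro i hi hv
    by_cases h1 : i < k + 1
    · exact (hzadj i h1).2.1 (Finset.mem_singleton.2 hv)
    · obtain rfl : i = k + 1 := by omega
      rw [hzk] at hv
      exact hy.ne hv.symm
  have hinj : ∀ i j, i ≤ k + 1 → j ≤ k + 1 → z i = z j → i = j := by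
    intro i j hi hj hij
    by_contra hne'
    rcases lt_or_gt_of_ne hne' with h1 | h1
    · exact (hzl j hj).2 i h1 (by rw [← hij]; exact (hzl i hi).1)
    · exact (hzl i hi).2 j h1 (by rw [hij]; exact (hzl j hj).1)
  refine ⟨k, by omega, fun i => if (i : ℕ) = 0 then v else z ((i : ℕ) - 1), ?_, ?_, ?_⟩
  · intro i j hij
    apply Fin.ext
    have hi := i.2
    have hj := j.2
    by_cases h1 : (i : ℕ) = 0
    · by_cases h2 : (j : ℕ) = 0
      · rw [h1, h2]
      · simp only [h1, h2, if_true, if_false] at hij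
        exact absurd hij.symm (hne _ (by omega))
    · by_cases h2 : (j : ℕ) = 0
      · simp only [h1, h2, if_true, if_false] at hij
        exact absurd hij (hne _ (by omega))
      · simp only [h1, h2, if_false] at hij
        have := hinj _ _ (by omega) (by omega) hij
        omega
  · simp
  · intro i
    have hi := i.2
    have hv1 : ((i + 1 : Fin (k + 3)) : ℕ) = if i = Fin.last (k + 2) then 0 else (i : ℕ) + 1 :=
      Fin.val_add_one i
    by_cases h1 : i = Fin.last (k + 2)
    · rw [if_pos h1] at hv1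
      have hi' : (i : ℕ) = k + 2 := by rw [h1]; rfl
      simp only [hv1, if_true, hi']
      rw [if_neg (by omega), show k + 2 - 1 = k + 1 by omega, hzk]
      exact hy.symm
    · rw [if_neg h1] at hv1
      have hi' : (i : ℕ) ≠ k + 2 := fun h => h1 (Fin.ext h)
      simp only [hv1]
      rw [if_neg (Nat.succ_ne_zero _), Nat.add_sub_cancel]
      by_cases h2 : (i : ℕ) = 0
      · rw [if_pos h2, h2, hz0]
        exact hx
      · rw [if_neg h2]
        have h3 := (hzadj ((i : ℕ) - 1) (by omega)).1
        rwa [show (i : ℕ) - 1 + 1 = i by omega] at h3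

end H49.NB
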