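import Pool.Agent.H97.Int.Almost

/-!
# Near-bisections for almost all regular graphs (MP_363a78_co, Q1)

THEOREM (`FinC`). For every `d ≥ 1` and `ε > 0`, for `n ≥ n₀` all but a fraction `ε` of the `d`-regular graphs on `n` labelled vertices have an internal partition `A, B` with
`||A| - |B|| ≤ 2 d`.

PART I (`Main`): a graph `G` with maximum degree at most `d` and `n` vertices, such that (S) every `P` with `|P| ≤ η n` spans at most `(1 + δ)|P|` edges, `δ < 1/4`, and (L) there are `κ n`
vertices `v` such that all vertices of `N[v]` are clean (on no short cycle), has an internal partition with imbalance at most `2 d`.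

`W A S` is the change of the cut when the set `S` is flipped in the state `A`. Take `O` = the end vertices of a family of edges `o, π o` (gadgets) at distance `> 8` from each other, with clean
end vertices; their number is a positive fraction of `n` which does not depend on how long the short cycles are. `H = del G O`: the vertices of `O` are made isolated.
(a) `Dyn`: from a random state run the local dynamics on `H` which flips sets of diameter `≤ K` with profit (classes of such sets without contact, periodically). The cut goes down with every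
flip, so at some fixed time `t ≤ T` the expected number of flips during the next sweep is `≤ ε n`, and the state `X A` at this time is `K`-optimal off a set `U`, `|U| ≤ ε n`, with probability
`≥ 3/4`. The map `A ↦ X A` has finite range `R` and commutes with complements (`LocOdd`).
(b) `Energy`: by (S) every `Z`, `|Z| ≤ η n`, has `W(Z) ≥ - 2 (δ + 1/s)|Z| - d K |Z ∩ U|` (`Z` is cut into connected pieces of size in `[s, d s]`, `K = d s`); `Compl`: a minimiser `Z` of
`W(Z) + θ |Z|`, `2 (δ + 1/s) < θ < 1/2`, has `|Z| ≤ C |U|` and gives a state in which no vertex and no edge can be flipped with profit (`Opt2`).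
(c) `Rho`: from such a state on `H` the gadgets are filled in: see below; `Bal`: the free gadgets balance the partition, if there are enough of them: more than the total `|M₀|` of the forced
values.
(d) `Prob`: `M₀` is a sum of odd local functions, so `E M₀² = O(n)`; a gadget is free with probability `≥ 4^{-d}` (`FlexProb`, the branches at a gadget are independent), and the number of free
gadgets is concentrated (`IndSum`). (b) changes both numbers by `O(ε n)`.

GADGETS. A neighbour `x ∉ O` of `O` is tied if `W_H {x} = 0`. A tied `x` takes the value of its gadget vertex (`Opt2` makes this flip safe). For `o ∈ O`: `t` = number of tied neighbours,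
`s` = sum of the spins of the other neighbours outside `O`. `o` is strong if `|s| ≥ t + 2`; then it takes the value `sign s`; if `o` is not strong and `π o` is, it takes the value of `π o`;
if neither is strong both values `±1` (the same for `o` and `π o`) are possible: the gadget is free.

PART II: (S) and (L) hold for almost all `d`-regular graphs on `n` labelled vertices, by `P(F ⊆ G) ≤ (2d/n)^{|F|}` (switchings, `Switch`, `Iter`) and first moments (`FmS`, `FmAn`, `FmL`).
-/

set_option autoImplicit false
set_option linter.unusedSectionVars false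

namespace H49.NB

open Finset H97.Int
open scoped Classical symmDiff

variable {V : Type} [Fintype V] [DecidableEq V] (G : SimpleGraph V) [DecidableRel G.Adj]

/-! ## States and flips -/

/-- change of the cut when the set `S` is flipped in the state `A` -/
noncomputable def W (A S : Finset V) : ℤ :=
  ∑ u ∈ S, ∑ v ∈ Sᶜ, adj G u v * (spin A u * spin A v)

/-- diameter at most `K` -/
def Small (K : ℕ) (S : Finset V) : Prop := ∀ u ∈ S, S ⊆ nb G K {u}

/-- no set of diameter at most `K` which avoids `U` can be flipped with profit -/
def KOpt (K : ℕ) (A U : Finset V) : Prop :=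
  ∀ S : Finset V, Small G K S → Disjoint S U → 0 ≤ W G A S

/-- no vertex and no edge can be flipped with profit -/
def Opt2 (A : Finset V) : Prop :=
  (∀ v, 0 ≤ W G A {v}) ∧ ∀ u v, G.Adj u v → 0 ≤ W G A {u, v}

/-- connected sets -/
def Cn (S : Finset V) : Prop :=
  ∀ T ⊆ S, T.Nonempty → T ≠ S → ∃ u ∈ T, ∃ v ∈ S \ T, G.Adj u v

/-- local sparseness: sets of at most `η n` vertices span at most `(1 + δ)|P|` edges
(`E G P P` counts every edge twice) -/
def Spr (η δ : ℝ) : Prop :=
  ∀ P : Finset V, (P.card : ℝ) ≤ η * Fintype.card V → (E G P P : ℝ) ≤ 2 * (1 + δ) * P.card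

/-- maps of states of range `R` which commute with complements -/
structure LocOdd (R : ℕ) (X : Finset V → Finset V) : Prop where
  compl : ∀ A, X Aᶜ = (X A)ᶜ
  loc : ∀ v A A', (∀ u ∈ nb G R {v}, (u ∈ A ↔ u ∈ A')) → (v ∈ X A ↔ v ∈ X A')

/-! ## The dynamics -/

/-- the union of the sets of the class `C` which can be flipped with profit -/
noncomputable def flipC (C : Finset (Finset V)) (A : Finset V) : Finset V :=
  (C.filter fun S => W G A S < 0).biUnion id

/-- flip these sets -/
noncomputable def updC (C : Finset (Finset V)) (A : Finset V) : Finset V := A ∆ flipC G C A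

/-- the trajectory -/
noncomputable def trajC (cl : ℕ → Finset (Finset V)) (A : Finset V) : ℕ → Finset V
  | 0 => A
  | t + 1 => updC G (cl t) (trajC cl A t)

/-- a class: nonempty sets of diameter at most `K`, without contact -/
def Cls (K : ℕ) (C : Finset (Finset V)) : Prop :=
  (∀ S ∈ C, S.Nonempty ∧ Small G K S) ∧ ∀ S ∈ C, ∀ T ∈ C, S ≠ T → Disjoint (nbr G S) T

/-! ## Gadgets -/

/-- the graph in which the vertices of `O` are made isolated -/
def del (O : Finset V) : SimpleGraph V where
  Adj u v := G.Adj u v ∧ u ∉ O ∧ v ∉ O
  symm := ⟨fun _ _ h => ⟨h.1.symm, h.2.2, h.2.1⟩⟩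
  loopless := ⟨fun _ h => h.1.ne rfl⟩

instance (O : Finset V) : DecidableRel (del G O).Adj :=
  fun u v => inferInstanceAs (Decidable (G.Adj u v ∧ u ∉ O ∧ v ∉ O))

/-- `v` is on no cycle of length at most `L + 2`: two different neighbours of `v` have distance more than `L`
in the graph without `v` -/
def Clean (L : ℕ) (v : V) : Prop :=
  ∀ x y, G.Adj v x → G.Adj v y → x ≠ y → y ∉ nb (del G {v}) L {x}

/-- `O` is the set of end vertices of a family of gadgets `o, π o` far from each other, without short cycles -/
structure Gad (O : Finset V) (π : V → V) : Prop where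
  mem : ∀ o ∈ O, π o ∈ O
  invol : ∀ o ∈ O, π (π o) = o
  adj : ∀ o ∈ O, G.Adj o (π o)
  uniq : ∀ o ∈ O, ∀ p ∈ O, G.Adj o p → p = π o
  one : ∀ x, x ∉ O → ∀ o ∈ O, ∀ p ∈ O, G.Adj x o → G.Adj x p → o = p
  sep : ∀ y, y ∉ O → ∀ x₁, x₁ ∉ O → ∀ x₂, x₂ ∉ O → ∀ o₁ ∈ O, ∀ o₂ ∈ O,
    G.Adj y x₁ → G.Adj y x₂ → G.Adj x₁ o₁ → G.Adj x₂ o₂ → x₁ = x₂
  nob : ∀ x, x ∉ O → ∀ y, y ∉ O → ∀ o ∈ O, ∀ p ∈ O, G.Adj x o → G.Adj y p → ¬ G.Adj x y

/-- the neighbours of `o` outside `O` -/
def bd (O : Finset V) (o : V) : Finset V := (G.neighborFinset o).filter fun x => x ∉ O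

/-- `x` is a tied neighbour of `O` -/
def Tied (O Y : Finset V) (x : V) : Prop :=
  x ∉ O ∧ (∃ o ∈ O, G.Adj x o) ∧ W (del G O) Y {x} = 0

/-- number of tied neighbours of `o` -/
noncomputable def tn (O Y : Finset V) (o : V) : ℤ :=
  (((bd G O o).filter fun x => Tied G O Y x).card : ℤ)

/-- sum of the spins of the other neighbours of `o` outside `O` -/
noncomputable def sn (O Y : Finset V) (o : V) : ℤ :=
  ∑ x ∈ (bd G O o).filter fun x => ¬ Tied G O Y x, spin Y x

/-- the value of `o` is forced -/
def Strong (O Y : Finset V) (o : V) : Prop := tn G O Y o + 2 ≤ |sn G O Y o|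

/-- the value of a vertex of `O`; `ε` is the value of the free gadgets -/
noncomputable def val (π : V → V) (O Y : Finset V) (ε : V → ℤ) (o : V) : ℤ :=
  if Strong G O Y o then (sn G O Y o).sign
  else if Strong G O Y (π o) then (sn G O Y (π o)).sign
  else ε o

/-- a neighbour of `x` in `O` -/
noncomputable def root (O : Finset V) (x : V) : V :=
  if h : ∃ o ∈ O, G.Adj x o then h.choose else x

/-- the final spins -/
noncomputable def rho (π : V → V) (O Y : Finset V) (ε : V → ℤ) (v : V) : ℤ :=
  if v ∈ O then val G π O Y ε v
  else if Tied G O Y v then val G π O Y ε (root G O v)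
  else spin Y v

/-- the sum of the forced final spins -/
noncomputable def Mz (π : V → V) (O Y : Finset V) : ℤ := ∑ v, rho G π O Y (fun _ => 0) v

/-- the vertices of `O` in free gadgets -/
noncomputable def flx (π : V → V) (O Y : Finset V) : Finset V :=
  O.filter fun o => ¬ Strong G O Y o ∧ ¬ Strong G O Y (π o)

/-- the conclusion of Q1 with constant `c` -/
def NearInt (c : ℕ) : Prop :=
  ∃ A : Finset V, A.Nonempty ∧ Aᶜ.Nonempty ∧ |(A.card : ℤ) - (Aᶜ.card : ℤ)| ≤ c ∧
    ∀ v : V, (v ∈ A → (G.neighborFinset v ∩ Aᶜ).card ≤ (G.neighborFinset v ∩ A).card) ∧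
      (v ∉ A → (G.neighborFinset v ∩ A).card ≤ (G.neighborFinset v ∩ Aᶜ).card)

end H49.NB
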