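import Pool.Agent.H49.NB.Wa
import Pool.Agent.H49.NB.Wb

/-!
# Every flip lowers the cut

Compare `H97.Int.cut_upd`, `cut_traj`, `uns_total`. Let `S₁, ..., S_m` be the sets of the class `C` with `W G A S < 0`; they are pairwise disjoint and without contact, so
`W G A (S₁ ∪ ... ∪ S_j) = ∑ W G A S_i ≤ - j` by `W_union_eq` (induction over sub-collections; `flipC G C A` is the union), and `cut_flip_set` gives `cut G (updC G C A) ≤ cut G A - m`.
`|S| ≤ (d+1)^K` for `S ∈ C` (`S ⊆ nb G K {u}`, `card_nb_le`), so `|flipC G C A| ≤ (d+1)^K m`. Sum over `t`, `0 ≤ cut ≤ d n` (see the end of the proof of `uns_total`).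
-/

set_option autoImplicit false
set_option linter.unusedSectionVars false

namespace H49.NB

open Finset H97.Int
open scoped Classical symmDiff

variable {V : Type} [Fintype V] [DecidableEq V] (G : SimpleGraph V) [DecidableRel G.Adj]

private lemma fam {d K : ℕ} (hd : ∀ v, G.degree v ≤ d) {C : Finset (Finset V)} (hC : Cls G K C) (A : Finset V)
    (D : Finset (Finset V)) : D ⊆ (C.filter fun S => W G A S < 0) →
      W G A (D.biUnion id) ≤ -(D.card : ℤ) ∧ (D.biUnion id).card ≤ (d + 1) ^ K * D.card := by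
  induction D using Finset.induction_on with
  | empty =>
    intro _
    refine ⟨?_, ?_⟩
    · rw [Finset.biUnion_empty, W_empty, Finset.card_empty]
      simp
    · simp
  | insert S D hSD ih =>
    intro hsub
    have hD : D ⊆ (C.filter fun S => W G A S < 0) := fun x hx => hsub (Finset.mem_insert_of_mem hx)
    obtain ⟨i1, i2⟩ := ih hD
    have hS := Finset.mem_filter.1 (hsub (Finset.mem_insert_self S D))
    have hno : ∀ x ∈ nbr G S, x ∉ D.biUnion id := by
      intro x hx hx2
      obtain ⟨T, hT, hxT⟩ := Finset.mem_biUnion.1 hx2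
      have hne : S ≠ T := by
        rintro rfl
        exact hSD hT
      exact Finset.disjoint_left.1 (hC.2 S hS.1 T (Finset.mem_filter.1 (hD hT)).1 hne) hx hxT
    have hdis : Disjoint S (D.biUnion id) := by
      rw [Finset.disjoint_left]
      exact fun x hx => hno x (subset_nbr G S hx)
    have hadj : ∀ u ∈ S, ∀ v ∈ D.biUnion id, ¬ G.Adj u v := by
      intro u hu v hv h
      exact hno v ((mem_nbr G).2 (Or.inr ⟨u, hu, h⟩)) hv
    have hins : (insert S D).biUnion id = S ∪ D.biUnion id := by
      rw [Finset.biUnion_insert]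
      rfl
    obtain ⟨u, hu⟩ := (hC.1 S hS.1).1
    have hcS : S.card ≤ (d + 1) ^ K := by
      have h1 := Finset.card_le_card ((hC.1 S hS.1).2 u hu)
      have h2 := card_nb_le G hd K ({u} : Finset V)
      rw [Finset.card_singleton, mul_one] at h2
      exact h1.trans h2
    rw [hins, Finset.card_insert_of_notMem hSD]
    refine ⟨?_, ?_⟩
    · rw [W_union_eq G A hdis hadj]
      have h3 := hS.2
      push_cast
      omega
    · calc (S ∪ D.biUnion id).card ≤ S.card + (D.biUnion id).card := Finset.card_union_le _ _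
        _ ≤ (d + 1) ^ K + (d + 1) ^ K * D.card := Nat.add_le_add hcS i2
        _ = (d + 1) ^ K * (D.card + 1) := by ring

lemma cut_updC {d K : ℕ} (hd : ∀ v, G.degree v ≤ d) {C : Finset (Finset V)} (hC : Cls G K C) (A : Finset V) :
    ((d : ℤ) + 1) ^ K * cut G (updC G C A) + (flipC G C A).card ≤ ((d : ℤ) + 1) ^ K * cut G A := by
  obtain ⟨h1, h2⟩ := fam G hd hC A (C.filter fun S => W G A S < 0) (Finset.Subset.refl _)
  have h3 : cut G (updC G C A) = cut G A + W G A (flipC G C A) := by
    unfold updC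
    exact cut_flip_set G A _
  have h4 : W G A (flipC G C A) ≤ -((C.filter fun S => W G A S < 0).card : ℤ) := h1
  have h5 : ((flipC G C A).card : ℤ) ≤ ((d : ℤ) + 1) ^ K * ((C.filter fun S => W G A S < 0).card : ℤ) := by
    have : (flipC G C A).card ≤ (d + 1) ^ K * (C.filter fun S => W G A S < 0).card := h2
    exact_mod_cast this
  rw [h3]
  have hp : (0 : ℤ) ≤ ((d : ℤ) + 1) ^ K := by positivity
  nlinarith [mul_le_mul_of_nonneg_left h4 hp]

private lemma cut_trajC {d K : ℕ} (hd : ∀ v, G.degree v ≤ d) {cl : ℕ → Finset (Finset V)} (hcl : ∀ t, Cls G K (cl t))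
    (A : Finset V) (T : ℕ) :
    ((d : ℤ) + 1) ^ K * cut G (trajC G cl A T) + ∑ t ∈ range T, ((flipC G (cl t) (trajC G cl A t)).card : ℤ) ≤
      ((d : ℤ) + 1) ^ K * cut G A := by
  induction T with
  | zero => simp [trajC]
  | succ T ih =>
    rw [Finset.sum_range_succ]
    have h1 := cut_updC G hd (hcl T) (trajC G cl A T)
    have h2 : trajC G cl A (T + 1) = updC G (cl T) (trajC G cl A T) := rfl
    rw [h2]
    linarith

lemma flips_total {d K : ℕ} (hd : ∀ v, G.degree v ≤ d) {cl : ℕ → Finset (Finset V)} (hcl : ∀ t, Cls G K (cl t))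
    (A : Finset V) (T : ℕ) :
    ∑ t ∈ range T, ((flipC G (cl t) (trajC G cl A t)).card : ℤ) ≤
      ((d : ℤ) + 1) ^ K * (d * Fintype.card V) := by
  have h2 := cut_trajC G hd hcl A T
  have h3 := cut_nonneg G (trajC G cl A T)
  have h4 : cut G A ≤ d * Fintype.card V := by
    calc cut G A ≤ E G A univ := E_mono_right G (Finset.subset_univ _) A
      _ = ∑ v ∈ A, (G.degree v : ℤ) := E_univ_right G A
      _ ≤ ∑ _v ∈ A, (d : ℤ) := Finset.sum_le_sum fun v _ => by exact_mod_cast hd v
      _ = d * A.card := by simp [mul_comm]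
      _ ≤ d * Fintype.card V := by
        gcongr
        exact_mod_cast Finset.card_le_univ A
  have hp : (0 : ℤ) ≤ ((d : ℤ) + 1) ^ K := by positivity
  have h5 := mul_nonneg hp h3
  have h6 := mul_le_mul_of_nonneg_left h4 hp
  linarith

end H49.NB
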