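import Pool.Agent.H49.NB.Wa

/-!
# A sweep with few flips starts in a state which is `K`-optimal off a small set

Compare `H97.Int.uns_sweep`. `U = ⋃_{k ≤ t < k + q} nbr G (flipC G (cl t) (trajC G cl A t))`. If `S` is disjoint from `U` then no vertex of `nbr G S` is flipped during the sweep (a vertex of
`S` would be in `U`, a neighbour of a vertex `s ∈ S` would put `s` into `U`). So for `t` in the sweep `trajC G cl A t` and `trajC G cl A k` agree on `nbr G S`. Let `S ≠ ∅` be small, `t` in the
sweep with `S ∈ cl t`. If `W G (trajC G cl A k) S < 0`, then `W G (trajC G cl A t) S < 0` (`W_congr`), so `S ⊆ flipC G (cl t) (trajC G cl A t) ⊆ U`, a contradiction. `S = ∅`: `W_empty`.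
`|nbr G Z| ≤ (d + 1)|Z|` is `card_nbr_le`.
-/

set_option autoImplicit false
set_option linter.unusedSectionVars false

namespace H49.NB

open Finset H97.Int
open scoped Classical symmDiff

variable {V : Type} [Fintype V] [DecidableEq V] (G : SimpleGraph V) [DecidableRel G.Adj]

lemma kopt_sweep {d K q k : ℕ} (hd : ∀ v, G.degree v ≤ d) {cl : ℕ → Finset (Finset V)}
    (hcov : ∀ S : Finset V, S.Nonempty → Small G K S → ∃ t, k ≤ t ∧ t < k + q ∧ S ∈ cl t) (A : Finset V) :
    ∃ U : Finset V, KOpt G K (trajC G cl A k) U ∧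
      (U.card : ℤ) ≤ (d + 1) * ∑ t ∈ Finset.Ico k (k + q), ((flipC G (cl t) (trajC G cl A t)).card : ℤ) := by
  refine ⟨(Finset.Ico k (k + q)).biUnion fun t => nbr G (flipC G (cl t) (trajC G cl A t)), ?_, ?_⟩
  · intro S hS hSU
    rcases S.eq_empty_or_nonempty with rfl | hne
    · rw [W_empty]
    by_contra hneg
    have hneg' : W G (trajC G cl A k) S < 0 := not_le.1 hneg
    obtain ⟨T, hT1, hT2, hST⟩ := hcov S hne hS
    have hno : ∀ t, k ≤ t → t < k + q → ∀ u ∈ nbr G S, u ∉ flipC G (cl t) (trajC G cl A t) := by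
      intro t h1 h2 u hu hmem
      rw [mem_nbr] at hu
      rcases hu with hu | ⟨s, hs, hsu⟩
      · refine (Finset.disjoint_left.1 hSU) hu (Finset.mem_biUnion.2 ⟨t, Finset.mem_Ico.2 ⟨h1, h2⟩, ?_⟩)
        rw [mem_nbr]
        exact Or.inl hmem
      · refine (Finset.disjoint_left.1 hSU) hs (Finset.mem_biUnion.2 ⟨t, Finset.mem_Ico.2 ⟨h1, h2⟩, ?_⟩)
        rw [mem_nbr]
        exact Or.inr ⟨u, hmem, hsu.symm⟩
    have hsame : ∀ s, k + s ≤ k + q → ∀ u ∈ nbr G S,
        (u ∈ trajC G cl A (k + s) ↔ u ∈ trajC G cl A k) := by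
      intro s
      induction s with
      | zero => intro _ u _; rfl
      | succ s ih =>
        intro hs u hu
        have h1 := ih (by omega) u hu
        rw [← h1]
        have h2 := hno (k + s) (by omega) (by omega) u hu
        rw [← add_assoc]
        simp only [trajC]
        rw [updC, Finset.mem_symmDiff]
        tauto
    obtain ⟨s, rfl⟩ := Nat.exists_eq_add_of_le hT1
    have hW : W G (trajC G cl A (k + s)) S < 0 := by
      rw [W_congr G (hsame s (by omega))]
      exact hneg'
    obtain ⟨x, hx⟩ := hne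
    refine hno (k + s) (by omega) hT2 x (subset_nbr G S hx) ?_
    unfold flipC
    rw [Finset.mem_biUnion]
    exact ⟨S, Finset.mem_filter.2 ⟨hST, hW⟩, hx⟩
  · have h1 : ((Finset.Ico k (k + q)).biUnion fun t => nbr G (flipC G (cl t) (trajC G cl A t))).card ≤
        ∑ t ∈ Finset.Ico k (k + q), (d + 1) * (flipC G (cl t) (trajC G cl A t)).card := by
      refine Finset.card_biUnion_le.trans ?_
      exact Finset.sum_le_sum fun t _ => card_nbr_le G hd _
    rw [← Finset.mul_sum] at h1
    exact_mod_cast h1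

end H49.NB
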