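import Pool.Agent.H49.NB.Defs

/-!
# Classes

`q = 2 ^ ((d + 1) ^ (2 K + 1))`. Conflict graph on `Finset V`: `S ≠ T` nonempty and small, and (not `Disjoint (nbr G S) T`) (this is symmetric). If `T` is in conflict with `S`, `v ∈ S`, then `T`
meets `nbr G S ⊆ nb G (K + 1) {v}`, so `T ⊆ nb G (2 K + 1) {v}`, a set of at most `(d + 1) ^ (2 K + 1)` vertices; so `S` has at most `q` conflicts; `H97.Int.exists_colouring` (used for the
conflict graph, with `V` replaced by `Finset V`) gives a colouring `χ` with `q + 1` colours (take `q + 1` as the number in the statement). `cl t` = the nonempty small sets `S` with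
`χ S = t % (q + 1)`. Covering: `t = k (q + 1) + χ S`, compare `hcov` in `H97.Int.exists_good`.
-/

set_option autoImplicit false
set_option linter.unusedSectionVars false

namespace H49.NB

open Finset H97.Int
open scoped Classical symmDiff

private lemma nbr_meet_symm {V : Type} [Fintype V] [DecidableEq V] (G : SimpleGraph V)
    [DecidableRel G.Adj] {S T : Finset V} (h : ¬ Disjoint (nbr G S) T) : ¬ Disjoint (nbr G T) S := by
  rw [Finset.not_disjoint_iff] at h ⊢
  obtain ⟨x, hx, hxT⟩ := h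
  rw [mem_nbr] at hx
  rcases hx with hx | ⟨s, hs, hsx⟩
  · exact ⟨x, subset_nbr G T hxT, hx⟩
  · refine ⟨s, ?_, hs⟩
    rw [mem_nbr]
    exact Or.inr ⟨x, hxT, hsx.symm⟩

private def conf {V : Type} [Fintype V] [DecidableEq V] (G : SimpleGraph V)
    [DecidableRel G.Adj] (K : ℕ) : SimpleGraph (Finset V) where
  Adj S T := S ≠ T ∧ (S.Nonempty ∧ Small G K S) ∧ (T.Nonempty ∧ Small G K T) ∧
    ¬ Disjoint (nbr G S) T
  symm := ⟨fun _ _ h => ⟨h.1.symm, h.2.2.1, h.2.1, nbr_meet_symm G h.2.2.2⟩⟩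
  loopless := ⟨fun _ h => h.1 rfl⟩

private lemma conf_sub {V : Type} [Fintype V] [DecidableEq V] (G : SimpleGraph V)
    [DecidableRel G.Adj] {K : ℕ} {S T : Finset V} {v : V} (hv : v ∈ S) (hS : Small G K S)
    (hT : Small G K T) (h : ¬ Disjoint (nbr G S) T) : T ⊆ nb G (2 * K + 1) {v} := by
  rw [Finset.not_disjoint_iff] at h
  obtain ⟨w, hw, hwT⟩ := h
  have h1 : nbr G S ⊆ nb G (1 + K) {v} := by
    rw [nb_add]
    have h2 := nb_mono G (hS v hv) 1
    simpa only [nb] using h2
  have h3 : ({w} : Finset V) ⊆ nb G (1 + K) {v} := by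
    rw [Finset.singleton_subset_iff]
    exact h1 hw
  have h4 := nb_mono G h3 K
  rw [← nb_add] at h4
  have h5 : K + (1 + K) = 2 * K + 1 := by ring
  rw [h5] at h4
  exact (hT w hwT).trans h4

theorem exists_classes (d K : ℕ) : ∃ q : ℕ, 0 < q ∧ ∀ (V : Type) [Fintype V] [DecidableEq V]
    (G : SimpleGraph V) [DecidableRel G.Adj], (∀ v, G.degree v ≤ d) →
    ∃ cl : ℕ → Finset (Finset V), (∀ t, Cls G K (cl t)) ∧
      ∀ k : ℕ, ∀ S : Finset V, S.Nonempty → Small G K S → ∃ t, k * q ≤ t ∧ t < k * q + q ∧ S ∈ cl t := by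
  refine ⟨2 ^ ((d + 1) ^ (2 * K + 1)) + 1, Nat.succ_pos _, ?_⟩
  intro V _ _ G _ hd
  have hdeg : ∀ S : Finset V, (conf G K).degree S ≤ 2 ^ ((d + 1) ^ (2 * K + 1)) := by
    intro S
    by_cases hS : S.Nonempty ∧ Small G K S
    · obtain ⟨v, hv⟩ := hS.1
      have hsub : (conf G K).neighborFinset S ⊆ (nb G (2 * K + 1) {v}).powerset := by
        intro T hT
        rw [SimpleGraph.mem_neighborFinset] at hT
        rw [Finset.mem_powerset]
        exact conf_sub G hv hS.2 hT.2.2.1.2 hT.2.2.2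
      have h1 := Finset.card_le_card hsub
      rw [SimpleGraph.card_neighborFinset_eq_degree, Finset.card_powerset] at h1
      have h2 : (nb G (2 * K + 1) {v}).card ≤ (d + 1) ^ (2 * K + 1) := by
        simpa using card_nb_le G hd (2 * K + 1) {v}
      exact h1.trans (Nat.pow_le_pow_right (by norm_num) h2)
    · have h1 : (conf G K).neighborFinset S = ∅ := by
        rw [Finset.eq_empty_iff_forall_notMem]
        intro T hT
        rw [SimpleGraph.mem_neighborFinset] at hT
        exact hS hT.2.1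
      rw [← SimpleGraph.card_neighborFinset_eq_degree, h1]
      simp
  obtain ⟨χ, hχ1, hχ2⟩ := exists_colouring (conf G K) hdeg
  refine ⟨fun t => univ.filter fun S : Finset V => (S.Nonempty ∧ Small G K S) ∧
    χ S = t % (2 ^ ((d + 1) ^ (2 * K + 1)) + 1), ?_, ?_⟩
  · intro t
    refine ⟨?_, ?_⟩
    · intro S hS
      exact (Finset.mem_filter.1 hS).2.1
    · intro S hS T hT hne
      have hS' := (Finset.mem_filter.1 hS).2
      have hT' := (Finset.mem_filter.1 hT).2
      by_contra hcon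
      exact hχ2 S T ⟨hne, hS'.1, hT'.1, hcon⟩ (hS'.2.trans hT'.2.symm)
  · intro k S hS1 hS2
    refine ⟨k * (2 ^ ((d + 1) ^ (2 * K + 1)) + 1) + χ S, by omega, ?_, ?_⟩
    · have := hχ1 S
      omega
    · rw [Finset.mem_filter]
      refine ⟨Finset.mem_univ _, ⟨hS1, hS2⟩, ?_⟩
      rw [Nat.mul_comm, Nat.mul_add_mod, Nat.mod_eq_of_lt (hχ1 S)]

end H49.NB
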