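import Pool.Agent.H49.NB.DynA
import Pool.Agent.H49.NB.DynB
import Pool.Agent.H49.NB.DynC
import Pool.Agent.H49.NB.DynD

/-!
# The result of the dynamics

`q` from `exists_classes`, `M = (d + 1)^(K+1) d`; `T ≥ 1` with `4 M ≤ ε T`. `R = (K + 1) (T q)`. For `A` and `k < T` let `U k A` be the set of `kopt_sweep` for the sweep which starts at `k q`.
`∑_{k < T} |U k A| ≤ (d + 1) ∑_{t < T q} |flipC ..| ≤ M n` (`sum_Ico_blocks`, `flips_total`). Sum over all `A` (`2^n` of them): there is `k < T` with `T ∑_A |U k A| ≤ 2^n M n`, so at most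
`2^n / 4` states `A` have `|U k A| > ε n` (Markov: `#{..} ε n T ≤ 2^n M n` and `4 M ≤ ε T`; treat `n = 0` separately: then the bad set is empty since `U.card = 0 ≤ 0`).
`X A = trajC G cl A (k q)`; `LocOdd G R X` by `trajC_compl`, `trajC_local` and `nb_mono_left` (`(K + 1) (k q) ≤ R`).
-/

set_option autoImplicit false
set_option linter.unusedSectionVars false

namespace H49.NB

open Finset H97.Int
open scoped Classical symmDiff

private lemma exists_index {ι : Type*} (s : Finset ι) (T : ℕ) (hT : 0 < T) (f : ℕ → ι → ℝ) (M : ℝ)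
    (h : ∑ A ∈ s, ∑ k ∈ range T, f k A ≤ M) : ∃ k < T, (T : ℝ) * ∑ A ∈ s, f k A ≤ M := by
  by_contra hc
  push Not at hc
  rw [sum_comm] at h
  have h1 : ∀ k ∈ range T, M / T < ∑ A ∈ s, f k A := by
    intro k hk
    have h2 := hc k (mem_range.mp hk)
    have hT' : (0 : ℝ) < T := by exact_mod_cast hT
    rw [div_lt_iff₀ hT']
    linarith
  have h3 : ∑ _k ∈ range T, M / (T : ℝ) < ∑ k ∈ range T, ∑ A ∈ s, f k A :=
    sum_lt_sum_of_nonempty ⟨0, mem_range.mpr hT⟩ h1
  have hT' : (T : ℝ) ≠ 0 := by exact_mod_cast hT.ne'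
  rw [sum_const, card_range, nsmul_eq_mul, mul_div_cancel₀ _ hT'] at h3
  linarith

theorem dyn (d K : ℕ) (ε : ℝ) (hε : 0 < ε) : ∃ R : ℕ, ∀ (V : Type) [Fintype V] [DecidableEq V]
    (G : SimpleGraph V) [DecidableRel G.Adj], (∀ v, G.degree v ≤ d) →
    ∃ X : Finset V → Finset V, LocOdd G R X ∧
      4 * (univ.filter fun A : Finset V => ¬ ∃ U : Finset V, (U.card : ℝ) ≤ ε * Fintype.card V ∧
        KOpt G K (X A) U).card ≤ 2 ^ Fintype.card V := by
  obtain ⟨q, hq, hcl⟩ := exists_classes d K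
  set M : ℕ := (d + 1) ^ (K + 1) * d with hM
  obtain ⟨T, hT⟩ := exists_nat_gt (4 * ((M : ℝ) + 1) / ε)
  have hT0 : 0 < T := by
    have h1 : (0 : ℝ) < T := lt_of_le_of_lt (by positivity) hT
    exact_mod_cast h1
  have hTε : 4 * ((M : ℝ) + 1) < T * ε := by rwa [div_lt_iff₀ hε] at hT
  refine ⟨(K + 1) * (T * q), ?_⟩
  intro V _ _ G _ hd
  obtain ⟨cl, hC, hcov⟩ := hcl V G hd
  have hU : ∀ (k : ℕ) (A : Finset V), ∃ U : Finset V, KOpt G K (trajC G cl A (k * q)) U ∧
      (U.card : ℤ) ≤ (d + 1) * ∑ t ∈ Finset.Ico (k * q) (k * q + q),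
        ((flipC G (cl t) (trajC G cl A t)).card : ℤ) :=
    fun k A => kopt_sweep G hd (hcov k) A
  choose U hU1 hU2 using hU
  set n := Fintype.card V with hn
  have hsum : ∀ A : Finset V, ∑ k ∈ range T, ((U k A).card : ℝ) ≤ (M : ℝ) * n := by
    intro A
    have h1 : ∑ k ∈ range T, ((U k A).card : ℤ) ≤ (d + 1) * ∑ t ∈ range (T * q),
        ((flipC G (cl t) (trajC G cl A t)).card : ℤ) := by
      have h2 := sum_Ico_blocks (fun t => ((flipC G (cl t) (trajC G cl A t)).card : ℤ)) q T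
      rw [← h2, mul_sum]
      exact sum_le_sum fun k _ => hU2 k A
    have h3 := flips_total G hd hC A (T * q)
    have h4 : ∑ k ∈ range T, ((U k A).card : ℤ) ≤ (M : ℤ) * n := by
      refine h1.trans ?_
      have h5 : ((d : ℤ) + 1) * (((d : ℤ) + 1) ^ K * (d * n)) = (M : ℤ) * n := by
        rw [hM]
        push_cast
        ring
      rw [← h5]
      exact mul_le_mul_of_nonneg_left h3 (by positivity)
    exact_mod_cast h4
  have htot : ∑ A ∈ (univ : Finset (Finset V)), ∑ k ∈ range T, ((U k A).card : ℝ) ≤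
      2 ^ n * ((M : ℝ) * n) := by
    refine (sum_le_sum fun A _ => hsum A).trans (le_of_eq ?_)
    rw [sum_const, card_univ, Fintype.card_finset, nsmul_eq_mul]
    push_cast
    rfl
  obtain ⟨k, hk, hkM⟩ := exists_index univ T hT0 (fun k A => ((U k A).card : ℝ)) _ htot
  refine ⟨fun A => trajC G cl A (k * q), ⟨?_, ?_⟩, ?_⟩
  · intro A
    exact trajC_compl G cl A (k * q)
  · intro v A A' h
    refine trajC_local G hC (k * q) v ?_
    intro u hu
    refine h u (nb_mono_left G ?_ _ hu)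
    exact Nat.mul_le_mul_left _ (Nat.mul_le_mul_right _ hk.le)
  · set bad := univ.filter fun A : Finset V => ¬ ∃ U : Finset V, (U.card : ℝ) ≤ ε * n ∧
        KOpt G K (trajC G cl A (k * q)) U with hbad
    have hb : ∀ A ∈ bad, ε * n < ((U k A).card : ℝ) := by
      intro A hA
      rw [hbad, mem_filter] at hA
      by_contra hc
      push Not at hc
      exact hA.2 ⟨U k A, hc, hU1 k A⟩
    rcases Nat.eq_zero_or_pos n with h0 | h0
    · have hbe : bad = ∅ := by
        rw [eq_empty_iff_forall_notMem]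
        intro A hA
        have h1 := hb A hA
        have h2 : (U k A).card ≤ n := by
          rw [hn]
          exact card_le_univ _
        rw [h0] at h1 h2
        have h3 : (U k A).card = 0 := by omega
        rw [h3] at h1
        simp at h1
      rw [hbe]
      simp
    · have h1 : (bad.card : ℝ) * (ε * n) ≤ ∑ A ∈ (univ : Finset (Finset V)), ((U k A).card : ℝ) := by
        calc (bad.card : ℝ) * (ε * n) = ∑ _A ∈ bad, ε * n := by rw [sum_const, nsmul_eq_mul]
          _ ≤ ∑ A ∈ bad, ((U k A).card : ℝ) := sum_le_sum fun A hA => (hb A hA).le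
          _ ≤ _ := sum_le_sum_of_subset_of_nonneg (subset_univ _) fun _ _ _ => by positivity
      have hn' : (0 : ℝ) < n := by exact_mod_cast h0
      have h2 : (T : ℝ) * ((bad.card : ℝ) * (ε * n)) ≤ 2 ^ n * ((M : ℝ) * n) :=
        (mul_le_mul_of_nonneg_left h1 (by positivity)).trans hkM
      have h3 : (T : ℝ) * ε * bad.card ≤ 2 ^ n * (M : ℝ) := by
        have h4 : (T : ℝ) * ε * bad.card * n ≤ 2 ^ n * (M : ℝ) * n := by linarith
        exact le_of_mul_le_mul_right h4 hn'
      have h5 : 4 * ((M : ℝ) + 1) * bad.card ≤ T * ε * bad.card :=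
        mul_le_mul_of_nonneg_right hTε.le (by positivity)
      have h6 : (2 : ℝ) ^ n * (M : ℝ) ≤ 2 ^ n * ((M : ℝ) + 1) :=
        mul_le_mul_of_nonneg_left (by linarith) (by positivity)
      have h7 : (4 * (bad.card : ℝ)) * ((M : ℝ) + 1) ≤ 2 ^ n * ((M : ℝ) + 1) := by linarith
      have h8 : 4 * (bad.card : ℝ) ≤ 2 ^ n := le_of_mul_le_mul_right h7 (by positivity)
      exact_mod_cast h8

end H49.NB
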