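import Pool.Agent.H49.NB.Wa

/-!
# The dynamics commute with complements and are local

Compare `H97.Int.traj_compl`, `traj_local` (`Pool/Agent/H97/Int/Dynamics.lean`). `flipC_compl`: `W_compl`. `v ∈ updC G C A ↔ Xor (v ∈ A) (∃ S ∈ C, v ∈ S ∧ W G A S < 0)`; if `v ∈ S` and
`Small G K S` then `nbr G S ⊆ nb G (K + 1) {v}`, so `W_congr` applies. Induction on `t` with `nb_add`.
-/

set_option autoImplicit false
set_option linter.unusedSectionVars false

namespace H49.NB

open Finset H97.Int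
open scoped Classical symmDiff

variable {V : Type} [Fintype V] [DecidableEq V] (G : SimpleGraph V) [DecidableRel G.Adj]

lemma flipC_compl (C : Finset (Finset V)) (A : Finset V) : flipC G C Aᶜ = flipC G C A := by
  unfold flipC
  simp only [W_compl]

lemma mem_flipC {C : Finset (Finset V)} {A : Finset V} {v : V} :
    v ∈ flipC G C A ↔ ∃ S ∈ C, W G A S < 0 ∧ v ∈ S := by
  unfold flipC
  rw [Finset.mem_biUnion]
  constructor
  · rintro ⟨S, hS, hv⟩
    rw [Finset.mem_filter] at hS
    exact ⟨S, hS.1, hS.2, hv⟩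
  · rintro ⟨S, hS, hW, hv⟩
    exact ⟨S, Finset.mem_filter.2 ⟨hS, hW⟩, hv⟩

lemma flipC_local {K : ℕ} {C : Finset (Finset V)} (hC : Cls G K C) {A A' : Finset V} {v : V}
    (h : ∀ u ∈ nb G (K + 1) {v}, (u ∈ A ↔ u ∈ A')) : v ∈ flipC G C A ↔ v ∈ flipC G C A' := by
  rw [mem_flipC, mem_flipC]
  have key : ∀ S ∈ C, v ∈ S → W G A S = W G A' S := by
    intro S hS hv
    refine W_congr G fun u hu => h u ?_
    have hsub : S ⊆ nb G K {v} := (hC.1 S hS).2 v hv
    exact nbr_mono G hsub hu
  constructor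
  · rintro ⟨S, hS, hW, hv⟩
    exact ⟨S, hS, by rw [← key S hS hv]; exact hW, hv⟩
  · rintro ⟨S, hS, hW, hv⟩
    exact ⟨S, hS, by rw [key S hS hv]; exact hW, hv⟩

lemma trajC_compl (cl : ℕ → Finset (Finset V)) (A : Finset V) (t : ℕ) :
    trajC G cl Aᶜ t = (trajC G cl A t)ᶜ := by
  induction t with
  | zero => rfl
  | succ t ih =>
    simp only [trajC]
    rw [ih]
    unfold updC
    rw [flipC_compl]
    ext v
    simp only [Finset.mem_symmDiff, Finset.mem_compl]
    tauto

lemma trajC_local {K : ℕ} {cl : ℕ → Finset (Finset V)} (hcl : ∀ t, Cls G K (cl t)) {A A' : Finset V} (t : ℕ) :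
    ∀ v : V, (∀ u ∈ nb G ((K + 1) * t) {v}, (u ∈ A ↔ u ∈ A')) →
      (v ∈ trajC G cl A t ↔ v ∈ trajC G cl A' t) := by
  induction t with
  | zero => intro v h; exact h v (by simp [nb])
  | succ t ih =>
    intro v h
    have h1 : ∀ w ∈ nb G (K + 1) {v}, (w ∈ trajC G cl A t ↔ w ∈ trajC G cl A' t) := by
      intro w hw
      refine ih w fun u hu => h u ?_
      rw [Nat.mul_succ, nb_add]
      refine nb_mono G ?_ _ hu
      intro x hx
      rw [Finset.mem_singleton] at hx
      rw [hx]; exact hw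
    simp only [trajC]
    unfold updC
    rw [Finset.mem_symmDiff, Finset.mem_symmDiff, flipC_local G (hcl t) h1,
      h1 v (subset_nb G _ _ (Finset.mem_singleton_self v))]

end H49.NB
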