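import Pool.Agent.H49.NB.E1Defs

/-!
# Balancing and the partition

`bal1`: `∑ v, rho1 ε v = Mz1 + ∑_{o ∈ flx1} ε o`. Take `E ⊆ flx1` with `|E| = (|flx1| - Mz1)/2` (floor; it is between `0` and `|flx1|`), `ε = 1` on `E`, `-1` elsewhere: the sum is
`Mz1 + 2 |E| - |flx1| ∈ {0, -1}`.
`fin1e`: `r v = rho1 ε v = ±1` (`s1 ≠ 0` implies `sign = ±1`), `A = {v | r v = 1}`, exactly as `fin1` in `Fin1.lean` (with `rho1_int` as hypothesis `hint`). Both parts are nonempty because `n > 1`.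
-/

set_option autoImplicit false
set_option linter.unusedSectionVars false

namespace H49.NB

open Finset H97.Int
open scoped Classical symmDiff

variable {V : Type} [Fintype V] [DecidableEq V] (G : SimpleGraph V) [DecidableRel G.Adj]

private lemma e1_spin (Y : Finset V) (v : V) : spin Y v = 1 ∨ spin Y v = -1 := by
  unfold spin
  split_ifs
  · exact Or.inl rfl
  · exact Or.inr rfl

private lemma e1_pm (O Y : Finset V) {ε : V → ℤ} (hε : ∀ v, ε v = 1 ∨ ε v = -1) (v : V) :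
    rho1 G O Y ε v = 1 ∨ rho1 G O Y ε v = -1 := by
  unfold rho1
  split_ifs with h1 h2
  · exact hε v
  · rcases lt_or_gt_of_ne h2 with h | h
    · exact Or.inr (Int.sign_eq_neg_one_of_neg h)
    · exact Or.inl (Int.sign_eq_one_of_pos h)
  · exact e1_spin Y v

private lemma e1_sum (O Y : Finset V) (ε : V → ℤ) :
    ∑ v, rho1 G O Y ε v = Mz1 G O Y + ∑ o ∈ flx1 G O Y, ε o := by
  have h1 : ∀ v, rho1 G O Y ε v = rho1 G O Y (fun _ => 0) v + if v ∈ flx1 G O Y then ε v else 0 := by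
    intro v
    unfold rho1 flx1
    simp only [Finset.mem_filter]
    by_cases h1 : v ∈ O
    · by_cases h2 : s1 G Y v = 0
      · simp [h1, h2]
      · simp [h1, h2]
    · simp [h1]
  unfold Mz1
  rw [Finset.sum_congr rfl fun v _ => h1 v, Finset.sum_add_distrib]
  congr 1
  rw [Finset.sum_ite_mem, Finset.univ_inter]

theorem bal1 {O Y : Finset V} (hM : |Mz1 G O Y| ≤ ((flx1 G O Y).card : ℤ)) :
    ∃ ε : V → ℤ, (∀ v, ε v = 1 ∨ ε v = -1) ∧ |∑ v, rho1 G O Y ε v| ≤ 1 := by
  have hM2 := abs_le.1 hM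
  obtain ⟨N, hN⟩ : ∃ N : ℤ, N = ((flx1 G O Y).card : ℤ) := ⟨_, rfl⟩
  obtain ⟨M, hMd⟩ : ∃ M : ℤ, M = Mz1 G O Y := ⟨_, rfl⟩
  rw [← hN, ← hMd] at hM2
  have hq0 : 0 ≤ (N - M) / 2 := Int.ediv_nonneg (by linarith [hM2.2]) (by norm_num)
  have hq1 : (N - M) / 2 ≤ N := by
    have := hM2.1
    omega
  obtain ⟨E, hE, hEc⟩ := Finset.exists_subset_card_eq (s := flx1 G O Y) (n := ((N - M) / 2).toNat)
    (by omega)
  have hEc' : (E.card : ℤ) = (N - M) / 2 := by
    rw [hEc]
    exact Int.toNat_of_nonneg hq0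
  refine ⟨fun v => if v ∈ E then 1 else -1, fun v => ?_, ?_⟩
  · by_cases h : v ∈ E
    · exact Or.inl (if_pos h)
    · exact Or.inr (if_neg h)
  · rw [e1_sum]
    have h1 : ∑ o ∈ flx1 G O Y, (if o ∈ E then (1 : ℤ) else -1) = 2 * (E.card : ℤ) - N := by
      have h2 : ∀ o ∈ flx1 G O Y, (if o ∈ E then (1 : ℤ) else -1) =
          2 * (if o ∈ E then 1 else 0) - 1 := by
        intro o _
        split_ifs <;> norm_num
      rw [Finset.sum_congr rfl h2, Finset.sum_sub_distrib, ← Finset.mul_sum, Finset.sum_ite_mem,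
        Finset.inter_eq_right.2 hE, Finset.sum_const, Finset.sum_const, hN]
      simp
    rw [h1, hEc', ← hMd, abs_le]
    constructor <;> omega

theorem fin1e (hn : 1 < Fintype.card V) {O Y : Finset V}
    (hint : ∀ ε : V → ℤ, (∀ v, ε v = 1 ∨ ε v = -1) → ∀ v, 0 ≤ rho1 G O Y ε v * ∑ u, adj G v u * rho1 G O Y ε u)
    (hM : |Mz1 G O Y| ≤ ((flx1 G O Y).card : ℤ)) : NearInt G 1 := by
  obtain ⟨ε, hε, hb⟩ := bal1 G hM
  set r : V → ℤ := rho1 G O Y ε with hrd
  have hr : ∀ v, r v = 1 ∨ r v = -1 := fun v => e1_pm G O Y hε v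
  have hint' : ∀ v, 0 ≤ r v * ∑ u, adj G v u * r u := hint ε hε
  set A : Finset V := univ.filter fun v => r v = 1 with hA
  have hmem : ∀ v, v ∈ A ↔ r v = 1 := fun v => by simp [hA]
  have hmem' : ∀ v, v ∈ Aᶜ ↔ r v = -1 := fun v => by
    rw [mem_compl, hmem]
    rcases hr v with h | h <;> rw [h] <;> norm_num
  have hsum : ∑ v, r v = (A.card : ℤ) - (Aᶜ.card : ℤ) := by
    rw [← Finset.sum_add_sum_compl A]
    have h1 : ∑ v ∈ A, r v = (A.card : ℤ) := by
      rw [Finset.sum_congr rfl fun v hv => (hmem v).1 hv]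
      simp
    have h2 : ∑ v ∈ Aᶜ, r v = -(Aᶜ.card : ℤ) := by
      rw [Finset.sum_congr rfl fun v hv => (hmem' v).1 hv]
      simp
    rw [h1, h2]; ring
  have hcard : (A.card : ℤ) + (Aᶜ.card : ℤ) = Fintype.card V := by
    have := Finset.card_add_card_compl A
    exact_mod_cast this
  have hn' : (1 : ℤ) < Fintype.card V := by exact_mod_cast hn
  have hb' : |(A.card : ℤ) - (Aᶜ.card : ℤ)| ≤ 1 := by rw [← hsum]; exact hb
  have hb2 := abs_le.1 hb'
  have hnb : ∀ v, ∑ u, adj G v u * r u =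
      ((G.neighborFinset v ∩ A).card : ℤ) - ((G.neighborFinset v ∩ Aᶜ).card : ℤ) := by
    intro v
    rw [← Finset.sum_add_sum_compl A]
    have h1 : ∑ u ∈ A, adj G v u * r u = ((G.neighborFinset v ∩ A).card : ℤ) := by
      have e0 : ∀ u ∈ A, adj G v u * r u = if G.Adj v u then 1 else 0 := fun u hu => by
        rw [(hmem u).1 hu, mul_one]
        rfl
      rw [Finset.sum_congr rfl e0]
      have e : G.neighborFinset v ∩ A = A.filter fun u => G.Adj v u := by
        ext u; simp [and_comm]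
      rw [e, Finset.card_filter]
      push_cast
      rfl
    have h2 : ∑ u ∈ Aᶜ, adj G v u * r u = -((G.neighborFinset v ∩ Aᶜ).card : ℤ) := by
      rw [Finset.sum_congr rfl fun u hu => by rw [(hmem' u).1 hu, mul_neg_one], Finset.sum_neg_distrib]
      have e : G.neighborFinset v ∩ Aᶜ = Aᶜ.filter fun u => G.Adj v u := by
        ext u; simp [and_comm]
      rw [e, Finset.card_filter]
      simp [adj]
    rw [h1, h2]; ring
  refine ⟨A, ?_, ?_, by exact_mod_cast hb', fun v => ⟨fun hv => ?_, fun hv => ?_⟩⟩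
  · rw [← Finset.card_pos]
    by_contra h
    have h0 : (A.card : ℤ) = 0 := by
      have : A.card = 0 := by omega
      exact_mod_cast this
    rw [h0] at hcard hb2
    linarith [hb2.1]
  · rw [← Finset.card_pos]
    by_contra h
    have h0 : (Aᶜ.card : ℤ) = 0 := by
      have : Aᶜ.card = 0 := by omega
      exact_mod_cast this
    rw [h0] at hcard hb2
    linarith [hb2.2]
  · have h := hint' v
    rw [(hmem v).1 hv, one_mul, hnb v] at h
    have : ((G.neighborFinset v ∩ Aᶜ).card : ℤ) ≤ ((G.neighborFinset v ∩ A).card : ℤ) := by linarith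
    exact_mod_cast this
  · have h := hint' v
    have hv' : r v = -1 := (hmem' v).1 (mem_compl.2 hv)
    rw [hv', hnb v] at h
    have : ((G.neighborFinset v ∩ A).card : ℤ) ≤ ((G.neighborFinset v ∩ Aᶜ).card : ℤ) := by linarith
    exact_mod_cast this

end H49.NB
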