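import Pool.Agent.H49.NB.Defs

/-!
# Flipping a set (1)

`spin_pm`, `spin_flip`: by cases. `W_compl`: both spins change sign. `W_congr`: the vertices `v ∈ Sᶜ` with `adj u v ≠ 0`, `u ∈ S`, are in `nbr G S`.
`cut_flip_set`: `cut A = ∑_{u ∈ A} ∑_{v ∉ A} adj u v`. One way: `4 cut A = ∑_{u, v} adj u v (1 - spin u spin v)` (ordered pairs, all `u v`; note that `cut` counts every cut edge once);
flipping `S` changes the sign of `spin u spin v` exactly for the pairs with one member in `S`, so `4 (cut (A ∆ S) - cut A) = 2 ∑_{(u,v): exactly one in S} adj u v spin u spin v = 4 W A S`.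
(`2 cut A = ∑_{u} ∑_v adj u v [exactly one in A]`, `[exactly one] = (1 - spin u spin v)/2`.)
`W_comp` follows from `cut_flip_set` and `A ∆ (Z ∆ S) = (A ∆ Z) ∆ S` (`symmDiff_assoc`).
-/

set_option autoImplicit false
set_option linter.unusedSectionVars false

namespace H49.NB

open Finset H97.Int
open scoped Classical symmDiff

variable {V : Type} [Fintype V] [DecidableEq V] (G : SimpleGraph V) [DecidableRel G.Adj]

lemma spin_pm (A : Finset V) (v : V) : spin A v = 1 ∨ spin A v = -1 := by
  unfold spin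
  split_ifs
  · exact Or.inl rfl
  · exact Or.inr rfl

lemma spin_mul_self (A : Finset V) (v : V) : spin A v * spin A v = 1 := by
  rcases spin_pm A v with h | h <;> rw [h] <;> norm_num

lemma spin_flip (A S : Finset V) (v : V) : spin (A ∆ S) v = if v ∈ S then - spin A v else spin A v := by
  unfold spin
  by_cases h1 : v ∈ A <;> by_cases h2 : v ∈ S <;> simp [Finset.mem_symmDiff, h1, h2]

lemma W_empty (A : Finset V) : W G A ∅ = 0 := by
  unfold W
  exact Finset.sum_empty

private lemma spin_compl (A : Finset V) (v : V) : spin Aᶜ v = - spin A v := by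
  unfold spin
  by_cases h1 : v ∈ A <;> simp [h1]

lemma W_compl (A S : Finset V) : W G Aᶜ S = W G A S := by
  unfold W
  refine Finset.sum_congr rfl fun u _ => Finset.sum_congr rfl fun v _ => ?_
  rw [spin_compl, spin_compl]
  ring

lemma W_congr {A A' S : Finset V} (h : ∀ u ∈ nbr G S, (u ∈ A ↔ u ∈ A')) : W G A S = W G A' S := by
  unfold W
  refine Finset.sum_congr rfl fun u hu => Finset.sum_congr rfl fun v _ => ?_
  by_cases hadj : G.Adj u v
  · have h1 : u ∈ nbr G S := subset_nbr G S hu
    have h2 : v ∈ nbr G S := (mem_nbr G).2 (Or.inr ⟨u, hu, hadj⟩)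
    have e1 : spin A u = spin A' u := by
      unfold spin
      by_cases h3 : u ∈ A
      · rw [if_pos h3, if_pos ((h u h1).1 h3)]
      · rw [if_neg h3, if_neg fun h4 => h3 ((h u h1).2 h4)]
    have e2 : spin A v = spin A' v := by
      unfold spin
      by_cases h3 : v ∈ A
      · rw [if_pos h3, if_pos ((h v h2).1 h3)]
      · rw [if_neg h3, if_neg fun h4 => h3 ((h v h2).2 h4)]
    rw [e1, e2]
  · have h0 : adj G u v = 0 := by
      unfold adj
      rw [if_neg hadj]
    rw [h0, zero_mul, zero_mul]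

private lemma sum_ind (S : Finset V) (f : V → ℤ) :
    ∑ u ∈ S, f u = ∑ u, (if u ∈ S then (1 : ℤ) else 0) * f u := by
  simp [ite_mul]

private lemma sum_ind_compl (S : Finset V) (f : V → ℤ) :
    ∑ u ∈ Sᶜ, f u = ∑ u, (1 - (if u ∈ S then (1 : ℤ) else 0)) * f u := by
  rw [sum_ind Sᶜ f]
  refine Finset.sum_congr rfl fun u _ => ?_
  by_cases h : u ∈ S <;> simp [h]

private lemma swap_sum (f : V → V → ℤ) : ∑ u, ∑ v, f u v = ∑ u, ∑ v, f v u := Finset.sum_comm

private lemma cut_all (A : Finset V) :
    4 * cut G A = ∑ u, ∑ v, adj G u v * (1 - spin A u * spin A v) := by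
  have h1 : 4 * cut G A = ∑ u, ∑ v, adj G u v * ((1 + spin A u) * (1 - spin A v)) := by
    unfold cut E
    rw [sum_ind A, Finset.mul_sum]
    refine Finset.sum_congr rfl fun u _ => ?_
    rw [sum_ind_compl A, Finset.mul_sum, Finset.mul_sum]
    refine Finset.sum_congr rfl fun v _ => ?_
    unfold spin
    by_cases h1 : u ∈ A <;> by_cases h2 : v ∈ A <;> simp [h1, h2]
    ring
  have h2 : ∑ u, ∑ v, adj G u v * (spin A u - spin A v) = 0 := by
    have h3 := swap_sum (fun u v => adj G u v * (spin A u - spin A v))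
    have h4 : ∑ u, ∑ v, adj G v u * (spin A v - spin A u) =
        - ∑ u, ∑ v, adj G u v * (spin A u - spin A v) := by
      rw [← Finset.sum_neg_distrib]
      refine Finset.sum_congr rfl fun u _ => ?_
      rw [← Finset.sum_neg_distrib]
      refine Finset.sum_congr rfl fun v _ => ?_
      rw [adj_symm G v u]
      ring
    rw [h4] at h3
    omega
  rw [h1]
  have h5 : ∑ u, ∑ v, adj G u v * ((1 + spin A u) * (1 - spin A v)) =
      ∑ u, ∑ v, adj G u v * (1 - spin A u * spin A v) +
        ∑ u, ∑ v, adj G u v * (spin A u - spin A v) := by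
    rw [← Finset.sum_add_distrib]
    refine Finset.sum_congr rfl fun u _ => ?_
    rw [← Finset.sum_add_distrib]
    refine Finset.sum_congr rfl fun v _ => ?_
    ring
  rw [h5, h2, add_zero]

private lemma W_all (A S : Finset V) :
    W G A S = ∑ u, ∑ v, (if u ∈ S then (1 : ℤ) else 0) * (1 - (if v ∈ S then (1 : ℤ) else 0)) *
      (adj G u v * (spin A u * spin A v)) := by
  unfold W
  rw [sum_ind S]
  refine Finset.sum_congr rfl fun u _ => ?_
  rw [sum_ind_compl S, Finset.mul_sum]
  refine Finset.sum_congr rfl fun v _ => ?_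
  ring

lemma cut_flip_set (A S : Finset V) : cut G (A ∆ S) = cut G A + W G A S := by
  have h1 := cut_all G (A ∆ S)
  have h2 := cut_all G A
  have h3 := W_all G A S
  have h4 : ∑ u, ∑ v, (if u ∈ S then (1 : ℤ) else 0) * (1 - (if v ∈ S then (1 : ℤ) else 0)) *
      (adj G u v * (spin A u * spin A v)) = ∑ u, ∑ v, (if v ∈ S then (1 : ℤ) else 0) *
        (1 - (if u ∈ S then (1 : ℤ) else 0)) * (adj G u v * (spin A u * spin A v)) := by
    rw [swap_sum]
    refine Finset.sum_congr rfl fun u _ => Finset.sum_congr rfl fun v _ => ?_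
    rw [adj_symm G v u]
    ring
  have h5 : ∑ u, ∑ v, adj G u v * (1 - spin (A ∆ S) u * spin (A ∆ S) v) =
      ∑ u, ∑ v, adj G u v * (1 - spin A u * spin A v) +
      2 * (∑ u, ∑ v, (if u ∈ S then (1 : ℤ) else 0) * (1 - (if v ∈ S then (1 : ℤ) else 0)) *
      (adj G u v * (spin A u * spin A v))) + 2 * (∑ u, ∑ v, (if v ∈ S then (1 : ℤ) else 0) *
        (1 - (if u ∈ S then (1 : ℤ) else 0)) * (adj G u v * (spin A u * spin A v))) := by
    rw [Finset.mul_sum, Finset.mul_sum, ← Finset.sum_add_distrib, ← Finset.sum_add_distrib]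
    refine Finset.sum_congr rfl fun u _ => ?_
    rw [Finset.mul_sum, Finset.mul_sum, ← Finset.sum_add_distrib, ← Finset.sum_add_distrib]
    refine Finset.sum_congr rfl fun v _ => ?_
    rw [spin_flip, spin_flip]
    by_cases h6 : u ∈ S <;> by_cases h7 : v ∈ S <;> simp only [h6, h7, if_true, if_false] <;> ring
  rw [h5, ← h4, ← h3, ← h2] at h1
  omega

lemma W_comp (A Z S : Finset V) : W G A (Z ∆ S) = W G A Z + W G (A ∆ Z) S := by
  have h1 := cut_flip_set G A (Z ∆ S)
  have h2 := cut_flip_set G (A ∆ Z) S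
  have h3 := cut_flip_set G A Z
  rw [← symmDiff_assoc] at h1
  omega

end H49.NB
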