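import Pool.Agent.H49.NB.RDefs
import Pool.Agent.H49.NB.Wa
import Pool.Agent.H49.NB.Wb

/-!
# Even degrees: exact bisections

If all degrees are even, single vertices can be used as gadgets and the final partition is a bisection (`||A| - |B|| ≤ 1`). `O` = a set of clean vertices at distance `> 8` from each other,
`H = del G O`. A neighbour `x` of `o ∈ O` has odd degree in `H`, so `W_H {x} ≥ 0` implies `W_H {x} ≥ 1`, and `x` is satisfied whatever the value of `o` is. `o` takes the value of the majority of
its neighbours; if there is no majority (probability `≥ 4^{-d}`) `o` is free.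
-/

set_option autoImplicit false
set_option linter.unusedSectionVars false

namespace H49.NB

open Finset H97.Int
open scoped Classical symmDiff

variable {V : Type} [Fintype V] [DecidableEq V] (G : SimpleGraph V) [DecidableRel G.Adj]

/-- single vertices far from each other -/
structure Gad1 (O : Finset V) : Prop where
  ind : ∀ o ∈ O, ∀ p ∈ O, ¬ G.Adj o p
  one : ∀ x, ∀ o ∈ O, ∀ p ∈ O, G.Adj x o → G.Adj x p → o = p

/-- sum of the spins of the neighbours -/
noncomputable def s1 (Y : Finset V) (o : V) : ℤ := ∑ x ∈ G.neighborFinset o, spin Y x

/-- the final spins -/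
noncomputable def rho1 (O Y : Finset V) (ε : V → ℤ) (v : V) : ℤ :=
  if v ∈ O then (if s1 G Y v = 0 then ε v else (s1 G Y v).sign) else spin Y v

/-- the sum of the forced final spins -/
noncomputable def Mz1 (O Y : Finset V) : ℤ := ∑ v, rho1 G O Y (fun _ => 0) v

/-- the free vertices of `O` -/
noncomputable def flx1 (O Y : Finset V) : Finset V := O.filter fun o => s1 G Y o = 0

/-- the branches at a vertex of `O` do not meet up to distance `R` -/
def Far1 (R : ℕ) (O : Finset V) : Prop :=
  ∀ o ∈ O, ∀ x ∈ G.neighborFinset o, ∀ y ∈ G.neighborFinset o, x ≠ y →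
    Disjoint (nb (del G O) R {x}) (nb (del G O) R {y})

end H49.NB
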