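import Pool.Agent.H49.NB.Defs

/-!
# Independent uniform spins

For `I ⊆ B` let `N I = ⋃_{x ∈ I} nb G R {x}`. `X (A ∆ N I) ∩ B = (X A ∩ B) ∆ I`: for `x ∈ I` the states `A ∆ N I` and `Aᶜ` agree on `nb G R {x}`, so `x ∈ X (A ∆ N I) ↔ x ∈ X Aᶜ ↔ x ∉ X A`;
for `x ∈ B \ I` the ball of `x` is disjoint from `N I`, so `A ∆ N I` and `A` agree on it. `A ↦ A ∆ N I` is an involution, so `#{A | X A ∩ B = Q} = #{A | X A ∩ B = Q ∆ I}`. With `I = Q ∆ Q'` all
the numbers `#{A | X A ∩ B = Q'}`, `Q' ⊆ B`, are equal; they add up to `2^n` and there are `2^|B|` of them (`Finset.card_eq_sum_card_fiberwise` with `B.powerset`).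
-/

set_option autoImplicit false
set_option linter.unusedSectionVars false

namespace H49.NB

open Finset H97.Int
open scoped Classical symmDiff

variable {V : Type} [Fintype V] [DecidableEq V] (G : SimpleGraph V) [DecidableRel G.Adj]

private lemma unif_key {R : ℕ} {X : Finset V → Finset V} (hX : LocOdd G R X) {B : Finset V}
    (hB : ∀ x ∈ B, ∀ y ∈ B, x ≠ y → Disjoint (nb G R {x}) (nb G R {y})) {I : Finset V} (hI : I ⊆ B)
    (A : Finset V) :
    X (A ∆ (I.biUnion fun x => nb G R {x})) ∩ B = (X A ∩ B) ∆ I := by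
  ext x
  by_cases hxB : x ∈ B
  · by_cases hxI : x ∈ I
    · have h1 : x ∈ X (A ∆ (I.biUnion fun x => nb G R {x})) ↔ x ∈ X Aᶜ := by
        refine hX.loc x _ _ fun u hu => ?_
        have h2 : u ∈ I.biUnion fun x => nb G R {x} := mem_biUnion.2 ⟨x, hxI, hu⟩
        simp [mem_symmDiff, h2]
      rw [hX.compl, mem_compl] at h1
      simp only [mem_inter, mem_symmDiff, hxB, and_true, hxI, not_true_eq_false, and_false,
        false_or, true_and]
      exact h1
    · have h1 : x ∈ X (A ∆ (I.biUnion fun x => nb G R {x})) ↔ x ∈ X A := by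
        refine hX.loc x _ _ fun u hu => ?_
        have h2 : u ∉ I.biUnion fun x => nb G R {x} := by
          intro h
          obtain ⟨y, hy, huy⟩ := mem_biUnion.1 h
          have hne : x ≠ y := by
            rintro rfl
            exact hxI hy
          exact disjoint_left.1 (hB x hxB y (hI hy) hne) hu huy
        simp [mem_symmDiff, h2]
      simp only [mem_inter, mem_symmDiff, hxB, and_true, hxI, not_false_eq_true, false_and, or_false]
      exact h1
  · have hxI : x ∉ I := fun h => hxB (hI h)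
    simp [mem_symmDiff, hxB, hxI]

private lemma unif_eq {R : ℕ} {X : Finset V → Finset V} (hX : LocOdd G R X) {B : Finset V}
    (hB : ∀ x ∈ B, ∀ y ∈ B, x ≠ y → Disjoint (nb G R {x}) (nb G R {y})) {Q : Finset V} (hQ : Q ⊆ B) :
    (univ.filter fun A : Finset V => X A ∩ B = Q).card =
      (univ.filter fun A : Finset V => X A ∩ B = ∅).card := by
  refine card_bij' (fun A _ => A ∆ (Q.biUnion fun x => nb G R {x}))
    (fun A _ => A ∆ (Q.biUnion fun x => nb G R {x})) ?_ ?_ ?_ ?_
  · intro A hA
    rw [mem_filter] at hA ⊢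
    refine ⟨mem_univ _, ?_⟩
    rw [unif_key G hX hB hQ, hA.2, symmDiff_self]
    rfl
  · intro A hA
    rw [mem_filter] at hA ⊢
    refine ⟨mem_univ _, ?_⟩
    rw [unif_key G hX hB hQ, hA.2]
    exact bot_symmDiff Q
  · intro A _
    exact symmDiff_symmDiff_cancel_right _ _
  · intro A _
    exact symmDiff_symmDiff_cancel_right _ _

theorem unif {R : ℕ} {X : Finset V → Finset V} (hX : LocOdd G R X) {B : Finset V}
    (hB : ∀ x ∈ B, ∀ y ∈ B, x ≠ y → Disjoint (nb G R {x}) (nb G R {y})) {Q : Finset V} (hQ : Q ⊆ B) :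
    2 ^ B.card * (univ.filter fun A : Finset V => X A ∩ B = Q).card = 2 ^ Fintype.card V := by
  have h1 : (univ : Finset (Finset V)).card =
      ∑ P ∈ B.powerset, (univ.filter fun A : Finset V => X A ∩ B = P).card :=
    card_eq_sum_card_fiberwise fun A _ => mem_coe.2 (mem_powerset.2 inter_subset_right)
  rw [sum_congr rfl fun P hP => unif_eq G hX hB (mem_powerset.1 hP), sum_const, card_powerset,
    smul_eq_mul, card_univ, Fintype.card_finset] at h1
  rw [unif_eq G hX hB hQ, h1]

end H49.NB
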