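import Pool.Agent.H49.NB.E1Defs
import Pool.Agent.H49.NB.Unif

/-!
# A single vertex gadget is free with positive probability

Compare `FlexProb.lean`. `B = G.neighborFinset o`, `|B| ≤ d` is even; `Q ⊆ B` with `2 |Q| = |B|`. If `X A ∩ B = Q` then `s1 G (X A) o = |Q| - (|B| - |Q|) = 0`. `unif` for `del G O`:
`2^|B| #{A | X A ∩ B = Q} = 2^n`, `2^|B| ≤ 4^d`.
-/

set_option autoImplicit false
set_option linter.unusedSectionVars false

namespace H49.NB

open Finset H97.Int
open scoped Classical symmDiff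

variable {V : Type} [Fintype V] [DecidableEq V] (G : SimpleGraph V) [DecidableRel G.Adj]

private lemma E1Flex_sum (S Y : Finset V) :
    ∑ x ∈ S, spin Y x = 2 * ((S.filter fun x => x ∈ Y).card : ℤ) - S.card := by
  have h1 : ∀ x ∈ S, spin Y x = 2 * (if x ∈ Y then (1 : ℤ) else 0) - 1 := by
    intro x _
    unfold spin
    split_ifs <;> norm_num
  rw [sum_congr rfl h1, sum_sub_distrib, ← mul_sum, sum_boole, sum_const, nsmul_eq_mul, mul_one]

theorem flex_prob1 {d R : ℕ} (hd : ∀ v, G.degree v ≤ d) (hdeg : ∀ v, Even (G.degree v)) {O : Finset V}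
    (hF : Far1 G R O) {X : Finset V → Finset V} (hX : LocOdd (del G O) R X) {o : V} (ho : o ∈ O) :
    2 ^ Fintype.card V ≤ 4 ^ d * (univ.filter fun A : Finset V => o ∈ flx1 G O (X A)).card := by
  obtain ⟨Q, hQ, hc⟩ := exists_subset_card_eq (Nat.div_le_self (G.neighborFinset o).card 2)
  set B := G.neighborFinset o with hB
  have hBd : B.card = G.degree o := rfl
  have hu := unif (del G O) hX (B := B) (fun x hx y hy hxy => hF o ho x hx y hy hxy) hQ
  have hBc : B.card ≤ 2 * d := by
    have h1 := hd o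
    omega
  have hsub : (univ.filter fun A : Finset V => X A ∩ B = Q) ⊆
      univ.filter fun A : Finset V => o ∈ flx1 G O (X A) := by
    intro A hA
    rw [mem_filter] at hA ⊢
    refine ⟨mem_univ _, ?_⟩
    unfold flx1
    rw [mem_filter]
    refine ⟨ho, ?_⟩
    unfold s1
    rw [← hB, E1Flex_sum]
    have h1 : B.filter (fun x => x ∈ X A) = Q := by
      rw [← hA.2]
      ext x
      rw [mem_filter, mem_inter, and_comm]
    rw [h1, hc]
    have h2 := hdeg o
    rw [← hBd] at h2
    obtain ⟨r, hr⟩ := h2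
    omega
  calc 2 ^ Fintype.card V = 2 ^ B.card * (univ.filter fun A : Finset V => X A ∩ B = Q).card := hu.symm
    _ ≤ 4 ^ d * (univ.filter fun A : Finset V => o ∈ flx1 G O (X A)).card := by
      refine Nat.mul_le_mul ?_ (card_le_card hsub)
      calc 2 ^ B.card ≤ 2 ^ (2 * d) := Nat.pow_le_pow_right (by norm_num) hBc
        _ = 4 ^ d := by rw [pow_mul]; norm_num

end H49.NB
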