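import Pool.Agent.H49.NB.E1Defs

/-!
# Existence of single vertex gadgets

Compare `GadEx.lean` (simpler here). `O ⊆ Q` maximal such that `p ∉ nb G 8 {o}` for different `o, p ∈ O`; `Q ⊆ nb G 8 O`, so `|Q| ≤ (d+1)^8 |O|`. `Gad1`: adjacent vertices of `O`, or two vertices of `O`
with a common neighbour, would be at distance `≤ 2`. Balls: `z ∈ nb (del G O) R {x} ∩ nb (del G O) R {y}`, `x ≠ y` neighbours of `o ∈ O`: `y ∈ nb (del G O) (2 R) {x} ⊆ nb (del G {o}) (2 R) {x}`,
against `Clean G L o`.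
-/

set_option autoImplicit false
set_option linter.unusedSectionVars false

namespace H49.NB

open Finset H97.Int
open scoped Classical symmDiff

variable {V : Type} [Fintype V] [DecidableEq V] (G : SimpleGraph V) [DecidableRel G.Adj]

private lemma E1Gad_refl (H : SimpleGraph V) [DecidableRel H.Adj] (r : ℕ) (x : V) : x ∈ nb H r {x} :=
  subset_nb H r _ (Finset.mem_singleton_self x)

private lemma E1Gad_one (H : SimpleGraph V) [DecidableRel H.Adj] {x y : V} (h : H.Adj x y) :
    y ∈ nb H 1 {x} := by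
  simp only [nb, mem_nbr]
  exact Or.inr ⟨x, Finset.mem_singleton_self x, h⟩

private lemma E1Gad_trans (H : SimpleGraph V) [DecidableRel H.Adj] {r s : ℕ} {x y z : V}
    (h1 : y ∈ nb H r {x}) (h2 : z ∈ nb H s {y}) : z ∈ nb H (r + s) {x} := by
  rw [Nat.add_comm, nb_add]
  exact nb_mono H (by simpa using h1) s h2

private lemma E1Gad_le (H K : SimpleGraph V) [DecidableRel H.Adj] [DecidableRel K.Adj]
    (h : ∀ u v, H.Adj u v → K.Adj u v) (r : ℕ) (U : Finset V) : nb H r U ⊆ nb K r U := by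
  induction r with
  | zero => exact subset_rfl
  | succ r ih =>
    intro x hx
    simp only [nb, mem_nbr] at hx ⊢
    rcases hx with hx | ⟨u, hu, hux⟩
    · exact Or.inl (ih hx)
    · exact Or.inr ⟨u, ih hu, h _ _ hux⟩

/-- the maximal set of bases -/
private lemma E1Gad_max {d : ℕ} (hd : ∀ v, G.degree v ≤ d) (Q : Finset V) :
    ∃ J ⊆ Q, (∀ o ∈ J, ∀ p ∈ J, p ∈ nb G 8 {o} → p = o) ∧ Q.card ≤ (d + 1) ^ 8 * J.card := by
  obtain ⟨J, hJ, hmax⟩ := Finset.exists_max_image
    (Q.powerset.filter fun J => ∀ o ∈ J, ∀ p ∈ J, p ∈ nb G 8 {o} → p = o) Finset.card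
    ⟨∅, by simp⟩
  rw [Finset.mem_filter, Finset.mem_powerset] at hJ
  refine ⟨J, hJ.1, hJ.2, ?_⟩
  have hcov : Q ⊆ nb G 8 J := by
    intro q hq
    by_contra hcon
    have hfar : ∀ o ∈ J, q ∉ nb G 8 {o} := by
      intro o ho h
      exact hcon (nb_mono G (by simpa using ho) 8 h)
    have hqJ : q ∉ J := fun h => hfar q h (E1Gad_refl G 8 q)
    have h1 : insert q J ∈ Q.powerset.filter fun J => ∀ o ∈ J, ∀ p ∈ J, p ∈ nb G 8 {o} → p = o := by
      rw [Finset.mem_filter, Finset.mem_powerset]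
      refine ⟨Finset.insert_subset hq hJ.1, ?_⟩
      intro o ho p hp hop
      rw [Finset.mem_insert] at ho hp
      rcases ho with rfl | ho
      · rcases hp with rfl | hp
        · rfl
        · exact absurd (mem_nb_singleton_symm G hop) (hfar p hp)
      · rcases hp with rfl | hp
        · exact absurd hop (hfar o ho)
        · exact hJ.2 o ho p hp hop
    have h2 := hmax _ h1
    rw [Finset.card_insert_of_notMem hqJ] at h2
    omega
  exact (Finset.card_le_card hcov).trans (card_nb_le G hd 8 J)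

theorem exists_gad1 {d L R : ℕ} (hd : ∀ v, G.degree v ≤ d) (hL : 2 * R + 3 ≤ L) {Q : Finset V}
    (hQ : ∀ v ∈ Q, (∃ u, G.Adj v u) ∧ ∀ u ∈ nbr G {v}, Clean G L u) :
    ∃ O : Finset V, Gad1 G O ∧ Q.card ≤ (d + 1) ^ 8 * O.card ∧ Far1 G R O := by
  obtain ⟨O, hOQ, hsep, hcard⟩ := E1Gad_max G hd Q
  refine ⟨O, ⟨?_, ?_⟩, hcard, ?_⟩
  · intro o ho p hp hop
    have h1 := hsep o ho p hp (nb_mono_left G (by norm_num) _ (E1Gad_one G hop))
    exact hop.ne h1.symm
  · intro x o ho p hp hxo hxp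
    have h1 : p ∈ nb G (1 + 1) {o} := E1Gad_trans G (E1Gad_one G hxo.symm) (E1Gad_one G hxp)
    exact (hsep o ho p hp (nb_mono_left G (by norm_num) _ h1)).symm
  · intro o ho x hx y hy hne
    rw [SimpleGraph.mem_neighborFinset] at hx hy
    rw [Finset.disjoint_left]
    intro z hzx hzy
    have hyx : y ∈ nb (del G O) (R + R) {x} :=
      E1Gad_trans _ hzx (mem_nb_singleton_symm _ hzy)
    have h2 : y ∈ nb (del G {o}) (R + R) {x} := by
      refine E1Gad_le (del G O) (del G {o}) ?_ (R + R) {x} hyx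
      intro u v huv
      refine ⟨huv.1, ?_, ?_⟩
      · rw [Finset.mem_singleton]
        rintro rfl
        exact huv.2.1 ho
      · rw [Finset.mem_singleton]
        rintro rfl
        exact huv.2.2 ho
    have hcl : Clean G L o := (hQ o (hOQ ho)).2 o (by rw [mem_nbr]; exact Or.inl (mem_singleton_self o))
    exact hcl x y hx hy hne (nb_mono_left (del G {o}) (by omega) _ h2)

end H49.NB
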