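import Pool.Agent.H49.NB.RhoBas

/-!
# The final spins are local and odd

`Tied G O Y x` depends on `Y ∩ nb G 1 {x}` (`W_congr` for `del G O`, `nbr (del G O) {x} ⊆ nbr G {x}`). `sn, tn` at `o`: on `nb G 2 {o}`. `Strong (π o)`: on `nb G 3 {o}` (`o` and `π o` are adjacent, `nb_add`).
`rho v`: `v ∈ O`: `nb G 3 {v}`; `v` tied: `root v` is adjacent to `v`: `nb G 4 {v}`.
Complements: `W_compl`, so `Tied` and `tn` are unchanged and `sn`, `spin` change sign; `Int.sign_neg`.
`Mz_lip`: if `rho Y v ≠ rho Y' v` then `nb G 4 {v}` meets `Y ∆ Y'`, so `v ∈ nb G 4 (Y ∆ Y')` (`mem_nb_iff`, `mem_nb_singleton_symm`), `card_nb_le`; `|rho| ≤ 1`. `flx_lip`: the same with radius 3.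
-/

set_option autoImplicit false
set_option linter.unusedSectionVars false

namespace H49.NB

open Finset H97.Int
open scoped Classical symmDiff

variable {V : Type} [Fintype V] [DecidableEq V] (G : SimpleGraph V) [DecidableRel G.Adj]

lemma nb_del (O : Finset V) (r : ℕ) (S : Finset V) : nb (del G O) r S ⊆ nb G r S := by
  induction r with
  | zero => exact subset_rfl
  | succ r ih =>
    intro x hx
    simp only [nb] at hx ⊢
    rw [mem_nbr] at hx ⊢
    rcases hx with hx | ⟨u, hu, hux⟩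
    · exact Or.inl (ih hx)
    · exact Or.inr ⟨u, ih hu, hux.1⟩

private lemma nb_step {r : ℕ} {u v : V} (h : G.Adj u v) : nb G r {v} ⊆ nb G (r + 1) {u} := by
  rw [nb_add]
  refine nb_mono G ?_ r
  rw [Finset.singleton_subset_iff]
  simp only [nb]
  exact (mem_nbr G).2 (Or.inr ⟨u, Finset.mem_singleton_self u, h⟩)

private lemma tied_local {O : Finset V} {Y Y' : Finset V} {x : V}
    (h : ∀ u ∈ nb G 1 {x}, (u ∈ Y ↔ u ∈ Y')) : Tied G O Y x ↔ Tied G O Y' x := by
  have h1 : W (del G O) Y {x} = W (del G O) Y' {x} :=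
    W_congr (del G O) fun u hu => h u (nb_del G O 1 {x} hu)
  unfold Tied
  rw [h1]

private lemma bd_filter_eq {O : Finset V} {Y Y' : Finset V} {o : V}
    (h : ∀ u ∈ nb G 2 {o}, (u ∈ Y ↔ u ∈ Y')) {x : V} (hx : x ∈ bd G O o) :
    Tied G O Y x ↔ Tied G O Y' x :=
  tied_local G fun u hu => h u (nb_step G ((mem_bd G).1 hx).1 hu)

private lemma tn_local {O : Finset V} {Y Y' : Finset V} {o : V}
    (h : ∀ u ∈ nb G 2 {o}, (u ∈ Y ↔ u ∈ Y')) : tn G O Y o = tn G O Y' o := by
  unfold tn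
  rw [Finset.filter_congr fun x hx => bd_filter_eq G h hx]

private lemma sn_local {O : Finset V} {Y Y' : Finset V} {o : V}
    (h : ∀ u ∈ nb G 2 {o}, (u ∈ Y ↔ u ∈ Y')) : sn G O Y o = sn G O Y' o := by
  unfold sn
  rw [Finset.filter_congr fun x hx => not_congr (bd_filter_eq G h hx)]
  refine Finset.sum_congr rfl fun x hx => spin_congr (h x ?_)
  have hx' := (mem_bd G).1 (Finset.mem_filter.1 hx).1
  have h1 : x ∈ nb G (0 + 1) {o} := nb_step G hx'.1 (by simp [nb])
  exact nb_mono_left G (by norm_num) _ h1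

lemma strong_local {O : Finset V} {Y Y' : Finset V} {o : V}
    (h : ∀ u ∈ nb G 2 {o}, (u ∈ Y ↔ u ∈ Y')) : Strong G O Y o ↔ Strong G O Y' o := by
  unfold Strong
  rw [tn_local G h, sn_local G h]

private lemma sub2 {Y Y' : Finset V} {o : V} (h : ∀ u ∈ nb G 3 {o}, (u ∈ Y ↔ u ∈ Y')) :
    ∀ u ∈ nb G 2 {o}, (u ∈ Y ↔ u ∈ Y') :=
  fun u hu => h u (nb_mono_left G (by norm_num) _ hu)

private lemma sub2' {O : Finset V} {π : V → V} (hG : Gad G O π) {Y Y' : Finset V} {o : V} (ho : o ∈ O)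
    (h : ∀ u ∈ nb G 3 {o}, (u ∈ Y ↔ u ∈ Y')) :
    ∀ u ∈ nb G 2 {π o}, (u ∈ Y ↔ u ∈ Y') :=
  fun u hu => h u (nb_step G (hG.adj o ho) hu)

lemma flx_local {O : Finset V} {π : V → V} (hG : Gad G O π) {Y Y' : Finset V} {o : V}
    (h : ∀ u ∈ nb G 3 {o}, (u ∈ Y ↔ u ∈ Y')) : o ∈ flx G π O Y ↔ o ∈ flx G π O Y' := by
  unfold flx
  rw [Finset.mem_filter, Finset.mem_filter]
  refine and_congr_right fun ho => ?_
  rw [strong_local G (sub2 G h), strong_local G (sub2' G hG ho h)]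

private lemma val_local {O : Finset V} {π : V → V} (hG : Gad G O π) {Y Y' : Finset V} {ε : V → ℤ} {o : V}
    (ho : o ∈ O) (h : ∀ u ∈ nb G 3 {o}, (u ∈ Y ↔ u ∈ Y')) : val G π O Y ε o = val G π O Y' ε o := by
  unfold val
  simp only [strong_local G (sub2 G h), strong_local G (sub2' G hG ho h), sn_local G (sub2 G h),
    sn_local G (sub2' G hG ho h)]

lemma rho_local {O : Finset V} {π : V → V} (hG : Gad G O π) {Y Y' : Finset V} {ε : V → ℤ} {v : V}
    (h : ∀ u ∈ nb G 4 {v}, (u ∈ Y ↔ u ∈ Y')) : rho G π O Y ε v = rho G π O Y' ε v := by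
  have h3 : ∀ u ∈ nb G 3 {v}, (u ∈ Y ↔ u ∈ Y') := fun u hu => h u (nb_mono_left G (by norm_num) _ hu)
  have h1 : ∀ u ∈ nb G 1 {v}, (u ∈ Y ↔ u ∈ Y') := fun u hu => h u (nb_mono_left G (by norm_num) _ hu)
  unfold rho
  by_cases hv : v ∈ O
  · rw [if_pos hv, if_pos hv]
    exact val_local G hG hv h3
  · rw [if_neg hv, if_neg hv]
    by_cases ht : Tied G O Y v
    · rw [if_pos ht, if_pos ((tied_local G h1).1 ht)]
      have hr := root_spec G ht.2.1
      exact val_local G hG hr.1 fun u hu => h u (nb_step G hr.2 hu)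
    · rw [if_neg ht, if_neg fun h' => ht ((tied_local G h1).2 h')]
      exact spin_congr (h v (subset_nb G 4 _ (Finset.mem_singleton_self v)))

private lemma tied_compl {O : Finset V} {Y : Finset V} {x : V} : Tied G O Yᶜ x ↔ Tied G O Y x := by
  unfold Tied
  rw [W_compl]

private lemma tn_compl {O : Finset V} {Y : Finset V} {o : V} : tn G O Yᶜ o = tn G O Y o := by
  unfold tn
  rw [Finset.filter_congr fun x _ => tied_compl G]

private lemma sn_compl {O : Finset V} {Y : Finset V} {o : V} : sn G O Yᶜ o = - sn G O Y o := by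
  unfold sn
  rw [Finset.filter_congr fun x _ => not_congr (tied_compl G), ← Finset.sum_neg_distrib]
  exact Finset.sum_congr rfl fun x _ => spin_compl Y x

lemma strong_compl {O : Finset V} {Y : Finset V} {o : V} : Strong G O Yᶜ o ↔ Strong G O Y o := by
  unfold Strong
  rw [tn_compl, sn_compl, abs_neg]

private lemma val_compl (π : V → V) (O Y : Finset V) (o : V) :
    val G π O Yᶜ (fun _ => 0) o = - val G π O Y (fun _ => 0) o := by
  unfold val
  simp only [strong_compl, sn_compl, Int.sign_neg]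
  split_ifs <;> simp

lemma rho_compl (π : V → V) (O Y : Finset V) (v : V) :
    rho G π O Yᶜ (fun _ => 0) v = - rho G π O Y (fun _ => 0) v := by
  unfold rho
  simp only [tied_compl, val_compl, spin_compl]
  split_ifs <;> rfl

private lemma abs_sign_le (a : ℤ) : |a.sign| ≤ 1 := by
  rcases lt_trichotomy a 0 with h | h | h
  · rw [Int.sign_eq_neg_one_of_neg h]; norm_num
  · rw [h]; norm_num
  · rw [Int.sign_eq_one_of_pos h]; norm_num

private lemma abs_val_le (π : V → V) (O Y : Finset V) (v : V) : |val G π O Y (fun _ => 0) v| ≤ 1 := by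
  unfold val
  split_ifs
  · exact abs_sign_le _
  · exact abs_sign_le _
  · norm_num

lemma abs_rho_le (π : V → V) (O Y : Finset V) (v : V) : |rho G π O Y (fun _ => 0) v| ≤ 1 := by
  unfold rho
  split_ifs
  · exact abs_val_le G π O Y v
  · exact abs_val_le G π O Y _
  · rcases spin_pm Y v with h | h <;> rw [h] <;> norm_num

private lemma mem_nb_symmDiff {r : ℕ} {Y Y' : Finset V} {v : V} (h : v ∉ nb G r (Y ∆ Y')) :
    ∀ u ∈ nb G r {v}, (u ∈ Y ↔ u ∈ Y') := by
  intro u hu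
  by_contra hne
  refine h ((mem_nb_iff G).2 ⟨u, ?_, mem_nb_singleton_symm G hu⟩)
  rw [Finset.mem_symmDiff]
  tauto

theorem Mz_lip {d : ℕ} (hd : ∀ v, G.degree v ≤ d) {O : Finset V} {π : V → V} (hG : Gad G O π) (Y Y' : Finset V) :
    |Mz G π O Y - Mz G π O Y'| ≤ 2 * (((d : ℤ) + 1) ^ 4 * (Y ∆ Y').card) := by
  unfold Mz
  rw [← Finset.sum_sub_distrib]
  have h1 : ∀ v, |rho G π O Y (fun _ => 0) v - rho G π O Y' (fun _ => 0) v| ≤
      if v ∈ nb G 4 (Y ∆ Y') then (2 : ℤ) else 0 := by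
    intro v
    by_cases hv : v ∈ nb G 4 (Y ∆ Y')
    · rw [if_pos hv]
      have h2 := abs_rho_le G π O Y v
      have h3 := abs_rho_le G π O Y' v
      have h4 := abs_sub (rho G π O Y (fun _ => 0) v) (rho G π O Y' (fun _ => 0) v)
      linarith
    · rw [if_neg hv, rho_local G hG (mem_nb_symmDiff G hv), sub_self, abs_zero]
  calc |∑ v, (rho G π O Y (fun _ => 0) v - rho G π O Y' (fun _ => 0) v)|
      ≤ ∑ v, |rho G π O Y (fun _ => 0) v - rho G π O Y' (fun _ => 0) v| :=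
        Finset.abs_sum_le_sum_abs _ _
    _ ≤ ∑ v, (if v ∈ nb G 4 (Y ∆ Y') then (2 : ℤ) else 0) := Finset.sum_le_sum fun v _ => h1 v
    _ = 2 * ((nb G 4 (Y ∆ Y')).card : ℤ) := by
        rw [← Finset.sum_filter, Finset.sum_const, nsmul_eq_mul, mul_comm]
        congr 3
        ext v
        simp
    _ ≤ 2 * (((d : ℤ) + 1) ^ 4 * (Y ∆ Y').card) := by
        have h5 := card_nb_le G hd 4 (Y ∆ Y')
        have h6 : ((nb G 4 (Y ∆ Y')).card : ℤ) ≤ ((d : ℤ) + 1) ^ 4 * (Y ∆ Y').card := by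
          exact_mod_cast h5
        linarith

theorem flx_lip {d : ℕ} (hd : ∀ v, G.degree v ≤ d) {O : Finset V} {π : V → V} (hG : Gad G O π) (Y Y' : Finset V) :
    ((flx G π O Y).card : ℤ) ≤ (flx G π O Y').card + ((d : ℤ) + 1) ^ 3 * (Y ∆ Y').card := by
  have hsub : flx G π O Y ⊆ flx G π O Y' ∪ nb G 3 (Y ∆ Y') := by
    intro v hv
    rw [Finset.mem_union]
    by_cases h : v ∈ nb G 3 (Y ∆ Y')
    · exact Or.inr h
    · exact Or.inl ((flx_local G hG (mem_nb_symmDiff G h)).1 hv)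
  have h1 : (flx G π O Y).card ≤ (flx G π O Y').card + (nb G 3 (Y ∆ Y')).card :=
    (Finset.card_le_card hsub).trans (Finset.card_union_le _ _)
  have h2 := card_nb_le G hd 3 (Y ∆ Y')
  have h3 : (flx G π O Y).card ≤ (flx G π O Y').card + (d + 1) ^ 3 * (Y ∆ Y').card := h1.trans (by linarith)
  exact_mod_cast h3

end H49.NB
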