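import Pool.Agent.H49.NB.E1Defs
import Pool.Agent.H49.NB.RhoLoc

/-!
# Locality, oddness, Lipschitz bounds (even degrees)

Everything depends on `nb G 1 {v}`. Compare `RhoLoc.lean` (`rho_local`, `rho_compl`, `abs_rho_le`, `Mz_lip`, `flx_lip`).
-/

set_option autoImplicit false
set_option linter.unusedSectionVars false

namespace H49.NB

open Finset H97.Int
open scoped Classical symmDiff

variable {V : Type} [Fintype V] [DecidableEq V] (G : SimpleGraph V) [DecidableRel G.Adj]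

private lemma e1_mem {v x : V} (h : G.Adj v x) : x ∈ nb G 1 {v} := by
  change x ∈ nb G (0 + 1) {v}
  simp only [nb]
  exact (mem_nbr G).2 (Or.inr ⟨v, Finset.mem_singleton_self v, h⟩)

private lemma e1_s1_local {Y Y' : Finset V} {o : V}
    (h : ∀ u ∈ nb G 1 {o}, (u ∈ Y ↔ u ∈ Y')) : s1 G Y o = s1 G Y' o := by
  unfold s1
  exact Finset.sum_congr rfl fun x hx =>
    spin_congr (h x (e1_mem G ((SimpleGraph.mem_neighborFinset G o x).1 hx)))

private lemma e1_s1_compl (Y : Finset V) (o : V) : s1 G Yᶜ o = - s1 G Y o := by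
  unfold s1
  rw [← Finset.sum_neg_distrib]
  exact Finset.sum_congr rfl fun x _ => spin_compl Y x

lemma flx1_local {O : Finset V} {Y Y' : Finset V} {o : V}
    (h : ∀ u ∈ nb G 1 {o}, (u ∈ Y ↔ u ∈ Y')) : o ∈ flx1 G O Y ↔ o ∈ flx1 G O Y' := by
  unfold flx1
  rw [Finset.mem_filter, Finset.mem_filter, e1_s1_local G h]

lemma rho1_local {O : Finset V} {Y Y' : Finset V} {ε : V → ℤ} {v : V}
    (h : ∀ u ∈ nb G 1 {v}, (u ∈ Y ↔ u ∈ Y')) : rho1 G O Y ε v = rho1 G O Y' ε v := by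
  unfold rho1
  rw [e1_s1_local G h, spin_congr (h v (subset_nb G 1 _ (Finset.mem_singleton_self v)))]

lemma rho1_compl (O Y : Finset V) (v : V) :
    rho1 G O Yᶜ (fun _ => 0) v = - rho1 G O Y (fun _ => 0) v := by
  unfold rho1
  simp only [e1_s1_compl, spin_compl, Int.sign_neg, neg_eq_zero]
  split_ifs <;> simp

private lemma e1_sign_le (a : ℤ) : |a.sign| ≤ 1 := by
  rcases lt_trichotomy a 0 with h | h | h
  · rw [Int.sign_eq_neg_one_of_neg h]; norm_num
  · rw [h]; norm_num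
  · rw [Int.sign_eq_one_of_pos h]; norm_num

lemma abs_rho1_le (O Y : Finset V) (v : V) : |rho1 G O Y (fun _ => 0) v| ≤ 1 := by
  unfold rho1
  split_ifs
  · norm_num
  · exact e1_sign_le _
  · rcases spin_pm Y v with h | h <;> rw [h] <;> norm_num

private lemma e1_symmDiff {r : ℕ} (hr : 1 ≤ r) {Y Y' : Finset V} {v : V} (h : v ∉ nb G r (Y ∆ Y')) :
    ∀ u ∈ nb G 1 {v}, (u ∈ Y ↔ u ∈ Y') := by
  intro u hu
  by_contra hne
  have hu' : u ∈ nb G r {v} := nb_mono_left G hr _ hu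
  refine h ((mem_nb_iff G).2 ⟨u, ?_, mem_nb_singleton_symm G hu'⟩)
  rw [Finset.mem_symmDiff]
  tauto

theorem Mz1_lip {d : ℕ} (hd : ∀ v, G.degree v ≤ d) (O Y Y' : Finset V) :
    |Mz1 G O Y - Mz1 G O Y'| ≤ 2 * (((d : ℤ) + 1) ^ 4 * (Y ∆ Y').card) := by
  unfold Mz1
  rw [← Finset.sum_sub_distrib]
  have h1 : ∀ v, |rho1 G O Y (fun _ => 0) v - rho1 G O Y' (fun _ => 0) v| ≤
      if v ∈ nb G 4 (Y ∆ Y') then (2 : ℤ) else 0 := by
    intro v
    by_cases hv : v ∈ nb G 4 (Y ∆ Y')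
    · rw [if_pos hv]
      have h2 := abs_rho1_le G O Y v
      have h3 := abs_rho1_le G O Y' v
      have h4 := abs_sub (rho1 G O Y (fun _ => 0) v) (rho1 G O Y' (fun _ => 0) v)
      linarith
    · rw [if_neg hv, rho1_local G (e1_symmDiff G (by norm_num) hv), sub_self, abs_zero]
  calc |∑ v, (rho1 G O Y (fun _ => 0) v - rho1 G O Y' (fun _ => 0) v)|
      ≤ ∑ v, |rho1 G O Y (fun _ => 0) v - rho1 G O Y' (fun _ => 0) v| :=
        Finset.abs_sum_le_sum_abs _ _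
    _ ≤ ∑ v, (if v ∈ nb G 4 (Y ∆ Y') then (2 : ℤ) else 0) := Finset.sum_le_sum fun v _ => h1 v
    _ = 2 * ((nb G 4 (Y ∆ Y')).card : ℤ) := by
        rw [← Finset.sum_filter, Finset.sum_const, nsmul_eq_mul, mul_comm]
        congr 3
        ext v
        simp
    _ ≤ 2 * (((d : ℤ) + 1) ^ 4 * (Y ∆ Y').card) := by
        have h5 := card_nb_le G hd 4 (Y ∆ Y')
        have h6 : ((nb G 4 (Y ∆ Y')).card : ℤ) ≤ ((d : ℤ) + 1) ^ 4 * (Y ∆ Y').card := by
          exact_mod_cast h5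
        linarith

theorem flx1_lip {d : ℕ} (hd : ∀ v, G.degree v ≤ d) (O Y Y' : Finset V) :
    ((flx1 G O Y).card : ℤ) ≤ (flx1 G O Y').card + ((d : ℤ) + 1) ^ 3 * (Y ∆ Y').card := by
  have hsub : flx1 G O Y ⊆ flx1 G O Y' ∪ nb G 3 (Y ∆ Y') := by
    intro v hv
    rw [Finset.mem_union]
    by_cases h : v ∈ nb G 3 (Y ∆ Y')
    · exact Or.inr h
    · exact Or.inl ((flx1_local G (e1_symmDiff G (by norm_num) h)).1 hv)
  have h1 : (flx1 G O Y).card ≤ (flx1 G O Y').card + (nb G 3 (Y ∆ Y')).card :=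
    (Finset.card_le_card hsub).trans (Finset.card_union_le _ _)
  have h2 := card_nb_le G hd 3 (Y ∆ Y')
  have h3 : (flx1 G O Y).card ≤ (flx1 G O Y').card + (d + 1) ^ 3 * (Y ∆ Y').card := h1.trans (by linarith)
  exact_mod_cast h3

end H49.NB
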