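import Pool.Agent.H49.NB.Wa
import Pool.Agent.H49.NB.Wb

/-!
# Gadgets: basic facts

`root`: `Exists.choose_spec`. `root_eq`: `Gad.one`. `tied_iff`/`W_del`: `W_single` for `del G O`; for `x ∉ O` `adj (del G O) x u = adj G x u` if `u ∉ O`, and `0` if `u ∈ O`.
`sum_adj`: split `∑ u` into `u ∉ O` and `u ∈ O`. `sum_out`: for `v ∉ O` with a neighbour `o ∈ O` the only neighbour in `O` is `o`. `val_pm`: `Strong` implies `|sn| ≥ 2` (`tn ≥ 0`), so
`sign = ±1`. `bd_card`: `bd G O o ⊆ (G.neighborFinset o).erase (π o)`.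
-/

set_option autoImplicit false
set_option linter.unusedSectionVars false

namespace H49.NB

open Finset H97.Int
open scoped Classical symmDiff

variable {V : Type} [Fintype V] [DecidableEq V] (G : SimpleGraph V) [DecidableRel G.Adj]

lemma root_spec {O : Finset V} {x : V} (h : ∃ o ∈ O, G.Adj x o) : root G O x ∈ O ∧ G.Adj x (root G O x) := by
  unfold root
  rw [dif_pos h]
  exact h.choose_spec

lemma root_eq {O : Finset V} {π : V → V} (hG : Gad G O π) {x o : V} (hx : x ∉ O) (ho : o ∈ O) (h : G.Adj x o) :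
    root G O x = o := by
  have h1 := root_spec G (O := O) (x := x) ⟨o, ho, h⟩
  exact hG.one x hx _ h1.1 _ ho h1.2 h

lemma mem_bd {O : Finset V} {o x : V} : x ∈ bd G O o ↔ G.Adj o x ∧ x ∉ O := by
  unfold bd
  rw [Finset.mem_filter, SimpleGraph.mem_neighborFinset]

/-- the field in `del G O` at a vertex outside `O` -/
lemma W_del {O : Finset V} (Y : Finset V) {x : V} (hx : x ∉ O) :
    W (del G O) Y {x} = spin Y x * ∑ u ∈ univ.filter (fun u => u ∉ O), adj G x u * spin Y u := by
  rw [W_single]
  congr 1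
  rw [Finset.sum_filter]
  refine Finset.sum_congr rfl fun u _ => ?_
  by_cases hu : u ∈ O
  · rw [if_neg (by simpa using hu)]
    have h0 : ¬ (del G O).Adj x u := fun h => h.2.2 hu
    unfold adj
    rw [if_neg h0, zero_mul]
  · rw [if_pos hu]
    unfold adj
    by_cases h : G.Adj x u
    · have h1 : (del G O).Adj x u := ⟨h, hx, hu⟩
      rw [if_pos h1, if_pos h]
    · have h1 : ¬ (del G O).Adj x u := fun h' => h h'.1
      rw [if_neg h1, if_neg h]

/-- a vertex outside `O` without neighbours in `O` -/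
lemma sum_far {O : Finset V} {x : V} (h : ∀ o ∈ O, ¬ G.Adj x o) (f : V → ℤ) :
    ∑ u, adj G x u * f u = ∑ u ∈ univ.filter (fun u => u ∉ O), adj G x u * f u := by
  rw [Finset.sum_filter]
  refine Finset.sum_congr rfl fun u _ => ?_
  by_cases hu : u ∈ O
  · rw [if_neg (by simpa using hu)]
    unfold adj
    rw [if_neg (h u hu), zero_mul]
  · rw [if_pos hu]

/-- a vertex outside `O` with a neighbour in `O` -/
lemma sum_near {O : Finset V} {π : V → V} (hG : Gad G O π) {x o : V} (hx : x ∉ O) (ho : o ∈ O) (h : G.Adj x o)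
    (f : V → ℤ) :
    ∑ u, adj G x u * f u = ∑ u ∈ univ.filter (fun u => u ∉ O), adj G x u * f u + f o := by
  have key : ∀ u, adj G x u * f u = (if u ∉ O then adj G x u * f u else 0) + (if u = o then f o else 0) := by
    intro u
    by_cases hu : u ∈ O
    · rw [if_neg (by simpa using hu)]
      by_cases huo : u = o
      · rw [if_pos huo, huo]
        unfold adj
        rw [if_pos h, one_mul, zero_add]
      · rw [if_neg huo]
        have h0 : ¬ G.Adj x u := fun h' => huo (hG.one x hx _ hu _ ho h' h)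
        unfold adj
        rw [if_neg h0, zero_mul, zero_add]
    · have huo : u ≠ o := fun h' => hu (h' ▸ ho)
      rw [if_pos hu, if_neg huo, add_zero]
  rw [Finset.sum_congr rfl fun u _ => key u, Finset.sum_add_distrib, Finset.sum_filter,
    Finset.sum_ite_eq' Finset.univ o (fun _ => f o), if_pos (Finset.mem_univ o)]

/-- a vertex of `O` -/
lemma sum_in {O : Finset V} {π : V → V} (hG : Gad G O π) {o : V} (ho : o ∈ O) (f : V → ℤ) :
    ∑ u, adj G o u * f u = ∑ u ∈ bd G O o, f u + f (π o) := by
  have key : ∀ u, adj G o u * f u = (if u ∈ bd G O o then f u else 0) + (if u = π o then f (π o) else 0) := by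
    intro u
    by_cases ha : G.Adj o u
    · by_cases hu : u ∈ O
      · have hup : u = π o := hG.uniq o ho u hu ha
        have hb : u ∉ bd G O o := fun h' => ((mem_bd G).1 h').2 hu
        rw [if_neg hb, if_pos hup, zero_add, ← hup]
        unfold adj
        rw [if_pos ha, one_mul]
      · have hb : u ∈ bd G O o := (mem_bd G).2 ⟨ha, hu⟩
        have hup : u ≠ π o := fun h' => hu (h' ▸ hG.mem o ho)
        rw [if_pos hb, if_neg hup, add_zero]
        unfold adj
        rw [if_pos ha, one_mul]
    · have hb : u ∉ bd G O o := fun h' => ha ((mem_bd G).1 h').1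
      have hup : u ≠ π o := fun h' => ha (h' ▸ hG.adj o ho)
      rw [if_neg hb, if_neg hup]
      unfold adj
      rw [if_neg ha]
      ring
  rw [Finset.sum_congr rfl fun u _ => key u, Finset.sum_add_distrib,
    Finset.sum_ite_eq' Finset.univ (π o) (fun _ => f (π o)), if_pos (Finset.mem_univ (π o)),
    ← Finset.sum_filter]
  congr 1
  refine Finset.sum_congr ?_ fun _ _ => rfl
  ext u
  simp

lemma bd_card {d : ℕ} (hd : ∀ v, G.degree v ≤ d) {O : Finset V} {π : V → V} (hG : Gad G O π) {o : V}
    (ho : o ∈ O) : (bd G O o).card + 1 ≤ d := by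
  have hsub : bd G O o ⊆ (G.neighborFinset o).erase (π o) := by
    intro x hx
    have hx' := (mem_bd G).1 hx
    rw [Finset.mem_erase, SimpleGraph.mem_neighborFinset]
    exact ⟨fun h' => hx'.2 (h' ▸ hG.mem o ho), hx'.1⟩
  have hmem : π o ∈ G.neighborFinset o := by
    rw [SimpleGraph.mem_neighborFinset]
    exact hG.adj o ho
  have h1 := Finset.card_le_card hsub
  have h2 := Finset.card_erase_add_one hmem
  have h3 := hd o
  rw [← SimpleGraph.card_neighborFinset_eq_degree] at h3
  omega

lemma bd_disj {O : Finset V} {π : V → V} (hG : Gad G O π) {o p : V} (ho : o ∈ O) (hp : p ∈ O) (h : o ≠ p) :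
    Disjoint (bd G O o) (bd G O p) := by
  rw [Finset.disjoint_left]
  intro x hx hx'
  have h1 := (mem_bd G).1 hx
  have h2 := (mem_bd G).1 hx'
  exact h (hG.one x h1.2 o ho p hp h1.1.symm h2.1.symm)

lemma tn_nonneg (O Y : Finset V) (o : V) : 0 ≤ tn G O Y o := by
  unfold tn
  positivity

lemma strong_sign {O Y : Finset V} {o : V} (h : Strong G O Y o) :
    ((sn G O Y o).sign = 1 ∨ (sn G O Y o).sign = -1) ∧ (sn G O Y o).sign * sn G O Y o = |sn G O Y o| := by
  have h0 := tn_nonneg G O Y o
  have h1 : (2 : ℤ) ≤ |sn G O Y o| := by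
    unfold Strong at h
    linarith
  have hne : sn G O Y o ≠ 0 := by
    intro h'
    rw [h', abs_zero] at h1
    norm_num at h1
  refine ⟨?_, Int.sign_mul_self_eq_abs _⟩
  rcases lt_or_gt_of_ne hne with h2 | h2
  · exact Or.inr (Int.sign_eq_neg_one_of_neg h2)
  · exact Or.inl (Int.sign_eq_one_of_pos h2)

lemma val_pm (π : V → V) {O Y : Finset V} {ε : V → ℤ} (hε : ∀ v, ε v = 1 ∨ ε v = -1) (o : V) :
    val G π O Y ε o = 1 ∨ val G π O Y ε o = -1 := by
  unfold val
  split_ifs with h1 h2
  · exact (strong_sign G h1).1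
  · exact (strong_sign G h2).1
  · exact hε o

lemma rho_pm (π : V → V) {O Y : Finset V} {ε : V → ℤ} (hε : ∀ v, ε v = 1 ∨ ε v = -1) (v : V) :
    rho G π O Y ε v = 1 ∨ rho G π O Y ε v = -1 := by
  unfold rho
  split_ifs with h1 h2
  · exact val_pm G π hε v
  · exact val_pm G π hε _
  · exact spin_pm Y v

end H49.NB
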