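import Pool.Agent.H49.NB.E1Defs
import Pool.Agent.H49.NB.RhoBas

/-!
# The final spins are internal

`v ∈ O`: the neighbours are outside `O` (`Gad1.ind`), so the total is `rho1 v * s1 v`, which is `0` or `|s1 v|`.
`v ∉ O`: `W (del G O) Y {v} = spin Y v * ∑_{u ∉ O} adj G v u * spin Y u ≥ 0` (`W_single` for `del G O`, `hY.1`). If `v` has no neighbour in `O` this is the total. If `o ∈ O` is a neighbour, it is the only
one (`Gad1.one`), the total is `W + spin Y v * rho1 o ≥ W - 1`, and `W` is odd: `∑_{u ∉ O} adj G v u * spin Y u` has the parity of the number of neighbours outside `O`, which is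
`degree v - 1`, odd. So `W ≥ 1`.
-/

set_option autoImplicit false
set_option linter.unusedSectionVars false

namespace H49.NB

open Finset H97.Int
open scoped Classical symmDiff

variable {V : Type} [Fintype V] [DecidableEq V] (G : SimpleGraph V) [DecidableRel G.Adj]

private lemma sum_nbr (v : V) (f : V → ℤ) : ∑ u, adj G v u * f u = ∑ u ∈ G.neighborFinset v, f u := by
  have h1 : ∀ u, adj G v u * f u = if u ∈ G.neighborFinset v then f u else 0 := by
    intro u
    unfold adj
    by_cases h : G.Adj v u
    · rw [if_pos h, if_pos (by rwa [SimpleGraph.mem_neighborFinset]), one_mul]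
    · rw [if_neg h, if_neg (by rwa [SimpleGraph.mem_neighborFinset]), zero_mul]
  rw [Finset.sum_congr rfl fun u _ => h1 u, ← Finset.sum_filter]
  refine Finset.sum_congr ?_ fun _ _ => rfl
  ext u
  simp

private lemma near1 {O : Finset V} (hG : Gad1 G O) {x o : V} (ho : o ∈ O) (h : G.Adj x o)
    (f : V → ℤ) :
    ∑ u, adj G x u * f u = ∑ u ∈ univ.filter (fun u => u ∉ O), adj G x u * f u + f o := by
  have key : ∀ u, adj G x u * f u = (if u ∉ O then adj G x u * f u else 0) + (if u = o then f o else 0) := by
    intro u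
    by_cases hu : u ∈ O
    · rw [if_neg (by simpa using hu)]
      by_cases huo : u = o
      · rw [if_pos huo, huo]
        unfold adj
        rw [if_pos h, one_mul, zero_add]
      · rw [if_neg huo]
        have h0 : ¬ G.Adj x u := fun h' => huo (hG.one x _ hu _ ho h' h)
        unfold adj
        rw [if_neg h0, zero_mul, zero_add]
    · have huo : u ≠ o := fun h' => hu (h' ▸ ho)
      rw [if_pos hu, if_neg huo, add_zero]
  rw [Finset.sum_congr rfl fun u _ => key u, Finset.sum_add_distrib, Finset.sum_filter,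
    Finset.sum_ite_eq' Finset.univ o (fun _ => f o), if_pos (Finset.mem_univ o)]

private lemma rho1_pm {O Y : Finset V} {ε : V → ℤ} (hε : ∀ v, ε v = 1 ∨ ε v = -1) (v : V) :
    rho1 G O Y ε v = 1 ∨ rho1 G O Y ε v = -1 := by
  unfold rho1
  split_ifs with h1 h2
  · exact hε v
  · rcases lt_or_gt_of_ne h2 with h3 | h3
    · exact Or.inr (Int.sign_eq_neg_one_of_neg h3)
    · exact Or.inl (Int.sign_eq_one_of_pos h3)
  · exact spin_pm Y v

theorem rho1_int (hdeg : ∀ v, Even (G.degree v)) {O : Finset V} (hG : Gad1 G O) {Y : Finset V}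
    (hY : Opt2 (del G O) Y) {ε : V → ℤ} (hε : ∀ v, ε v = 1 ∨ ε v = -1) (v : V) :
    0 ≤ rho1 G O Y ε v * ∑ u, adj G v u * rho1 G O Y ε u := by
  by_cases hv : v ∈ O
  · have h1 : ∑ u, adj G v u * rho1 G O Y ε u = s1 G Y v := by
      rw [sum_nbr]
      unfold s1
      refine Finset.sum_congr rfl fun u hu => ?_
      have hu' : G.Adj v u := by rwa [SimpleGraph.mem_neighborFinset] at hu
      have huO : u ∉ O := fun h => hG.ind v hv u h hu'
      unfold rho1
      rw [if_neg huO]
    rw [h1]
    unfold rho1
    rw [if_pos hv]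
    by_cases h2 : s1 G Y v = 0
    · rw [h2]
      simp
    · rw [if_neg h2, Int.sign_mul_self_eq_abs]
      exact abs_nonneg _
  · have hc : rho1 G O Y ε v = spin Y v := by
      unfold rho1
      rw [if_neg hv]
    have hW := hY.1 v
    rw [W_del G Y hv] at hW
    have h2 : ∑ u ∈ univ.filter (fun u => u ∉ O), adj G v u * rho1 G O Y ε u =
        ∑ u ∈ univ.filter (fun u => u ∉ O), adj G v u * spin Y u := by
      refine Finset.sum_congr rfl fun u hu => ?_
      have hu' : u ∉ O := (Finset.mem_filter.1 hu).2
      congr 1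
      unfold rho1
      rw [if_neg hu']
    rw [hc]
    by_cases h : ∃ o ∈ O, G.Adj v o
    · obtain ⟨o, ho, hvo⟩ := h
      rw [near1 G hG ho hvo, h2]
      have hpar : Odd (∑ u ∈ univ.filter (fun u => u ∉ O), adj G v u * spin Y u) := by
        have h3 := near1 G hG ho hvo (fun _ => (1 : ℤ))
        rw [sum_nbr, Finset.sum_const, SimpleGraph.card_neighborFinset_eq_degree] at h3
        have h4 : Even (∑ u ∈ univ.filter (fun u => u ∉ O), (adj G v u * spin Y u - adj G v u * 1)) := by
          refine Finset.even_sum _ fun u _ => ?_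
          rcases spin_pm Y u with h5 | h5 <;> rw [h5]
          · simp
          · exact ⟨- adj G v u, by ring⟩
        rw [Finset.sum_sub_distrib] at h4
        have h5 : Even ((G.degree v : ℤ)) := by exact_mod_cast hdeg v
        obtain ⟨a, ha⟩ := h4
        obtain ⟨b, hb⟩ := h5
        simp only [nsmul_eq_mul, mul_one] at h3 ha
        refine ⟨a + b - 1, ?_⟩
        omega
      obtain ⟨k, hk⟩ := hpar
      rw [hk] at hW ⊢
      rcases spin_pm Y v with h5 | h5 <;> rcases rho1_pm G (O := O) (Y := Y) hε o with h6 | h6 <;>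
        rw [h5] at hW ⊢ <;> rw [h6] <;> omega
    · have h' : ∀ o ∈ O, ¬ G.Adj v o := fun o ho hvo => h ⟨o, ho, hvo⟩
      rw [sum_far G h', h2]
      exact hW

end H49.NB
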