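import Pool.Agent.H49.NB.Indep

/-!
# A sum of local indicators is concentrated

`N = 2^n`, `g o A = 1` if `P o A`, else `0`; `Y A = ∑_{o ∈ O} g o A`, `μ = (∑_A Y A)/N ≥ p |O|`. `∑_A (Y A - μ)^2 = ∑_A (Y A)^2 - N μ² = ∑_{o, o' ∈ O} (∑_A g o A g o' A - (∑_A g o A)(∑_A g o' A)/N)`.
If `o' ∉ nb G (R + R) {o}` the term is `0` by `indep` with `N = nb G R {o}` (`P o' ` depends on `nb G R {o'}`, which is disjoint from `nb G R {o}`, as in `H97.Int.corr_zero`); the other terms are
`≤ N`, and there are at most `|O| (d+1)^(R+R)` of them (`card_nb_le`). If `Y A < (p/2)|O|` then `(Y A - μ)^2 ≥ (p |O| / 2)^2`. So `# (p |O|/2)^2 ≤ N |O| (d+1)^(R+R)`; divide by `|O|`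
(`O = ∅`: the set is empty).
-/

set_option autoImplicit false
set_option linter.unusedSectionVars false

namespace H49.NB

open Finset H97.Int
open scoped Classical symmDiff

variable {V : Type} [Fintype V] [DecidableEq V] (G : SimpleGraph V) [DecidableRel G.Adj]

/-- indicator -/
private noncomputable def IndSum_g (P : V → Finset V → Prop) (o : V) (A : Finset V) : ℝ :=
  if P o A then 1 else 0

private lemma IndSum_g0 (P : V → Finset V → Prop) (o : V) (A : Finset V) :
    0 ≤ IndSum_g P o A := by
  unfold IndSum_g; split_ifs <;> norm_num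

private lemma IndSum_g1 (P : V → Finset V → Prop) (o : V) (A : Finset V) :
    IndSum_g P o A ≤ 1 := by
  unfold IndSum_g; split_ifs <;> norm_num

private lemma IndSum_gc (P : V → Finset V → Prop) (o : V) {A A' : Finset V}
    (h : P o A ↔ P o A') : IndSum_g P o A = IndSum_g P o A' := by
  unfold IndSum_g
  by_cases h1 : P o A
  · rw [if_pos h1, if_pos (h.1 h1)]
  · rw [if_neg h1, if_neg fun h2 => h1 (h.2 h2)]

private lemma IndSum_far {R : ℕ} (P : V → Finset V → Prop)
    (hloc : ∀ v A A', (∀ u ∈ nb G R {v}, (u ∈ A ↔ u ∈ A')) → (P v A ↔ P v A')) {o o' : V}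
    (h : o' ∉ nb G (R + R) {o}) :
    (2 : ℝ) ^ Fintype.card V * ∑ A, IndSum_g P o A * IndSum_g P o' A =
      (∑ A, IndSum_g P o A) * ∑ A, IndSum_g P o' A := by
  refine indep (nb G R {o}) (IndSum_g P o) (IndSum_g P o') ?_ ?_
  · intro A A' hA
    refine IndSum_gc P o (hloc o A A' fun u hu => ?_)
    constructor
    · intro h1
      have h2 : u ∈ A' ∩ nb G R {o} := hA ▸ Finset.mem_inter.2 ⟨h1, hu⟩
      exact (Finset.mem_inter.1 h2).1
    · intro h1
      have h2 : u ∈ A ∩ nb G R {o} := hA.symm ▸ Finset.mem_inter.2 ⟨h1, hu⟩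
      exact (Finset.mem_inter.1 h2).1
  · intro A A' hA
    refine IndSum_gc P o' (hloc o' A A' fun u hu => ?_)
    have hn : u ∈ (nb G R {o})ᶜ := by
      rw [Finset.mem_compl]
      intro hwB
      apply h
      rw [nb_add]
      exact nb_mono G (by simpa using hwB) R (mem_nb_singleton_symm G hu)
    constructor
    · intro h1
      have h2 : u ∈ A' ∩ (nb G R {o})ᶜ := hA ▸ Finset.mem_inter.2 ⟨h1, hn⟩
      exact (Finset.mem_inter.1 h2).1
    · intro h1
      have h2 : u ∈ A ∩ (nb G R {o})ᶜ := hA.symm ▸ Finset.mem_inter.2 ⟨h1, hn⟩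
      exact (Finset.mem_inter.1 h2).1

theorem indSum {d R : ℕ} (hd : ∀ v, G.degree v ≤ d) (O : Finset V) (P : V → Finset V → Prop)
    (hloc : ∀ v A A', (∀ u ∈ nb G R {v}, (u ∈ A ↔ u ∈ A')) → (P v A ↔ P v A')) {p : ℝ} (hp : 0 < p)
    (hP : ∀ o ∈ O, p * 2 ^ Fintype.card V ≤ ((univ.filter fun A : Finset V => P o A).card : ℝ)) :
    ((univ.filter fun A : Finset V => ((O.filter fun o => P o A).card : ℝ) < p / 2 * O.card).card : ℝ) *
      (p ^ 2 * O.card) ≤ 4 * ((d : ℝ) + 1) ^ (R + R) * 2 ^ Fintype.card V := by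
  set N : ℝ := 2 ^ Fintype.card V with hN
  have hN0 : 0 < N := by positivity
  have hcard : ((univ : Finset (Finset V)).card : ℝ) = N := by
    rw [Finset.card_univ, Fintype.card_finset, hN]
    push_cast
    rfl
  set S : V → ℝ := fun o => ∑ A, IndSum_g P o A with hS
  have hS0 : ∀ o, 0 ≤ S o := fun o => Finset.sum_nonneg fun A _ => IndSum_g0 P o A
  have hSp : ∀ o ∈ O, p * N ≤ S o := by
    intro o ho
    have h1 := hP o ho
    have h2 : S o = ((univ.filter fun A : Finset V => P o A).card : ℝ) := by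
      simp only [hS, IndSum_g]
      rw [Finset.sum_ite]
      simp
    rw [h2]
    exact h1
  set Y : Finset V → ℝ := fun A => ∑ o ∈ O, IndSum_g P o A with hY
  have hYc : ∀ A, Y A = ((O.filter fun o => P o A).card : ℝ) := by
    intro A
    simp only [hY, IndSum_g]
    rw [Finset.sum_ite]
    simp
  have hYsum : ∑ A, Y A = ∑ o ∈ O, S o := by
    simp only [hY, hS]
    exact Finset.sum_comm
  set μ : ℝ := (∑ o ∈ O, S o) / N with hμ
  have hμN : N * μ = ∑ o ∈ O, S o := by
    rw [hμ]; field_simp
  have hμp : p * O.card ≤ μ := by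
    rw [hμ, le_div_iff₀ hN0]
    calc p * O.card * N = ∑ _o ∈ O, p * N := by
          rw [Finset.sum_const, nsmul_eq_mul]; ring
      _ ≤ ∑ o ∈ O, S o := Finset.sum_le_sum hSp
  -- the variance
  have hvar : ∑ A, (Y A - μ) ^ 2 ≤ O.card * (((d : ℝ) + 1) ^ (R + R) * N) := by
    have e1 : ∑ A, (Y A - μ) ^ 2 = (∑ A, Y A ^ 2) - N * μ ^ 2 := by
      have e2 : ∀ A, (Y A - μ) ^ 2 = Y A ^ 2 - 2 * μ * Y A + μ ^ 2 := fun A => by ring
      rw [Finset.sum_congr rfl fun A _ => e2 A, Finset.sum_add_distrib, Finset.sum_sub_distrib,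
        ← Finset.mul_sum, hYsum, ← hμN, Finset.sum_const, nsmul_eq_mul, hcard]
      ring
    have e3 : ∑ A, Y A ^ 2 = ∑ o ∈ O, ∑ o' ∈ O, ∑ A, IndSum_g P o A * IndSum_g P o' A := by
      have e4 : ∀ A, Y A ^ 2 = ∑ o ∈ O, ∑ o' ∈ O, IndSum_g P o A * IndSum_g P o' A := by
        intro A
        simp only [hY]
        rw [sq, Finset.sum_mul_sum]
      rw [Finset.sum_congr rfl fun A _ => e4 A, Finset.sum_comm]
      exact Finset.sum_congr rfl fun o _ => Finset.sum_comm
    have e5 : N * μ ^ 2 = ∑ o ∈ O, ∑ o' ∈ O, S o * S o' / N := by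
      have e6 : ∑ o ∈ O, ∑ o' ∈ O, S o * S o' / N = (∑ o ∈ O, S o) * (∑ o' ∈ O, S o') / N := by
        rw [Finset.sum_mul_sum, Finset.sum_div]
        exact Finset.sum_congr rfl fun o _ => by rw [Finset.sum_div]
      rw [e6, ← hμN]
      field_simp
    rw [e1, e3, e5, ← Finset.sum_sub_distrib]
    calc ∑ o ∈ O, ((∑ o' ∈ O, ∑ A, IndSum_g P o A * IndSum_g P o' A) - ∑ o' ∈ O, S o * S o' / N)
        ≤ ∑ _o ∈ O, ((d : ℝ) + 1) ^ (R + R) * N := by
          refine Finset.sum_le_sum fun o _ => ?_
          rw [← Finset.sum_sub_distrib]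
          calc ∑ o' ∈ O, (∑ A, IndSum_g P o A * IndSum_g P o' A - S o * S o' / N)
              ≤ ∑ o' ∈ O, (if o' ∈ nb G (R + R) {o} then N else 0) := by
                refine Finset.sum_le_sum fun o' _ => ?_
                by_cases h : o' ∈ nb G (R + R) {o}
                · rw [if_pos h]
                  have h1 : ∑ A, IndSum_g P o A * IndSum_g P o' A ≤ N := by
                    calc ∑ A, IndSum_g P o A * IndSum_g P o' A ≤ ∑ _A : Finset V, (1 : ℝ) := by
                          refine Finset.sum_le_sum fun A _ => ?_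
                          have a1 := IndSum_g0 P o A
                          have a2 := IndSum_g1 P o A
                          have a3 := IndSum_g0 P o' A
                          have a4 := IndSum_g1 P o' A
                          nlinarith
                      _ = N := by rw [Finset.sum_const, nsmul_eq_mul, hcard, mul_one]
                  have h2 : 0 ≤ S o * S o' / N :=
                    div_nonneg (mul_nonneg (hS0 o) (hS0 o')) hN0.le
                  linarith
                · rw [if_neg h]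
                  have h1 := IndSum_far G P hloc h
                  have h2 : S o * S o' / N = ∑ A, IndSum_g P o A * IndSum_g P o' A := by
                    rw [div_eq_iff hN0.ne']
                    simp only [hS]
                    rw [← h1]
                    ring
                  rw [h2, sub_self]
            _ ≤ ∑ o' ∈ nb G (R + R) {o}, N := by
                rw [← Finset.sum_filter]
                refine Finset.sum_le_sum_of_subset_of_nonneg ?_ fun _ _ _ => hN0.le
                intro x hx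
                exact (Finset.mem_filter.1 hx).2
            _ ≤ ((d : ℝ) + 1) ^ (R + R) * N := by
                rw [Finset.sum_const, nsmul_eq_mul]
                refine mul_le_mul_of_nonneg_right ?_ hN0.le
                have h3 : (nb G (R + R) {o}).card ≤ (d + 1) ^ (R + R) := by
                  simpa using card_nb_le G hd (R + R) {o}
                exact_mod_cast h3
      _ = O.card * (((d : ℝ) + 1) ^ (R + R) * N) := by
          rw [Finset.sum_const, nsmul_eq_mul]
  -- Chebyshev
  set B := univ.filter fun A : Finset V => ((O.filter fun o => P o A).card : ℝ) < p / 2 * O.card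
    with hB
  have hO0 : (0 : ℝ) ≤ O.card := Nat.cast_nonneg _
  have hch : (B.card : ℝ) * (p / 2 * O.card) ^ 2 ≤ ∑ A, (Y A - μ) ^ 2 := by
    calc (B.card : ℝ) * (p / 2 * O.card) ^ 2 = ∑ _A ∈ B, (p / 2 * (O.card : ℝ)) ^ 2 := by
          rw [Finset.sum_const, nsmul_eq_mul]
      _ ≤ ∑ A ∈ B, (Y A - μ) ^ 2 := by
          refine Finset.sum_le_sum fun A hA => ?_
          have h1 := (Finset.mem_filter.1 hA).2
          rw [← hYc] at h1
          have h2 : p / 2 * O.card ≤ μ - Y A := by linarith
          have h3 : 0 ≤ p / 2 * (O.card : ℝ) := by positivity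
          nlinarith
      _ ≤ ∑ A, (Y A - μ) ^ 2 :=
          Finset.sum_le_sum_of_subset_of_nonneg (Finset.subset_univ _) fun _ _ _ => sq_nonneg _
  have hfin := hch.trans hvar
  rcases hO0.eq_or_lt with h0 | h0
  · rw [← h0]
    simp only [mul_zero]
    positivity
  · have h1 : (O.card : ℝ) * ((B.card : ℝ) * (p ^ 2 * O.card)) ≤
        O.card * (4 * ((d : ℝ) + 1) ^ (R + R) * N) := by nlinarith
    exact le_of_mul_le_mul_left h1 h0

end H49.NB
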