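import Pool.Agent.H49.NB.Defs

/-!
# Second moment of a sum of odd local functions

Exactly as `H97.Int.corr_zero` and `H97.Int.second_moment` (`Pool/Agent/H97/Int/Almost.lean`): if `v ∉ nb G (R + R) {u}` then the involution `A ↦ A ∆ nb G R {u}` changes the sign of `f u` (agreement with
`Aᶜ` on `nb G R {u}`) and leaves `f v` unchanged (the balls are disjoint), so `∑_A f u A * f v A = 0`. The other pairs contribute at most `2^n`, and there are at most `n (d+1)^(2R)`.
-/

set_option autoImplicit false
set_option linter.unusedSectionVars false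

namespace H49.NB

open Finset H97.Int
open scoped Classical symmDiff

variable {V : Type} [Fintype V] [DecidableEq V] (G : SimpleGraph V) [DecidableRel G.Adj]

private lemma oddSum_corr {R : ℕ} (f : V → Finset V → ℤ)
    (hloc : ∀ v A A', (∀ u ∈ nb G R {v}, (u ∈ A ↔ u ∈ A')) → f v A = f v A')
    (hodd : ∀ v A, f v Aᶜ = - f v A) {u v : V} (h : v ∉ nb G (R + R) {u}) :
    ∑ A : Finset V, f u A * f v A = 0 := by
  set B := nb G R {u} with hB
  have hinv : Function.Involutive (fun A : Finset V => A ∆ B) := fun A =>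
    symmDiff_symmDiff_cancel_right B A
  have h1 := Equiv.sum_comp hinv.toPerm (fun A : Finset V => f u A * f v A)
  have h2 : ∀ A : Finset V, f u (A ∆ B) * f v (A ∆ B) = - (f u A * f v A) := by
    intro A
    have h3 : f u (A ∆ B) = - f u A := by
      rw [← hodd]
      refine hloc u _ _ fun w hw => ?_
      rw [Finset.mem_symmDiff, Finset.mem_compl]
      tauto
    have h4 : f v (A ∆ B) = f v A := by
      refine hloc v _ _ fun w hw => ?_
      have hwB : w ∉ B := by
        intro hwB
        apply h
        rw [nb_add]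
        exact nb_mono G (by simpa using hwB) R (mem_nb_singleton_symm G hw)
      rw [Finset.mem_symmDiff]
      tauto
    rw [h3, h4]; ring
  simp only [Function.Involutive.coe_toPerm] at h1
  simp only [h2, Finset.sum_neg_distrib] at h1
  linarith

private lemma oddSum_mul {x y : ℤ} (hx : |x| ≤ 1) (hy : |y| ≤ 1) : x * y ≤ 1 := by
  calc x * y ≤ |x * y| := le_abs_self _
    _ = |x| * |y| := abs_mul _ _
    _ ≤ 1 * 1 := mul_le_mul hx hy (abs_nonneg _) (by norm_num)
    _ = 1 := by norm_num

theorem oddSum {d R : ℕ} (hd : ∀ v, G.degree v ≤ d) (f : V → Finset V → ℤ)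
    (hloc : ∀ v A A', (∀ u ∈ nb G R {v}, (u ∈ A ↔ u ∈ A')) → f v A = f v A')
    (hodd : ∀ v A, f v Aᶜ = - f v A) (hb : ∀ v A, |f v A| ≤ 1) :
    ∑ A : Finset V, (∑ v, f v A) ^ 2 ≤ 2 ^ Fintype.card V * (Fintype.card V * ((d : ℤ) + 1) ^ (R + R)) := by
  have h1 : ∀ A : Finset V, (∑ v, f v A) ^ 2 = ∑ u, ∑ v, f u A * f v A := by
    intro A
    rw [sq, Finset.sum_mul_sum]
  calc ∑ A : Finset V, (∑ v, f v A) ^ 2
      = ∑ u, ∑ v, ∑ A : Finset V, f u A * f v A := by
        rw [Finset.sum_congr rfl fun A _ => h1 A, Finset.sum_comm]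
        exact Finset.sum_congr rfl fun u _ => Finset.sum_comm
    _ ≤ ∑ u, ∑ v, (if v ∈ nb G (R + R) {u} then (2 ^ Fintype.card V : ℤ) else 0) := by
        refine Finset.sum_le_sum fun u _ => Finset.sum_le_sum fun v _ => ?_
        by_cases h : v ∈ nb G (R + R) {u}
        · rw [if_pos h]
          calc ∑ A : Finset V, f u A * f v A
              ≤ ∑ _A : Finset V, (1 : ℤ) :=
                Finset.sum_le_sum fun A _ => oddSum_mul (hb _ _) (hb _ _)
            _ = 2 ^ Fintype.card V := by simp
        · rw [if_neg h, oddSum_corr G f hloc hodd h]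
    _ ≤ ∑ _u : V, 2 ^ Fintype.card V * ((d : ℤ) + 1) ^ (R + R) := by
        refine Finset.sum_le_sum fun u _ => ?_
        rw [← Finset.sum_filter, Finset.sum_const, nsmul_eq_mul, mul_comm]
        have h2 : (univ.filter fun v => v ∈ nb G (R + R) {u}).card ≤ (d + 1) ^ (R + R) := by
          have h3 : (univ.filter fun v => v ∈ nb G (R + R) {u}) = nb G (R + R) {u} := by
            ext; simp
          rw [h3]
          simpa using card_nb_le G hd (R + R) {u}
        have h4 : ((univ.filter fun v => v ∈ nb G (R + R) {u}).card : ℤ) ≤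
            ((d : ℤ) + 1) ^ (R + R) := by exact_mod_cast h2
        gcongr
    _ = 2 ^ Fintype.card V * (Fintype.card V * ((d : ℤ) + 1) ^ (R + R)) := by
        rw [Finset.sum_const]; simp; ring

end H49.NB
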