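import Pool.Agent.H49.NB.Dyn
import Pool.Agent.H49.NB.E1Loc
import Pool.Agent.H49.NB.E1Flex
import Pool.Agent.H49.NB.OddSum
import Pool.Agent.H49.NB.IndSum

/-!
# A good state (even degrees)

Exactly as `State.lean` (copy its proof), with `rho1, Mz1, flx1, Far1, flex_prob1, rho1_local (radius 1), flx1_local (radius 1)`.
-/

set_option autoImplicit false
set_option linter.unusedSectionVars false

namespace H49.NB

open Finset H97.Int
open scoped Classical symmDiff

private lemma e1state_del_degree {V : Type} [Fintype V] [DecidableEq V] (G : SimpleGraph V)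
    [DecidableRel G.Adj] (O : Finset V) (v : V) : (del G O).degree v ≤ G.degree v := by
  rw [← SimpleGraph.card_neighborFinset_eq_degree, ← SimpleGraph.card_neighborFinset_eq_degree]
  refine Finset.card_le_card fun x hx => ?_
  rw [SimpleGraph.mem_neighborFinset] at hx ⊢
  exact hx.1

private lemma e1state_local {V : Type} [Fintype V] [DecidableEq V] (G : SimpleGraph V)
    [DecidableRel G.Adj] {O : Finset V} {R r : ℕ} {X : Finset V → Finset V}
    (hX : LocOdd (del G O) R X) {v : V} {A A' : Finset V}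
    (h : ∀ u ∈ nb G (R + r) {v}, (u ∈ A ↔ u ∈ A')) :
    ∀ u ∈ nb G r {v}, (u ∈ X A ↔ u ∈ X A') := by
  intro u hu
  refine hX.loc u A A' fun w hw => h w ?_
  rw [nb_add]
  exact nb_mono G (Finset.singleton_subset_iff.2 hu) R (nb_del G O R {u} hw)

private lemma e1state_mom {ι : Type*} [Fintype ι] (F : ι → ℝ) (a M : ℝ) (ha : 0 ≤ a)
    (h : ∑ A, F A ^ 2 ≤ M) :
    ((univ.filter fun A => a < |F A|).card : ℝ) * a ^ 2 ≤ M := by
  calc ((univ.filter fun A => a < |F A|).card : ℝ) * a ^ 2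
      = ∑ _A ∈ univ.filter fun A => a < |F A|, a ^ 2 := by rw [sum_const, nsmul_eq_mul]
    _ ≤ ∑ A ∈ univ.filter fun A => a < |F A|, F A ^ 2 := by
        refine sum_le_sum fun A hA => ?_
        rw [← sq_abs (F A)]
        exact pow_le_pow_left₀ ha (mem_filter.1 hA).2.le 2
    _ ≤ ∑ A, F A ^ 2 := sum_le_sum_of_subset_of_nonneg (subset_univ _) fun _ _ _ => sq_nonneg _
    _ ≤ M := h

theorem exists_state1 (d K : ℕ) (κ ε γ : ℝ) (hκ : 0 < κ) (hε : 0 < ε) (hγ : 0 < γ) : ∃ R n₀ : ℕ,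
    ∀ (V : Type) [Fintype V] [DecidableEq V] (G : SimpleGraph V) [DecidableRel G.Adj],
    (∀ v, G.degree v ≤ d) → (∀ v, Even (G.degree v)) → n₀ ≤ Fintype.card V → ∀ O : Finset V, Far1 G R O →
    κ * Fintype.card V ≤ O.card →
    ∃ X U : Finset V, (U.card : ℝ) ≤ ε * Fintype.card V ∧ KOpt (del G O) K X U ∧
      ((|Mz1 G O X| : ℤ) : ℝ) ≤ γ * Fintype.card V ∧
      κ * Fintype.card V ≤ 2 * 4 ^ d * ((flx1 G O X).card : ℝ) := by
  obtain ⟨R, hR⟩ := dyn d K ε hε
  set D2 : ℝ := ((d : ℝ) + 1) ^ (R + 1 + (R + 1)) with hD2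
  set D3 : ℝ := ((d : ℝ) + 1) ^ (R + 1 + (R + 1)) with hD3
  have hD20 : 0 < D2 := by positivity
  have hD30 : 0 < D3 := by positivity
  set p : ℝ := 1 / 4 ^ d with hp
  have hp0 : 0 < p := by positivity
  obtain ⟨n₁, hn₁⟩ := exists_nat_gt (4 * D2 / γ ^ 2)
  obtain ⟨n₂, hn₂⟩ := exists_nat_gt (16 * D3 / (p ^ 2 * κ))
  refine ⟨R, max 1 (max n₁ n₂), ?_⟩
  intro V _ _ G _ hd hdeg hn O hF hO
  set n := Fintype.card V with hnn
  have hn0 : 1 ≤ n := le_trans (le_max_left _ _) hn
  have hn1 : n₁ ≤ n := le_trans (le_trans (le_max_left _ _) (le_max_right _ _)) hn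
  have hn2 : n₂ ≤ n := le_trans (le_trans (le_max_right _ _) (le_max_right _ _)) hn
  have hnpos : (0 : ℝ) < n := by exact_mod_cast hn0
  have hγn : 4 * D2 < γ ^ 2 * n := by
    rw [div_lt_iff₀ (by positivity)] at hn₁
    have h1 : (n₁ : ℝ) ≤ n := by exact_mod_cast hn1
    nlinarith [sq_nonneg γ]
  have hκn : 16 * D3 < p ^ 2 * (κ * n) := by
    rw [div_lt_iff₀ (by positivity)] at hn₂
    have h1 : (n₂ : ℝ) ≤ n := by exact_mod_cast hn2
    have h2 : (n₂ : ℝ) * (p ^ 2 * κ) ≤ n * (p ^ 2 * κ) :=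
      mul_le_mul_of_nonneg_right h1 (by positivity)
    linarith
  obtain ⟨X, hX, hbad⟩ := hR V (del G O) fun v => (e1state_del_degree G O v).trans (hd v)
  set N : ℝ := 2 ^ n with hN
  have hN0 : 0 < N := by positivity
  set B1 := univ.filter fun A : Finset V => ¬ ∃ U : Finset V, (U.card : ℝ) ≤ ε * n ∧
        KOpt (del G O) K (X A) U with hB1
  have c1 : 4 * (B1.card : ℝ) ≤ N := by
    rw [hN]
    exact_mod_cast hbad
  -- the second moment of the forced sum
  set B2 := univ.filter fun A : Finset V => γ * n < |((Mz1 G O (X A) : ℤ) : ℝ)| with hB2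
  have c2 : 4 * (B2.card : ℝ) ≤ N := by
    have h1 := oddSum G hd (R := R + 1) (fun v A => rho1 G O (X A) (fun _ => 0) v)
      (fun v A A' h => rho1_local G (e1state_local G hX h))
      (fun v A => by
        simp only [hX.compl]
        exact rho1_compl G O (X A) v)
      (fun v A => abs_rho1_le G O (X A) v)
    have h2 : ∑ A : Finset V, ((Mz1 G O (X A) : ℤ) : ℝ) ^ 2 ≤ N * (n * D2) := by
      have h3 : ((∑ A : Finset V, (Mz1 G O (X A)) ^ 2 : ℤ) : ℝ) ≤
          ((2 ^ Fintype.card V * (Fintype.card V * ((d : ℤ) + 1) ^ (R + 1 + (R + 1))) : ℤ) : ℝ) := by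
        exact_mod_cast h1
      push_cast at h3
      rw [hN, hD2, hnn]
      exact h3
    have h4 := e1state_mom (fun A : Finset V => ((Mz1 G O (X A) : ℤ) : ℝ)) (γ * n) _
      (by positivity) h2
    have h5 : (B2.card : ℝ) * (γ * n) ^ 2 ≤ N * (n * D2) := h4
    have h6 : ((B2.card : ℝ) * (γ ^ 2 * n)) * n ≤ (N * D2) * n := by
      calc ((B2.card : ℝ) * (γ ^ 2 * n)) * n = (B2.card : ℝ) * (γ * n) ^ 2 := by ring
        _ ≤ N * (n * D2) := h5
        _ = (N * D2) * n := by ring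
    have h7 := le_of_mul_le_mul_right h6 hnpos
    have h8 : (B2.card : ℝ) * (4 * D2) ≤ (B2.card : ℝ) * (γ ^ 2 * n) :=
      mul_le_mul_of_nonneg_left hγn.le (Nat.cast_nonneg _)
    have h9 : (4 * (B2.card : ℝ)) * D2 ≤ N * D2 := by linarith
    exact le_of_mul_le_mul_right h9 hD20
  -- the number of free gadgets
  set B3 := univ.filter fun A : Finset V =>
    ((O.filter fun o => o ∈ flx1 G O (X A)).card : ℝ) < p / 2 * O.card with hB3
  have c3 : 4 * (B3.card : ℝ) ≤ N := by
    have h1 := indSum G hd (R := R + 1) O (fun o A => o ∈ flx1 G O (X A))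
      (fun v A A' h => flx1_local G (e1state_local G hX h)) hp0 (by
        intro o ho
        have h2 := flex_prob1 G hd hdeg hF hX ho
        have h3 : (2 : ℝ) ^ Fintype.card V ≤ 4 ^ d *
            ((univ.filter fun A : Finset V => o ∈ flx1 G O (X A)).card : ℝ) := by
          exact_mod_cast h2
        have h4 : p * 2 ^ Fintype.card V ≤
            ((univ.filter fun A : Finset V => o ∈ flx1 G O (X A)).card : ℝ) := by
          rw [hp, one_div, inv_mul_le_iff₀ (by positivity)]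
          exact h3
        refine h4.trans (le_of_eq ?_)
        congr!)
    have h2 : (B3.card : ℝ) * (p ^ 2 * O.card) ≤ 4 * D3 * N := by
      rw [hN, hD3, hnn]
      convert h1
    have h3 : (B3.card : ℝ) * (16 * D3) ≤ (B3.card : ℝ) * (p ^ 2 * O.card) := by
      refine mul_le_mul_of_nonneg_left ?_ (Nat.cast_nonneg _)
      have := mul_le_mul_of_nonneg_left hO (by positivity : (0 : ℝ) ≤ p ^ 2)
      linarith
    have h4 : (4 * (B3.card : ℝ)) * (4 * D3) ≤ N * (4 * D3) := by linarith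
    exact le_of_mul_le_mul_right h4 (by positivity)
  -- a good state
  obtain ⟨A, hA⟩ : ∃ A : Finset V, A ∉ B1 ∪ (B2 ∪ B3) := by
    by_contra hc
    push Not at hc
    have h1 : (univ : Finset (Finset V)).card ≤ (B1 ∪ (B2 ∪ B3)).card :=
      Finset.card_le_card fun A _ => hc A
    have h2 : (B1 ∪ (B2 ∪ B3)).card ≤ B1.card + (B2.card + B3.card) :=
      (Finset.card_union_le _ _).trans (Nat.add_le_add_left (Finset.card_union_le _ _) _)
    have h3 : ((univ : Finset (Finset V)).card : ℝ) = N := by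
      rw [Finset.card_univ, Fintype.card_finset, hN, hnn]
      push_cast
      rfl
    have h4 : N ≤ (B1.card : ℝ) + ((B2.card : ℝ) + B3.card) := by
      rw [← h3]
      exact_mod_cast h1.trans h2
    linarith
  rw [Finset.mem_union, Finset.mem_union, not_or, not_or] at hA
  obtain ⟨a1, a2, a3⟩ := hA
  rw [hB1, mem_filter] at a1
  rw [hB2, mem_filter] at a2
  rw [hB3, mem_filter] at a3
  have a1' : ∃ U : Finset V, (U.card : ℝ) ≤ ε * n ∧ KOpt (del G O) K (X A) U := by
    by_contra hc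
    exact a1 ⟨mem_univ _, hc⟩
  obtain ⟨U, hU1, hU2⟩ := a1'
  refine ⟨X A, U, hU1, hU2, ?_, ?_⟩
  · have h1 : ¬ (γ * n < |((Mz1 G O (X A) : ℤ) : ℝ)|) := fun h => a2 ⟨mem_univ _, h⟩
    push Not at h1
    rw [Int.cast_abs]
    exact h1
  · have h1 : ¬ (((O.filter fun o => o ∈ flx1 G O (X A)).card : ℝ) < p / 2 * O.card) :=
      fun h => a3 ⟨mem_univ _, h⟩
    push Not at h1
    have h2 : (O.filter fun o => o ∈ flx1 G O (X A)) = flx1 G O (X A) := by
      ext o
      rw [mem_filter]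
      refine ⟨fun h => h.2, fun h => ⟨?_, h⟩⟩
      unfold flx1 at h
      exact (mem_filter.1 h).1
    rw [h2] at h1
    have h3 : p * (O.card : ℝ) ≤ 2 * ((flx1 G O (X A)).card : ℝ) := by linarith
    have h4 : (4 : ℝ) ^ d * (p * O.card) = O.card := by
      rw [hp]
      field_simp
    have h5 := mul_le_mul_of_nonneg_left h3 (by positivity : (0 : ℝ) ≤ 4 ^ d)
    rw [h4] at h5
    linarith

end H49.NB
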