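import Pool.Agent.H49.NB.ConA

/-!
# Splitting a connected set

STAR. Let `C` be connected, `v ∈ C`, `Y` a component of `C \ {v}` (i.e. `Y ⊆ C.erase v` nonempty, connected, without edges to `(C.erase v) \ Y`). Then `v` is adjacent to `Y`, and `C \ Y` is
connected. (First: `Y ⊆ C` is nonempty and `≠ C`, so it has an edge to `C \ Y`, which can only go to `v`. Second: let `T ⊆ C \ Y` be nonempty, `≠ C \ Y`, without edges to `(C \ Y) \ T`. If
`v ∉ T` then `T` has no edges to `Y` either (they are in `C.erase v`, no edges between `Y` and `(C.erase v) \ Y`), so `T` has no edges to `C \ T`, against `Cn C`. If `v ∈ T` then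
`(C \ Y) \ T` is such a set without `v` (symmetry of adjacency).)
COUNT. If `Z` is a set and every connected nonempty `Y ⊆ Z` without edges to `Z \ Y` has `|Y| ≤ m` and a neighbour of `v`, then `|Z| ≤ m * |N(v) ∩ Z|`: strong induction on `|Z|`, with
`exists_comp`, as a component of `Z \ Y` is a component of `Z`.
SPLIT. Let `|C| > d s`, `v ∈ C` any vertex. By COUNT (with `m = s - 1`, `Z = C \ {v}`, at most `d` neighbours) and `d (s - 1) < d s ≤ |C| - 1` some component `X` of `C \ {v}` has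
`|X| ≥ s`. So there are sets `X ⊆ C` with `Cn X`, `Cn (C \ X)`, `C \ X ≠ ∅`, `|X| ≥ s`; take one with `|X|` minimal. As `C` is connected there are `v ∈ X`, `w ∈ C \ X` adjacent. Let `Y` be a
component of `X \ {v}`. By STAR (for `X`) `X \ Y` is connected, contains `v`, so `C \ Y = (C \ X) ∪ (X \ Y)` is connected (`cn_union`), nonempty, and `|Y| < |X|`; by minimality `|Y| ≤ s - 1`.
By COUNT `|X| - 1 ≤ (s - 1) |N(v) ∩ (X \ {v})| ≤ (s - 1)(d - 1)`, as `w ∈ N(v)` is not in `X`. So `|C \ X| ≥ d s + 1 - 1 - (s - 1)(d - 1) ≥ s`.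
-/

set_option autoImplicit false
set_option linter.unusedSectionVars false

namespace H49.NB

open Finset H97.Int
open scoped Classical symmDiff

variable {V : Type} [Fintype V] [DecidableEq V] (G : SimpleGraph V) [DecidableRel G.Adj]

private lemma Split_adj {C Y : Finset V} {v : V} (hC : Cn G C) (hv : v ∈ C) (hY : Y ⊆ C.erase v)
    (h0 : Y.Nonempty) (he : ∀ u ∈ Y, ∀ w ∈ C.erase v \ Y, ¬ G.Adj u w) : ∃ u ∈ Y, G.Adj v u := by
  have hvY : v ∉ Y := fun h => (Finset.mem_erase.1 (hY h)).1 rfl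
  have hYC : Y ⊆ C := hY.trans (Finset.erase_subset _ _)
  obtain ⟨u, hu, w, hw, huw⟩ := hC Y hYC h0 (fun h => hvY (h ▸ hv))
  rw [Finset.mem_sdiff] at hw
  by_cases hwv : w = v
  · subst hwv
    exact ⟨u, hu, huw.symm⟩
  · exact absurd huw (he u hu w (Finset.mem_sdiff.2 ⟨Finset.mem_erase.2 ⟨hwv, hw.1⟩, hw.2⟩))

private lemma Split_cn {C Y : Finset V} {v : V} (hC : Cn G C) (hv : v ∈ C) (hY : Y ⊆ C.erase v)
    (he : ∀ u ∈ Y, ∀ w ∈ C.erase v \ Y, ¬ G.Adj u w) : Cn G (C \ Y) := by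
  have key : ∀ T : Finset V, T ⊆ C \ Y → T.Nonempty → v ∉ T →
      ∃ u ∈ T, ∃ w ∈ (C \ Y) \ T, G.Adj u w := by
    intro T hT h0 hvT
    have hTC : T ⊆ C := hT.trans Finset.sdiff_subset
    obtain ⟨u, hu, w, hw, huw⟩ := hC T hTC h0 (fun h => hvT (h ▸ hv))
    rw [Finset.mem_sdiff] at hw
    have huCY := Finset.mem_sdiff.1 (hT hu)
    by_cases hwY : w ∈ Y
    · have huv : u ≠ v := fun h => hvT (h ▸ hu)
      exact absurd huw.symm
        (he w hwY u (Finset.mem_sdiff.2 ⟨Finset.mem_erase.2 ⟨huv, huCY.1⟩, huCY.2⟩))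
    · exact ⟨u, hu, w, Finset.mem_sdiff.2 ⟨Finset.mem_sdiff.2 ⟨hw.1, hwY⟩, hw.2⟩, huw⟩
  intro T hT h0 hne
  by_cases hvT : v ∈ T
  · have hT' : ((C \ Y) \ T).Nonempty := by
      rw [Finset.nonempty_iff_ne_empty]
      intro h
      exact hne (Finset.Subset.antisymm hT (Finset.sdiff_eq_empty_iff_subset.1 h))
    have hvT' : v ∉ (C \ Y) \ T := fun h => (Finset.mem_sdiff.1 h).2 hvT
    obtain ⟨u, hu, w, hw, huw⟩ := key ((C \ Y) \ T) Finset.sdiff_subset hT' hvT'
    rw [Finset.mem_sdiff] at hw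
    have hwT : w ∈ T := by
      by_contra hwT
      exact hw.2 (Finset.mem_sdiff.2 ⟨hw.1, hwT⟩)
    exact ⟨w, hwT, u, hu, huw.symm⟩
  · exact key T hT h0 hvT

private lemma Split_count (v : V) (m : ℕ) : ∀ (N : ℕ) (Z : Finset V), Z.card = N →
    (∀ Y ⊆ Z, Y.Nonempty → Cn G Y → (∀ u ∈ Y, ∀ w ∈ Z \ Y, ¬ G.Adj u w) →
      Y.card ≤ m ∧ ∃ u ∈ Y, G.Adj v u) →
    Z.card ≤ m * (G.neighborFinset v ∩ Z).card := by
  intro N
  induction N using Nat.strong_induction_on with
  | _ N ih =>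
    intro Z hZN h
    rcases Z.eq_empty_or_nonempty with h0 | h0
    · rw [h0]; simp
    · obtain ⟨Y, hYZ, hY0, hYc, hYe⟩ := exists_comp G h0
      obtain ⟨hYm, u, hu, hvu⟩ := h Y hYZ hY0 hYc hYe
      have hcard : (Z \ Y).card + Y.card = Z.card := Finset.card_sdiff_add_card_eq_card hYZ
      have hYpos : 0 < Y.card := Finset.card_pos.2 hY0
      have h1 : (Z \ Y).card ≤ m * (G.neighborFinset v ∩ (Z \ Y)).card := by
        refine ih (Z \ Y).card (by omega) (Z \ Y) rfl ?_
        intro Y' hY' h0' hc' he'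
        have hY'Z : Y' ⊆ Z := hY'.trans Finset.sdiff_subset
        refine h Y' hY'Z h0' hc' fun a ha b hb hab => ?_
        rw [Finset.mem_sdiff] at hb
        by_cases hbY : b ∈ Y
        · exact hYe b hbY a (hY' ha) hab.symm
        · exact he' a ha b (Finset.mem_sdiff.2 ⟨Finset.mem_sdiff.2 ⟨hb.1, hbY⟩, hb.2⟩) hab
      have h2 : (G.neighborFinset v ∩ (Z \ Y)).card + 1 ≤ (G.neighborFinset v ∩ Z).card := by
        have h3 : insert u (G.neighborFinset v ∩ (Z \ Y)) ⊆ G.neighborFinset v ∩ Z := by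
          intro a ha
          rw [Finset.mem_insert] at ha
          rcases ha with ha | ha
          · subst ha
            exact Finset.mem_inter.2 ⟨(SimpleGraph.mem_neighborFinset G v a).2 hvu, hYZ hu⟩
          · rw [Finset.mem_inter, Finset.mem_sdiff] at ha
            exact Finset.mem_inter.2 ⟨ha.1, ha.2.1⟩
        have h4 : u ∉ G.neighborFinset v ∩ (Z \ Y) := by
          intro h5
          rw [Finset.mem_inter, Finset.mem_sdiff] at h5
          exact h5.2.2 hu
        have h5 := Finset.card_le_card h3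
        rw [Finset.card_insert_of_notMem h4] at h5
        exact h5
      calc Z.card = (Z \ Y).card + Y.card := hcard.symm
        _ ≤ m * (G.neighborFinset v ∩ (Z \ Y)).card + m := Nat.add_le_add h1 hYm
        _ = m * ((G.neighborFinset v ∩ (Z \ Y)).card + 1) := by ring
        _ ≤ m * (G.neighborFinset v ∩ Z).card := Nat.mul_le_mul_left m h2

theorem split {d s : ℕ} (hd : ∀ v, G.degree v ≤ d) (h1 : 1 ≤ d) (hs : 1 ≤ s) {C : Finset V} (hC : Cn G C)
    (hc : d * s < C.card) :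
    ∃ X Y : Finset V, X ∪ Y = C ∧ Disjoint X Y ∧ Cn G X ∧ Cn G Y ∧ s ≤ X.card ∧ s ≤ Y.card := by
  have hC0 : C.Nonempty := by
    rw [← Finset.card_pos]; omega
  obtain ⟨m, rfl⟩ : ∃ m, s = m + 1 := ⟨s - 1, by omega⟩
  obtain ⟨e, rfl⟩ : ∃ e, d = e + 1 := ⟨d - 1, by omega⟩
  have hdv : ∀ v, (G.neighborFinset v).card ≤ e + 1 := fun v => by
    rw [SimpleGraph.card_neighborFinset_eq_degree]; exact hd v
  -- first a suitable set
  have hex : ∃ X ∈ C.powerset.filter fun X => Cn G X ∧ Cn G (C \ X) ∧ (C \ X).Nonempty ∧ m + 1 ≤ X.card,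
      True := by
    obtain ⟨v, hv⟩ := hC0
    by_contra hno
    push Not at hno
    have h2 := Split_count G v m (C.erase v).card (C.erase v) rfl (by
      intro Y hY h0 hYc hYe
      refine ⟨?_, Split_adj G hC hv hY h0 hYe⟩
      by_contra hcard
      refine (hno Y ?_).elim
      rw [Finset.mem_filter, Finset.mem_powerset]
      refine ⟨hY.trans (Finset.erase_subset _ _), hYc, Split_cn G hC hv hY hYe, ⟨v, ?_⟩, by omega⟩
      rw [Finset.mem_sdiff]
      exact ⟨hv, fun h => (Finset.mem_erase.1 (hY h)).1 rfl⟩)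
    have h3 : (G.neighborFinset v ∩ C.erase v).card ≤ e + 1 :=
      (Finset.card_le_card Finset.inter_subset_left).trans (hdv v)
    have h4 : (C.erase v).card ≤ m * (e + 1) := h2.trans (Nat.mul_le_mul_left m h3)
    rw [Finset.card_erase_of_mem hv] at h4
    have h5 : (e + 1) * (m + 1) = m * (e + 1) + (e + 1) := by ring
    omega
  obtain ⟨X₀, hX₀, -⟩ := hex
  obtain ⟨X, hX, hmin⟩ := Finset.exists_min_image _ Finset.card ⟨X₀, hX₀⟩
  rw [Finset.mem_filter, Finset.mem_powerset] at hX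
  obtain ⟨hXC, hXc, hCXc, hCX0, hXs⟩ := hX
  have hX0 : X.Nonempty := by
    rw [← Finset.card_pos]; omega
  have hXne : X ≠ C := by
    intro h
    rw [h, Finset.sdiff_self] at hCX0
    exact absurd hCX0 (by simp)
  obtain ⟨v, hv, w, hw, hvw⟩ := hC X hXC hX0 hXne
  have h2 := Split_count G v m (X.erase v).card (X.erase v) rfl (by
    intro Y hY h0 hYc hYe
    refine ⟨?_, Split_adj G hXc hv hY h0 hYe⟩
    by_contra hcard
    have hYX : Y ⊆ X := hY.trans (Finset.erase_subset _ _)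
    have hvY : v ∉ Y := fun h => (Finset.mem_erase.1 (hY h)).1 rfl
    have hun : C \ Y = (C \ X) ∪ (X \ Y) := by
      ext a
      simp only [Finset.mem_sdiff, Finset.mem_union]
      constructor
      · rintro ⟨ha, hb⟩
        by_cases haX : a ∈ X
        · exact Or.inr ⟨haX, hb⟩
        · exact Or.inl ⟨ha, haX⟩
      · rintro (⟨ha, hb⟩ | ⟨ha, hb⟩)
        · exact ⟨ha, fun h => hb (hYX h)⟩
        · exact ⟨hXC ha, hb⟩
    have hCY : Cn G (C \ Y) := by
      rw [hun]
      exact cn_union G hCXc (Split_cn G hXc hv hY hYe)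
        ⟨w, hw, v, Finset.mem_sdiff.2 ⟨hv, hvY⟩, hvw.symm⟩
    have h6 := hmin Y (by
      rw [Finset.mem_filter, Finset.mem_powerset]
      exact ⟨hYX.trans hXC, hYc, hCY, ⟨v, Finset.mem_sdiff.2 ⟨hXC hv, hvY⟩⟩, by omega⟩)
    have h7 : Y.card < X.card :=
      Finset.card_lt_card (Finset.ssubset_iff_subset_ne.2 ⟨hYX, fun h => hvY (h ▸ hv)⟩)
    omega)
  have hwX : w ∉ X := (Finset.mem_sdiff.1 hw).2
  have h3 : (G.neighborFinset v ∩ X.erase v).card ≤ e := by
    have h4 : G.neighborFinset v ∩ X.erase v ⊆ (G.neighborFinset v).erase w := by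
      intro a ha
      rw [Finset.mem_inter] at ha
      refine Finset.mem_erase.2 ⟨?_, ha.1⟩
      rintro rfl
      exact hwX (Finset.mem_of_mem_erase ha.2)
    have h5 := Finset.card_le_card h4
    rw [Finset.card_erase_of_mem ((SimpleGraph.mem_neighborFinset G v w).2 hvw)] at h5
    have h6 := hdv v
    omega
  have h4 : (X.erase v).card ≤ m * e := h2.trans (Nat.mul_le_mul_left m h3)
  rw [Finset.card_erase_of_mem hv] at h4
  have h5 : (C \ X).card + X.card = C.card := Finset.card_sdiff_add_card_eq_card hXC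
  have h6 : (e + 1) * (m + 1) = m * e + m + e + 1 := by ring
  refine ⟨X, C \ X, Finset.union_sdiff_of_subset hXC, Finset.disjoint_sdiff, hXc, hCXc, hXs, ?_⟩
  omega

end H49.NB
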