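import Pool.Agent.H49.NB.Wa
import Pool.Agent.H49.NB.Wb
import Pool.Agent.H49.NB.Split

/-!
# The energy of a set in a `K`-optimal state

`energy_big`: strong induction on `|C|`. If `|C| ≤ d s ≤ K`: `Small G K C` (`cn_small`). `E G C C ≥ 2 |C| - 2` and `|C| ≥ s` give `s (E - 2|C|) + 2 |C| ≥ 0`. If `C ∩ U = ∅` then `0 ≤ W`.
Otherwise `|C ∩ U| ≥ 1` and `W ≥ - d |C| ≥ - d K` (`W_ge`). If `|C| > d s`: `split` gives `C = X' ∪ Y'`, both connected of size `≥ s`, smaller than `C` (`s ≥ 1`). Add the two inequalities:
`W C ≥ W X' + W Y' - 2 E X' Y'` (`W_union_ge`), `E C C = E X' X' + E Y' Y' + 2 E X' Y'`, and the cardinalities add.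
`energy`: strong induction on `|Z|`. `Z = ∅`: `L = ∅`. Otherwise `C` = a component of `Z` (`exists_comp`), `L'` for `Z \ C`. `W Z = W C + W (Z \ C)` (`W_union_eq`). If `|C| ≥ s` take
`L = L' ∪ C`, `E L L = E L' L' + E C C` (no edges between them), `energy_big`. If `|C| < s` take `L = L'`; `C` is small: `0 ≤ W C` if `C ∩ U = ∅`, else `W C ≥ - d |C| ≥ - d K`
(`|C| ≤ s ≤ d s ≤ K`).
-/

set_option autoImplicit false
set_option linter.unusedSectionVars false

namespace H49.NB

open Finset H97.Int
open scoped Classical symmDiff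

variable {V : Type} [Fintype V] [DecidableEq V] (G : SimpleGraph V) [DecidableRel G.Adj]

/-- a set of size at most `K` which meets `U`, or a small set which avoids it -/
lemma W_low {d K : ℕ} (hd : ∀ v, G.degree v ≤ d) {X U : Finset V} (hX : KOpt G K X U) {C : Finset V}
    (hC : Small G K C) (hc : C.card ≤ K) : -((d : ℤ) * K * (C ∩ U).card) ≤ W G X C := by
  by_cases h : Disjoint C U
  · have h0 := hX C hC h
    have : (0 : ℤ) ≤ (d : ℤ) * K * (C ∩ U).card := by positivity
    linarith
  · have h2 : (1 : ℤ) ≤ (C ∩ U).card := by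
      rw [Finset.not_disjoint_iff_nonempty_inter] at h
      exact_mod_cast Finset.card_pos.2 h
    have h3 := W_ge G hd X C
    have h4 : (C.card : ℤ) ≤ K := by exact_mod_cast hc
    have h5 : (d : ℤ) * C.card ≤ d * K := mul_le_mul_of_nonneg_left h4 (by positivity)
    have h6 : (d : ℤ) * K * 1 ≤ (d : ℤ) * K * (C ∩ U).card :=
      mul_le_mul_of_nonneg_left h2 (by positivity)
    linarith

lemma energy_big {d s K : ℕ} (hd : ∀ v, G.degree v ≤ d) (h1 : 1 ≤ d) (hs : 1 ≤ s) (hK : d * s ≤ K)
    {X U : Finset V} (hX : KOpt G K X U) {C : Finset V} (hC : Cn G C) (hc : s ≤ C.card) :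
    -((s : ℤ) * (E G C C - 2 * C.card) + 2 * C.card) - s * (d * K) * (C ∩ U).card ≤ s * W G X C := by
  induction hm : C.card using Nat.strong_induction_on generalizing C with
  | _ m ih =>
    subst hm
    by_cases hbig : d * s < C.card
    · obtain ⟨Y, Z, hYZ, hdis, hY, hZ, hYs, hZs⟩ := split G hd h1 hs hC hbig
      have hcard : C.card = Y.card + Z.card := by
        rw [← hYZ, Finset.card_union_of_disjoint hdis]
      have iY := ih Y.card (by omega) hY hYs rfl
      have iZ := ih Z.card (by omega) hZ hZs rfl
      have hU : (C ∩ U).card = (Y ∩ U).card + (Z ∩ U).card := by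
        rw [← hYZ, Finset.union_inter_distrib_right, Finset.card_union_of_disjoint]
        exact Finset.disjoint_of_subset_left Finset.inter_subset_left
          (Finset.disjoint_of_subset_right Finset.inter_subset_left hdis)
      have hW := W_union_ge G X hdis
      rw [hYZ] at hW
      have hE : E G C C = E G Y Y + E G Z Z + 2 * E G Y Z := by
        rw [← hYZ, E_union_left G hdis, E_union_right G hdis, E_union_right G hdis, E_symm G Z Y]
        ring
      have hs0 : (0 : ℤ) ≤ s := by positivity
      have hW' : (s : ℤ) * (W G X Y + W G X Z - 2 * E G Y Z) ≤ s * W G X C :=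
        mul_le_mul_of_nonneg_left hW hs0
      rw [hcard, hU, hE]
      push_cast
      nlinarith [iY, iZ, hW']
    · have hcd : C.card ≤ K := by omega
      have hsm : Small G K C := cn_small G hC (by omega)
      have hlow := W_low G hd hX hsm hcd
      have hne : C.Nonempty := by
        rw [← Finset.card_pos]; omega
      have hedge := cn_edges G hC hne
      have hs0 : (0 : ℤ) ≤ s := by positivity
      have h2 : (s : ℤ) * (-2) ≤ s * (E G C C - 2 * C.card) :=
        mul_le_mul_of_nonneg_left (by linarith) hs0
      have h3 : (s : ℤ) ≤ C.card := by exact_mod_cast hc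
      have h4 : (s : ℤ) * (-((d : ℤ) * K * (C ∩ U).card)) ≤ s * W G X C :=
        mul_le_mul_of_nonneg_left hlow hs0
      nlinarith [h2, h3, h4]

theorem energy {d s K : ℕ} (hd : ∀ v, G.degree v ≤ d) (h1 : 1 ≤ d) (hs : 1 ≤ s) (hK : d * s ≤ K)
    {X U : Finset V} (hX : KOpt G K X U) (Z : Finset V) :
    ∃ L ⊆ Z, -((s : ℤ) * (E G L L - 2 * L.card) + 2 * L.card) - s * (d * K) * (Z ∩ U).card ≤
      s * W G X Z := by
  induction hm : Z.card using Nat.strong_induction_on generalizing Z with
  | _ m ih =>
    subst hm
    by_cases hZ : Z.Nonempty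
    · obtain ⟨C, hCZ, hCne, hCn, hno⟩ := exists_comp G hZ
      have hdis : Disjoint C (Z \ C) := Finset.disjoint_sdiff
      have hun : C ∪ (Z \ C) = Z := Finset.union_sdiff_of_subset hCZ
      have hlt : (Z \ C).card < Z.card := by
        have := Finset.card_sdiff_of_subset hCZ
        have h0 := Finset.card_pos.2 hCne
        have h00 := Finset.card_le_card hCZ
        omega
      obtain ⟨L, hL, hLi⟩ := ih (Z \ C).card hlt (Z \ C) rfl
      have hW : W G X Z = W G X C + W G X (Z \ C) := by
        rw [← W_union_eq G X hdis hno, hun]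
      have hU : ((Z ∩ U).card : ℤ) = (C ∩ U).card + ((Z \ C) ∩ U).card := by
        have : Z ∩ U = (C ∩ U) ∪ ((Z \ C) ∩ U) := by
          rw [← Finset.union_inter_distrib_right, hun]
        rw [this, Finset.card_union_of_disjoint]
        · push_cast; ring
        · exact Finset.disjoint_of_subset_left Finset.inter_subset_left
            (Finset.disjoint_of_subset_right Finset.inter_subset_left hdis)
      have hs0 : (0 : ℤ) ≤ s := by positivity
      by_cases hc : s ≤ C.card
      · have hb := energy_big G hd h1 hs hK hX hCn hc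
        have hdL : Disjoint C L := Finset.disjoint_of_subset_right hL hdis
        refine ⟨C ∪ L, ?_, ?_⟩
        · exact Finset.union_subset hCZ (hL.trans Finset.sdiff_subset)
        · have hE0 : E G C L = 0 := by
            unfold E
            refine Finset.sum_eq_zero fun u hu => Finset.sum_eq_zero fun v hv => ?_
            unfold adj
            rw [if_neg (hno u hu v (hL hv))]
          have hE : E G (C ∪ L) (C ∪ L) = E G C C + E G L L := by
            rw [E_union_left G hdL, E_union_right G hdL, E_union_right G hdL, E_symm G L C, hE0]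
            ring
          rw [hE, Finset.card_union_of_disjoint hdL, hU, hW]
          push_cast
          nlinarith [hb, hLi]
      · push Not at hc
        have hsK : s ≤ K := le_trans (Nat.le_mul_of_pos_left s h1) hK
        have hlow := W_low G hd hX (cn_small G hCn (by omega)) (by omega : C.card ≤ K)
        refine ⟨L, hL.trans Finset.sdiff_subset, ?_⟩
        have h4 : (s : ℤ) * (-((d : ℤ) * K * (C ∩ U).card)) ≤ s * W G X C :=
          mul_le_mul_of_nonneg_left hlow hs0
        rw [hU, hW]
        nlinarith [h4, hLi]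
    · rw [Finset.not_nonempty_iff_eq_empty] at hZ
      subst hZ
      refine ⟨∅, subset_rfl, ?_⟩
      rw [W_empty, E_empty_left]
      simp

end H49.NB
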