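import Pool.Agent.H49.NB.RhoBas

/-!
# The final spins are internal in `O`

Let `o ∈ O`, `c = rho o = val o = ±1`, `c' = rho (π o) = val (π o) = ±1`, `t = tn o`, `s = sn o`. The tied `x ∈ bd o` have `rho x = val (root x) = c` (`root_eq`), the others `rho x = spin Y x`,
so by `sum_in` the total is `c * (t * c + s + c') = t + c s + c c'`.
If `Strong o`: `c s = |s| ≥ t + 2`, total `≥ t + t + 2 - 1 ≥ 0`. If not `Strong o` but `Strong (π o)`: `c = sign (sn (π o)) = c'`, so `c c' = 1`, `c s ≥ -|s| ≥ -(t + 1)`, total `≥ 0`. If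
neither: `c = ε o`, `c' = ε (π o) = ε o` (`π (π o) = o`), `c c' = 1`, the same.
-/

set_option autoImplicit false
set_option linter.unusedSectionVars false

namespace H49.NB

open Finset H97.Int
open scoped Classical symmDiff

variable {V : Type} [Fintype V] [DecidableEq V] (G : SimpleGraph V) [DecidableRel G.Adj]

theorem rho_in {O : Finset V} {π : V → V} (hG : Gad G O π) {Y : Finset V} {ε : V → ℤ}
    (hε : ∀ v, ε v = 1 ∨ ε v = -1) (hπ : ∀ o ∈ O, ε (π o) = ε o) {v : V} (hv : v ∈ O) :
    0 ≤ rho G π O Y ε v * ∑ u, adj G v u * rho G π O Y ε u := by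
  have hpi := hG.mem v hv
  have hinv := hG.invol v hv
  have hc : rho G π O Y ε v = val G π O Y ε v := by
    unfold rho
    rw [if_pos hv]
  have hc' : rho G π O Y ε (π v) = val G π O Y ε (π v) := by
    unfold rho
    rw [if_pos hpi]
  have hsum : ∑ u ∈ bd G O v, rho G π O Y ε u =
      tn G O Y v * val G π O Y ε v + sn G O Y v := by
    rw [← sum_filter_add_sum_filter_not (bd G O v) (fun x => Tied G O Y x)]
    congr 1
    · have h1 : ∀ u ∈ (bd G O v).filter (fun x => Tied G O Y x),
          rho G π O Y ε u = val G π O Y ε v := by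
        intro u hu
        obtain ⟨hu1, hu2⟩ := mem_filter.1 hu
        obtain ⟨hu3, hu4⟩ := (mem_bd G).1 hu1
        unfold rho
        rw [if_neg hu4, if_pos hu2, root_eq G hG hu4 hv hu3.symm]
      rw [sum_congr rfl h1, sum_const, nsmul_eq_mul]
      rfl
    · unfold sn
      refine sum_congr rfl fun u hu => ?_
      obtain ⟨hu1, hu2⟩ := mem_filter.1 hu
      obtain ⟨hu3, hu4⟩ := (mem_bd G).1 hu1
      unfold rho
      rw [if_neg hu4, if_neg hu2]
  rw [sum_in G hG hv, hsum, hc, hc']
  have ht := tn_nonneg G O Y v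
  set t := tn G O Y v with htd
  set s := sn G O Y v with hsd
  by_cases h1 : Strong G O Y v
  · have e1 : val G π O Y ε v = (sn G O Y v).sign := by
      unfold val
      rw [if_pos h1]
    obtain ⟨h2, h3⟩ := strong_sign G h1
    have h4 : t + 2 ≤ |s| := h1
    have h5 := val_pm G π (O := O) (Y := Y) hε (π v)
    rw [e1]
    rw [← hsd] at h2 h3 ⊢
    rcases h2 with h2 | h2 <;> rcases h5 with h5 | h5 <;> rw [h2] at h3 ⊢ <;> rw [h5] <;> linarith
  · have h4 : |s| ≤ t + 1 := by
      unfold Strong at h1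
      rw [← htd, ← hsd] at h1
      omega
    have h6 : val G π O Y ε (π v) = val G π O Y ε v := by
      unfold val
      rw [if_neg h1, hinv, if_neg h1]
      by_cases h2 : Strong G O Y (π v)
      · rw [if_pos h2, if_pos h2]
      · rw [if_neg h2, if_neg h2, hπ v hv]
    rw [h6]
    have h5 := val_pm G π (O := O) (Y := Y) hε v
    obtain ⟨h7, h8⟩ := abs_le.1 h4
    rcases h5 with h5 | h5 <;> rw [h5] <;> linarith

end H49.NB
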