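import Pool.Agent.H49.NB.RhoBas

/-!
# The final spins are internal outside `O`

Let `v ∉ O`, `D = W (del G O) Y {v} = spin Y v * ∑_{u ∉ O} adj G v u * spin Y u ≥ 0` (`W_del`, `hY.1`).
(1) `v` has a neighbour `o ∈ O`. No neighbour `u ∉ O` of `v` has a neighbour in `O` (`Gad.nob`), so `rho u = spin Y u` for these `u` (not tied). By `sum_near` the total is
`rho v * (∑_{u ∉ O} adj v u * spin Y u) + rho v * rho o`. If `v` is not tied, `D ≥ 1`, `rho v = spin Y v`, `rho v * rho o ≥ -1`. If `v` is tied, the sum is `0` (as `spin Y v = ±1` and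
`D = 0`), `rho v = val (root v) = val o = rho o` (`root_eq`), so the total is `1`.
(2) `v` has no neighbour in `O`. Then `v` is not tied, `rho v = spin Y v`, `sum_far`. Neighbours `u ∉ O` of `v` which have a neighbour in `O`: at most one, `x` (`Gad.sep`); the others have
`rho u = spin Y u`. If there is no such `x`, or `rho x = spin Y x`, the total is `D ≥ 0`. Otherwise `x` is tied, `rho x = - spin Y x` (`rho_pm`), and the total is `D - 2 * spin Y v * spin Y x`.
If `spin Y v * spin Y x = -1`, fine. If it is `1`: `0 ≤ W (del G O) Y {x, v} = W {x} + W {v} - 2 = D - 2` (`W_pair`, `hY.2`, `(del G O).Adj x v`).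
-/

set_option autoImplicit false
set_option linter.unusedSectionVars false

namespace H49.NB

open Finset H97.Int
open scoped Classical symmDiff

variable {V : Type} [Fintype V] [DecidableEq V] (G : SimpleGraph V) [DecidableRel G.Adj]

/-- the spin of a vertex outside `O` which is not tied -/
private lemma rho_not_tied {O : Finset V} (π : V → V) (Y : Finset V) (ε : V → ℤ) {u : V} (hu : u ∉ O)
    (h : ¬ Tied G O Y u) : rho G π O Y ε u = spin Y u := by
  unfold rho
  rw [if_neg hu, if_neg h]

private lemma spin_pm' (A : Finset V) (v : V) : spin A v = 1 ∨ spin A v = -1 := by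
  unfold spin
  split_ifs
  · exact Or.inl rfl
  · exact Or.inr rfl

theorem rho_out {O : Finset V} {π : V → V} (hG : Gad G O π) {Y : Finset V} (hY : Opt2 (del G O) Y) {ε : V → ℤ}
    (hε : ∀ v, ε v = 1 ∨ ε v = -1) {v : V} (hv : v ∉ O) :
    0 ≤ rho G π O Y ε v * ∑ u, adj G v u * rho G π O Y ε u := by
  have hD : 0 ≤ spin Y v * ∑ u ∈ univ.filter (fun u => u ∉ O), adj G v u * spin Y u := by
    rw [← W_del G Y hv]
    exact hY.1 v
  have hvp := spin_pm' Y v
  by_cases hn : ∃ o ∈ O, G.Adj v o
  · obtain ⟨o, ho, hvo⟩ := hn
    have hsum : ∑ u ∈ univ.filter (fun u => u ∉ O), adj G v u * rho G π O Y ε u =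
        ∑ u ∈ univ.filter (fun u => u ∉ O), adj G v u * spin Y u := by
      refine Finset.sum_congr rfl fun u hu => ?_
      have hu' : u ∉ O := (Finset.mem_filter.1 hu).2
      by_cases ha : G.Adj v u
      · have hnt : ¬ Tied G O Y u := by
          rintro ⟨_, ⟨p, hp, hup⟩, _⟩
          exact hG.nob v hv u hu' o ho p hp hvo hup ha
        rw [rho_not_tied G π Y ε hu' hnt]
      · unfold adj
        rw [if_neg ha, zero_mul, zero_mul]
    rw [sum_near G hG hv ho hvo, hsum, mul_add]
    by_cases ht : Tied G O Y v
    · have h0 : spin Y v * ∑ u ∈ univ.filter (fun u => u ∉ O), adj G v u * spin Y u = 0 := by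
        rw [← W_del G Y hv]
        exact ht.2.2
      have h1 : ∑ u ∈ univ.filter (fun u => u ∉ O), adj G v u * spin Y u = 0 := by
        rcases mul_eq_zero.1 h0 with h | h
        · rcases hvp with h' | h' <;> rw [h'] at h <;> norm_num at h
        · exact h
      have h2 : rho G π O Y ε v = rho G π O Y ε o := by
        have e1 : rho G π O Y ε v = val G π O Y ε (root G O v) := by
          unfold rho
          rw [if_neg hv, if_pos ht]
        have e2 : rho G π O Y ε o = val G π O Y ε o := by
          unfold rho
          rw [if_pos ho]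
        rw [e1, e2, root_eq G hG hv ho hvo]
      rw [h1, mul_zero, zero_add, h2]
      exact mul_self_nonneg _
    · have h0 : spin Y v * ∑ u ∈ univ.filter (fun u => u ∉ O), adj G v u * spin Y u ≠ 0 := by
        intro h
        refine ht ⟨hv, ⟨o, ho, hvo⟩, ?_⟩
        rw [W_del G Y hv]
        exact h
      have h1 : 1 ≤ spin Y v * ∑ u ∈ univ.filter (fun u => u ∉ O), adj G v u * spin Y u := by
        omega
      rw [rho_not_tied G π Y ε hv ht]
      have h2 := rho_pm G π (O := O) (Y := Y) hε o
      rcases hvp with h3 | h3 <;> rcases h2 with h4 | h4 <;> rw [h4] <;> rw [h3] at h1 ⊢ <;> linarith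
  · push Not at hn
    have hvt : ¬ Tied G O Y v := by
      rintro ⟨_, ⟨o, ho, hvo⟩, _⟩
      exact hn o ho hvo
    rw [rho_not_tied G π Y ε hv hvt, sum_far G hn]
    by_cases hx : ∃ x, x ∉ O ∧ G.Adj v x ∧ Tied G O Y x ∧ rho G π O Y ε x ≠ spin Y x
    · obtain ⟨x, hxO, hvx, hxt, hne⟩ := hx
      obtain ⟨_, ⟨o, ho, hxo⟩, hx0⟩ := id hxt
      have hxp := spin_pm' Y x
      have hr : rho G π O Y ε x = - spin Y x := by
        rcases rho_pm G π (O := O) (Y := Y) hε x with h | h <;> rcases hxp with h' | h' <;>
          rw [h, h'] at hne ⊢ <;> first | exact absurd rfl hne | norm_num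
      have hsum : ∑ u ∈ univ.filter (fun u => u ∉ O), adj G v u * rho G π O Y ε u =
          ∑ u ∈ univ.filter (fun u => u ∉ O), adj G v u * spin Y u - 2 * spin Y x := by
        have hterm : ∀ u ∈ univ.filter (fun u => u ∉ O), adj G v u * rho G π O Y ε u =
            adj G v u * spin Y u + (if u = x then - 2 * spin Y x else 0) := by
          intro u hu
          have hu' : u ∉ O := (Finset.mem_filter.1 hu).2
          by_cases ha : G.Adj v u
          · by_cases hux : u = x
            · subst hux
              rw [if_pos rfl, hr]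
              unfold adj
              rw [if_pos ha]
              ring
            · rw [if_neg hux, add_zero]
              have hnt : ¬ Tied G O Y u := by
                rintro ⟨_, ⟨p, hp, hup⟩, _⟩
                exact hux (hG.sep v hv u hu' x hxO p hp o ho ha hvx hup hxo)
              rw [rho_not_tied G π Y ε hu' hnt]
          · have hux : u ≠ x := fun h => ha (h ▸ hvx)
            rw [if_neg hux, add_zero]
            unfold adj
            rw [if_neg ha, zero_mul, zero_mul]
        have hxm : x ∈ univ.filter (fun u => u ∉ O) := Finset.mem_filter.2 ⟨Finset.mem_univ _, hxO⟩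
        have hite : ∑ u ∈ univ.filter (fun u => u ∉ O), (if u = x then - 2 * spin Y x else 0) = - 2 * spin Y x := by
          rw [Finset.sum_ite_eq']
          exact if_pos hxm
        rw [Finset.sum_congr rfl hterm, Finset.sum_add_distrib, hite]
        ring
      rw [hsum, mul_sub]
      have hadj : (del G O).Adj x v := ⟨hvx.symm, hxO, hv⟩
      have h2 := hY.2 x v hadj
      rw [W_pair (del G O) Y hadj, hx0, W_del G Y hv] at h2
      rcases hvp with h3 | h3 <;> rcases hxp with h4 | h4 <;> rw [h3, h4] at h2 ⊢ <;>
        rw [h3] at hD <;> linarith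
    · push Not at hx
      have hsum : ∑ u ∈ univ.filter (fun u => u ∉ O), adj G v u * rho G π O Y ε u =
          ∑ u ∈ univ.filter (fun u => u ∉ O), adj G v u * spin Y u := by
        refine Finset.sum_congr rfl fun u hu => ?_
        have hu' : u ∉ O := (Finset.mem_filter.1 hu).2
        by_cases ha : G.Adj v u
        · by_cases ht : Tied G O Y u
          · rw [hx u hu' ha ht]
          · rw [rho_not_tied G π Y ε hu' ht]
        · unfold adj
          rw [if_neg ha, zero_mul, zero_mul]
      rw [hsum]
      exact hD

end H49.NB
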