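import Pool.Agent.H49.NB.Bal
import Pool.Agent.H49.NB.RhoOut
import Pool.Agent.H49.NB.RhoIn

/-!
# From a state without profitable flips to the partition

`ε` from `bal`; `r v = rho G π O Y ε v = ±1` (`rho_pm`); `A = {v | r v = 1}`. `|A| - |Aᶜ| = ∑ v, r v`. `∑ u, adj G v u * r u = |N(v) ∩ A| - |N(v) ∩ Aᶜ|`, and `0 ≤ r v * ...` by `rho_out`,
`rho_in`. Both parts are nonempty because `n > 2 d`.
-/

set_option autoImplicit false
set_option linter.unusedSectionVars false

namespace H49.NB

open Finset H97.Int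
open scoped Classical symmDiff

variable {V : Type} [Fintype V] [DecidableEq V] (G : SimpleGraph V) [DecidableRel G.Adj]

theorem fin1 {d : ℕ} (hd : ∀ v, G.degree v ≤ d) (hn : 2 * d < Fintype.card V) {O : Finset V} {π : V → V}
    (hG : Gad G O π) {Y : Finset V} (hY : Opt2 (del G O) Y)
    (hM : |Mz G π O Y| ≤ ((flx G π O Y).card : ℤ)) : NearInt G (2 * d) := by
  obtain ⟨ε, hε, hπ, hb⟩ := bal G hd hG hM
  set r : V → ℤ := rho G π O Y ε with hrd
  have hr : ∀ v, r v = 1 ∨ r v = -1 := fun v => rho_pm G π hε v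
  have hint : ∀ v, 0 ≤ r v * ∑ u, adj G v u * r u := fun v => by
    by_cases hv : v ∈ O
    · exact rho_in G hG hε hπ hv
    · exact rho_out G hG hY hε hv
  set A : Finset V := univ.filter fun v => r v = 1 with hA
  have hmem : ∀ v, v ∈ A ↔ r v = 1 := fun v => by simp [hA]
  have hmem' : ∀ v, v ∈ Aᶜ ↔ r v = -1 := fun v => by
    rw [mem_compl, hmem]
    rcases hr v with h | h <;> rw [h] <;> norm_num
  have hsum : ∑ v, r v = (A.card : ℤ) - (Aᶜ.card : ℤ) := by
    rw [← Finset.sum_add_sum_compl A]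
    have h1 : ∑ v ∈ A, r v = (A.card : ℤ) := by
      rw [Finset.sum_congr rfl fun v hv => (hmem v).1 hv]
      simp
    have h2 : ∑ v ∈ Aᶜ, r v = -(Aᶜ.card : ℤ) := by
      rw [Finset.sum_congr rfl fun v hv => (hmem' v).1 hv]
      simp
    rw [h1, h2]; ring
  have hcard : (A.card : ℤ) + (Aᶜ.card : ℤ) = Fintype.card V := by
    have := Finset.card_add_card_compl A
    exact_mod_cast this
  have hn' : (2 * d : ℤ) < Fintype.card V := by exact_mod_cast hn
  have hb' : |(A.card : ℤ) - (Aᶜ.card : ℤ)| ≤ 2 * d := by rw [← hsum]; exact hb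
  have hb2 := abs_le.1 hb'
  have hnb : ∀ v, ∑ u, adj G v u * r u =
      ((G.neighborFinset v ∩ A).card : ℤ) - ((G.neighborFinset v ∩ Aᶜ).card : ℤ) := by
    intro v
    rw [← Finset.sum_add_sum_compl A]
    have h1 : ∑ u ∈ A, adj G v u * r u = ((G.neighborFinset v ∩ A).card : ℤ) := by
      rw [Finset.sum_congr rfl fun u hu => by rw [(hmem u).1 hu, mul_one]]
      have e : G.neighborFinset v ∩ A = A.filter fun u => G.Adj v u := by
        ext u; simp [and_comm]
      rw [e, Finset.card_filter]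
      simp [adj]
    have h2 : ∑ u ∈ Aᶜ, adj G v u * r u = -((G.neighborFinset v ∩ Aᶜ).card : ℤ) := by
      rw [Finset.sum_congr rfl fun u hu => by rw [(hmem' u).1 hu, mul_neg_one], Finset.sum_neg_distrib]
      have e : G.neighborFinset v ∩ Aᶜ = Aᶜ.filter fun u => G.Adj v u := by
        ext u; simp [and_comm]
      rw [e, Finset.card_filter]
      simp [adj]
    rw [h1, h2]; ring
  refine ⟨A, ?_, ?_, by exact_mod_cast hb', fun v => ⟨fun hv => ?_, fun hv => ?_⟩⟩
  · rw [← Finset.card_pos]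
    by_contra h
    have h0 : (A.card : ℤ) = 0 := by
      have : A.card = 0 := by omega
      exact_mod_cast this
    rw [h0] at hcard hb2
    linarith [hb2.1]
  · rw [← Finset.card_pos]
    by_contra h
    have h0 : (Aᶜ.card : ℤ) = 0 := by
      have : Aᶜ.card = 0 := by omega
      exact_mod_cast this
    rw [h0] at hcard hb2
    linarith [hb2.2]
  · have h := hint v
    rw [(hmem v).1 hv, one_mul, hnb v] at h
    have : ((G.neighborFinset v ∩ Aᶜ).card : ℤ) ≤ ((G.neighborFinset v ∩ A).card : ℤ) := by linarith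
    exact_mod_cast this
  · have h := hint v
    have hv' : r v = -1 := (hmem' v).1 (mem_compl.2 hv)
    rw [hv', hnb v] at h
    have : ((G.neighborFinset v ∩ A).card : ℤ) ≤ ((G.neighborFinset v ∩ Aᶜ).card : ℤ) := by linarith
    exact_mod_cast this

end H49.NB
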