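import Pool.Agent.H49.NB.RDefs

/-!
# The sum of the first moments tends to `0`

Let `1 ≤ p ≤ η n`, `η = etd d = 1/(6 d (36 d)^5)`, `m = p + j`, `j = p / 5 + 1` (so `5 j ≥ p`, `j ≥ 1`). `n.choose p ≤ n^p/p! ≤ (3 n/p)^p` (`Nat.choose_le_pow_div`, `p^p/p! ≤ e^p ≤ 3^p`:
`Real.pow_div_factorial_le_exp`), `(p * p).choose m ≤ (p²)^m/m! ≤ (3 p²/m)^m ≤ (3 p)^m`. With `b = 6 d p/n ≤ 6 d η = (36 d)^(-5) ≤ 1`: `fm n d p ≤ (3 n/p)^p b^m = (18 d)^p b^j`.
(1) `fm n d p ≤ (18 d)^p (36 d)^(-5 j) ≤ (18 d)^p (36 d)^(-p) = 2^(-p)`. (2) `fm n d p ≤ (18 d)^p b`. Given `ε` take `p₀` with `2^(-p₀) ≤ ε/2`, so that `∑_{p > p₀} 2^(-p) ≤ ε/2`; the terms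
`p ≤ p₀` add up to at most `p₀ (18 d)^p₀ 6 d p₀/n ≤ ε/2` for large `n`.
-/

set_option autoImplicit false
set_option linter.unusedSectionVars false

namespace H49.NB

open Finset
open scoped Classical

private lemma pow_le_fact (m : ℕ) : (m : ℝ) ^ m ≤ 3 ^ m * (m.factorial : ℝ) := by
  have h1 := Real.pow_div_factorial_le_exp (x := (m : ℝ)) (Nat.cast_nonneg m) m
  have hf : (0 : ℝ) < (m.factorial : ℝ) := by exact_mod_cast Nat.factorial_pos m
  rw [div_le_iff₀ hf] at h1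
  refine h1.trans (mul_le_mul_of_nonneg_right ?_ hf.le)
  rw [← Real.exp_one_pow]
  exact pow_le_pow_left₀ (Real.exp_pos 1).le (le_of_lt (lt_trans Real.exp_one_lt_d9 (by norm_num))) m

private lemma choose_le' {N m : ℕ} (hm : 1 ≤ m) : (N.choose m : ℝ) ≤ (3 * N / m) ^ m := by
  have h1 : (N.choose m : ℝ) ≤ (N : ℝ) ^ m / (m.factorial : ℝ) := Nat.choose_le_pow_div m N
  have hf : (0 : ℝ) < (m.factorial : ℝ) := by exact_mod_cast Nat.factorial_pos m
  have hm' : (0 : ℝ) < (m : ℝ) := by exact_mod_cast hm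
  refine h1.trans ?_
  rw [div_pow, div_le_div_iff₀ hf (pow_pos hm' m), mul_pow]
  have h2 := pow_le_fact m
  have h3 : (0 : ℝ) ≤ (N : ℝ) ^ m := by positivity
  calc (N : ℝ) ^ m * (m : ℝ) ^ m ≤ (N : ℝ) ^ m * (3 ^ m * (m.factorial : ℝ)) :=
        mul_le_mul_of_nonneg_left h2 h3
    _ = 3 ^ m * (N : ℝ) ^ m * (m.factorial : ℝ) := by ring

private lemma fm_core {n d p : ℕ} (hn : 0 < n) (hp : 1 ≤ p) :
    fm n d p ≤ (18 * d) ^ p * (6 * d * p / n) ^ (p / 5 + 1) := by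
  have hn' : (0 : ℝ) < n := by exact_mod_cast hn
  have hp' : (0 : ℝ) < p := by exact_mod_cast hp
  set j : ℕ := p / 5 + 1 with hj
  have hm : p + p / 5 + 1 = p + j := by omega
  unfold fm
  rw [hm]
  have h1 : (n.choose p : ℝ) ≤ (3 * n / p) ^ p := choose_le' hp
  have h2 : ((p * p).choose (p + j) : ℝ) ≤ (3 * p) ^ (p + j) := by
    refine (choose_le' (by omega)).trans (pow_le_pow_left₀ (by positivity) ?_ _)
    have hpj : (0 : ℝ) < ((p + j : ℕ) : ℝ) := by exact_mod_cast (by omega : 0 < p + j)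
    rw [div_le_iff₀ hpj]
    push_cast
    nlinarith [Nat.cast_nonneg (α := ℝ) j]
  have h3 : (0 : ℝ) ≤ (2 * d / n) ^ (p + j) := by positivity
  calc (n.choose p : ℝ) * ((p * p).choose (p + j) : ℝ) * (2 * d / n) ^ (p + j)
      ≤ (3 * n / p) ^ p * (3 * p) ^ (p + j) * (2 * d / n) ^ (p + j) :=
        mul_le_mul_of_nonneg_right (mul_le_mul h1 h2 (by positivity) (by positivity)) h3
    _ = (3 * n / p) ^ p * ((3 * p) * (2 * d / n)) ^ (p + j) := by rw [mul_assoc, ← mul_pow]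
    _ = (3 * n / p) ^ p * ((3 * p) * (2 * d / n)) ^ p * ((3 * p) * (2 * d / n)) ^ j := by
        rw [pow_add, mul_assoc ((3 * (n : ℝ) / p) ^ p)]
    _ = ((3 * n / p) * ((3 * p) * (2 * d / n))) ^ p * ((3 * p) * (2 * d / n)) ^ j := by
        rw [← mul_pow]
    _ = (18 * d) ^ p * (6 * d * p / n) ^ j := by
        congr 2
        · field_simp
          ring
        · ring

private lemma fm_nonneg (n d p : ℕ) : 0 ≤ fm n d p := by
  unfold fm
  positivity

lemma fm_le {n d p : ℕ} (h1 : 1 ≤ d) (hp : 1 ≤ p) (hpn : (p : ℝ) ≤ etd d * n) :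
    fm n d p ≤ (1 / 2) ^ p ∧ fm n d p ≤ (18 * d) ^ p * (6 * d * p / n) := by
  have hd : (1 : ℝ) ≤ d := by exact_mod_cast h1
  have hp' : (0 : ℝ) < p := by exact_mod_cast hp
  have hn : 0 < n := by
    rcases Nat.eq_zero_or_pos n with h | h
    · subst h
      simp only [Nat.cast_zero, mul_zero] at hpn
      linarith
    · exact h
  have hn' : (0 : ℝ) < n := by exact_mod_cast hn
  have hcore := fm_core (d := d) hn hp
  set b : ℝ := 6 * d * p / n with hb
  have hb0 : 0 ≤ b := by positivity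
  have h36 : (0 : ℝ) < 36 * d := by linarith
  have hb1 : b ≤ 1 / (36 * d) ^ 5 := by
    rw [hb, div_le_iff₀ hn']
    have h2 : 6 * d * (p : ℝ) ≤ 6 * d * (etd d * n) := mul_le_mul_of_nonneg_left hpn (by positivity)
    refine h2.trans (le_of_eq ?_)
    unfold etd
    field_simp
  have hβ1 : 1 / (36 * (d : ℝ)) ^ 5 ≤ 1 := by
    rw [div_le_one (by positivity)]
    exact one_le_pow₀ (by linarith)
  constructor
  · refine hcore.trans ?_
    have h3 : b ^ (p / 5 + 1) ≤ (1 / (36 * (d : ℝ))) ^ p := by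
      calc b ^ (p / 5 + 1) ≤ (1 / (36 * (d : ℝ)) ^ 5) ^ (p / 5 + 1) := pow_le_pow_left₀ hb0 hb1 _
        _ = (1 / (36 * (d : ℝ))) ^ (5 * (p / 5 + 1)) := by
            rw [pow_mul, one_div_pow (36 * (d : ℝ)) 5]
        _ ≤ (1 / (36 * (d : ℝ))) ^ p := by
            refine pow_le_pow_of_le_one (by positivity) ?_ (by omega)
            rw [div_le_one h36]
            linarith
    calc (18 * (d : ℝ)) ^ p * b ^ (p / 5 + 1) ≤ (18 * (d : ℝ)) ^ p * (1 / (36 * (d : ℝ))) ^ p :=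
          mul_le_mul_of_nonneg_left h3 (by positivity)
      _ = (18 * (d : ℝ) * (1 / (36 * (d : ℝ)))) ^ p := (mul_pow _ _ _).symm
      _ = (1 / 2) ^ p := by
          congr 1
          field_simp
          norm_num
  · refine hcore.trans (mul_le_mul_of_nonneg_left ?_ (by positivity))
    calc b ^ (p / 5 + 1) ≤ b ^ 1 := pow_le_pow_of_le_one hb0 (hb1.trans hβ1) (by omega)
      _ = b := pow_one b

theorem fmAn (d : ℕ) (h1 : 1 ≤ d) (ε : ℝ) (hε : 0 < ε) :
    ∃ n₀ : ℕ, ∀ n ≥ n₀, ∑ p ∈ Icc 1 ⌊etd d * n⌋₊, fm n d p ≤ ε := by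
  set f : ℕ → ℕ → ℝ := fun n p => if p ∈ Icc 1 ⌊etd d * n⌋₊ then fm n d p else 0 with hf
  have hetd : 0 ≤ etd d := by unfold etd; positivity
  have hmem : ∀ {n p : ℕ}, p ∈ Icc 1 ⌊etd d * n⌋₊ → 1 ≤ p ∧ (p : ℝ) ≤ etd d * n := by
    intro n p hp
    rw [mem_Icc] at hp
    refine ⟨hp.1, ?_⟩
    have h2 : ((⌊etd d * n⌋₊ : ℕ) : ℝ) ≤ etd d * n := Nat.floor_le (by positivity)
    exact le_trans (by exact_mod_cast hp.2) h2
  have hf0 : ∀ n p, 0 ≤ f n p := by
    intro n p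
    simp only [hf]
    split_ifs
    · exact fm_nonneg n d p
    · exact le_rfl
  have hlim : Filter.Tendsto (fun n => ∑' p, f n p) Filter.atTop (nhds (∑' _p : ℕ, (0 : ℝ))) := by
    refine tendsto_tsum_of_dominated_convergence (bound := fun p : ℕ => (1 / 2 : ℝ) ^ p)
      (summable_geometric_of_lt_one (by norm_num) (by norm_num)) ?_ ?_
    · intro p
      refine squeeze_zero (fun n => hf0 n p) (g := fun n : ℕ => (18 * d) ^ p * (6 * d * p / n)) ?_ ?_
      · intro n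
        simp only [hf]
        split_ifs with h
        · exact (fm_le h1 (hmem h).1 (hmem h).2).2
        · positivity
      · have h2 : Filter.Tendsto (fun n : ℕ => (6 * (d : ℝ) * p) / (n : ℝ)) Filter.atTop (nhds 0) :=
          tendsto_const_div_atTop_nhds_zero_nat _
        have h3 := h2.const_mul ((18 * (d : ℝ)) ^ p)
        rwa [mul_zero] at h3
    · refine Filter.Eventually.of_forall fun n p => ?_
      rw [Real.norm_eq_abs, abs_of_nonneg (hf0 n p)]
      simp only [hf]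
      split_ifs with h
      · exact (fm_le h1 (hmem h).1 (hmem h).2).1
      · positivity
  rw [tsum_zero] at hlim
  have hev := hlim.eventually (gt_mem_nhds hε)
  obtain ⟨n₀, hn₀⟩ := Filter.eventually_atTop.1 hev
  refine ⟨n₀, fun n hn => ?_⟩
  have h4 := (hn₀ n hn).le
  refine le_trans (le_of_eq ?_) h4
  rw [tsum_eq_sum (s := Icc 1 ⌊etd d * n⌋₊) (fun p hp => by simp only [hf, if_neg hp])]
  refine sum_congr rfl fun p hp => ?_
  simp only [hf, if_pos hp]

end H49.NB
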