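import Pool.Agent.H49.NB.Iter
import Pool.Agent.H49.NB.CyA

/-!
# First moments: vertices on short cycles

For an injective `f : Fin (k + 3) → Fin n` the set `F_f = {s(f i, f (i + 1))}` has `k + 3` elements (`cyc_card`: if `s(f i, f (i+1)) = s(f j, f (j+1))` then `i = j`, or `i = j + 1` and
`i + 1 = j`, so `2 = 0` in `Fin (k + 3)`, impossible). `iter`: `#{G ∈ Reg n d | F_f ⊆ G} ≤ (2 d/n)^(k+3) #(Reg n d)`. By `not_clean`
`#{v | ¬ Clean G L v} ≤ ∑_{k < L} #{f injective | F_f ⊆ G}`; sum over `G`, exchange the sums, and use that there are at most `n^(k+3)` functions `f`.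
-/

set_option autoImplicit false
set_option linter.unusedSectionVars false

namespace H49.NB

open Finset H97.Int
open scoped Classical

lemma cyc_card {n k : ℕ} {f : Fin (k + 3) → Fin n} (hf : Function.Injective f) :
    (univ.image fun i : Fin (k + 3) => s(f i, f (i + 1))).card = k + 3 := by
  rw [card_image_of_injective, card_univ, Fintype.card_fin]
  intro i j hij
  simp only [Sym2.eq_iff] at hij
  rcases hij with ⟨h, -⟩ | ⟨h1, h2⟩
  · exact hf h
  · exfalso
    have e1 : i = j + 1 := hf h1
    have e2 : i + 1 = j := hf h2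
    rw [e1] at e2
    have e3 : (1 + 1 : Fin (k + 3)) = 0 := by
      have e4 : j + (1 + 1) = j + 0 := by rw [← add_assoc, e2, add_zero]
      exact add_left_cancel e4
    have e5 : ((1 + 1 : Fin (k + 3)) : ℕ) = 0 := by rw [e3]; rfl
    rw [Fin.val_add, Fin.val_one] at e5
    rw [Nat.mod_eq_of_lt (by omega)] at e5
    omega

private lemma FmL_one {n d L : ℕ} (G : SimpleGraph (Fin n)) :
    (univ.filter fun v : Fin n => ¬ Clean G L v).card ≤
      ∑ k ∈ range L, ∑ f : Fin (k + 3) → Fin n,
        if Function.Injective f ∧ ∀ e ∈ (univ.image fun i : Fin (k + 3) => s(f i, f (i + 1))),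
          e ∈ G.edgeSet then 1 else 0 := by
  have h1 : (univ.filter fun v : Fin n => ¬ Clean G L v) ⊆
      (range L).biUnion fun k => (univ.filter fun f : Fin (k + 3) → Fin n =>
        Function.Injective f ∧ ∀ e ∈ (univ.image fun i : Fin (k + 3) => s(f i, f (i + 1))),
          e ∈ G.edgeSet).image fun f => f 0 := by
    intro v hv
    have hv' := (mem_filter.1 hv).2
    obtain ⟨k, hk, f, hf, hf0, hadj⟩ := not_clean G hv'
    rw [mem_biUnion]
    refine ⟨k, mem_range.2 hk, ?_⟩
    rw [mem_image]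
    refine ⟨f, mem_filter.2 ⟨mem_univ _, hf, ?_⟩, hf0⟩
    intro e he
    obtain ⟨i, -, rfl⟩ := mem_image.1 he
    exact (SimpleGraph.mem_edgeSet G).2 (hadj i)
  refine (card_le_card h1).trans (card_biUnion_le.trans (sum_le_sum fun k _ => ?_))
  refine card_image_le.trans ?_
  rw [card_filter]

theorem fmL {n d L : ℕ} (h0 : 1 ≤ n) (hn : 4 * (L + 2) + 4 * d * (d + 1) ≤ n * d) :
    ∑ G ∈ Reg n d, (univ.filter fun v : Fin n => ¬ Clean G L v).card ≤
      (∑ k ∈ range L, (2 * d) ^ (k + 3)) * (Reg n d).card := by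
  refine (sum_le_sum fun G _ => FmL_one (d := d) (L := L) G).trans ?_
  rw [sum_comm, sum_mul]
  refine sum_le_sum fun k hk => ?_
  rw [sum_comm]
  have hk' := mem_range.1 hk
  have h2 : ∀ f : Fin (k + 3) → Fin n, n ^ (k + 3) * (∑ G ∈ Reg n d,
      if Function.Injective f ∧ ∀ e ∈ (univ.image fun i : Fin (k + 3) => s(f i, f (i + 1))),
          e ∈ G.edgeSet then 1 else 0) ≤ (2 * d) ^ (k + 3) * (Reg n d).card := by
    intro f
    by_cases hf : Function.Injective f
    · have h3 := iter (d := d) (univ.image fun i : Fin (k + 3) => s(f i, f (i + 1)))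
        (by rw [cyc_card hf]; omega)
      rw [cyc_card hf] at h3
      refine le_trans (le_of_eq ?_) h3
      rw [RegF, card_filter]
      simp only [hf, true_and]
    · simp only [hf, false_and, if_false, sum_const_zero, mul_zero]
      exact Nat.zero_le _
  have h4 : n ^ (k + 3) * (∑ f : Fin (k + 3) → Fin n, ∑ G ∈ Reg n d,
      if Function.Injective f ∧ ∀ e ∈ (univ.image fun i : Fin (k + 3) => s(f i, f (i + 1))),
          e ∈ G.edgeSet then 1 else 0) ≤ n ^ (k + 3) * ((2 * d) ^ (k + 3) * (Reg n d).card) := by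
    rw [mul_sum]
    refine (sum_le_sum fun f _ => h2 f).trans (le_of_eq ?_)
    rw [sum_const, card_univ, Fintype.card_fun, Fintype.card_fin, Fintype.card_fin, smul_eq_mul]
  exact Nat.le_of_mul_le_mul_left h4 (pow_pos (by omega) _)

end H49.NB
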