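import Pool.Agent.H49.NB.FmS
import Pool.Agent.H49.NB.FmAn
import Pool.Agent.H49.NB.FmL

/-!
# Almost all regular graphs are locally sparse and have few short cycles

(S) If `Spr G (etd d) (1/5)` fails there is `P`, `|P| ≤ etd d * n`, `E G P P > (12/5)|P|`; `fmS` (with `η = etd d ≤ 1/16`) and `fmAn` with `ε/2`.
(L) If `#{v | (∃ u, G.Adj v u) ∧ ∀ u ∈ nbr G {v}, Clean G L u} < n/2`, then (all degrees are `d ≥ 1`) more than `n/2` vertices are in `nbr G B`, `B = {v | ¬ Clean G L v}`, so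
`(d + 1)|B| > n/2` (`card_nbr_le`). By `fmL` the number of such `G` is at most `2 (d+1) (∑_{k<L} (2d)^(k+3)) #Reg/n ≤ (ε/2) #Reg` for large `n`.
-/

set_option autoImplicit false
set_option linter.unusedSectionVars false

namespace H49.NB

open Finset H97.Int
open scoped Classical

theorem whp (d : ℕ) (h1 : 1 ≤ d) (L : ℕ) (ε : ℝ) (hε : 0 < ε) : ∃ n₀ : ℕ, ∀ n ≥ n₀,
    (((Reg n d).filter fun G => ¬ (Spr G (etd d) (1 / 5) ∧
      (1 / 2 : ℝ) * Fintype.card (Fin n) ≤
        ((univ.filter fun v => (∃ u, G.Adj v u) ∧ ∀ u ∈ nbr G {v}, Clean G L u).card : ℝ))).card : ℝ) ≤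
      ε * (Reg n d).card := by
  obtain ⟨n₁, hn₁⟩ := fmAn d h1 (ε / 2) (by positivity)
  set S : ℕ := ∑ k ∈ range L, (2 * d) ^ (k + 3) with hS
  obtain ⟨n₂, hn₂⟩ := exists_nat_gt (4 * (d + 1) * S / ε)
  refine ⟨max n₁ (max n₂ (4 * (L + 2) + 8 + 8 * d * (d + 1))), fun n hn => ?_⟩
  have hnn₁ : n₁ ≤ n := (le_max_left _ _).trans hn
  have hnn₂ : n₂ ≤ n := ((le_max_left _ _).trans (le_max_right _ _)).trans hn
  have hnn₃ : 4 * (L + 2) + 8 + 8 * d * (d + 1) ≤ n := ((le_max_right _ _).trans (le_max_right _ _)).trans hn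
  have hnpos : 0 < n := by omega
  have hn0 : (0 : ℝ) < n := by exact_mod_cast hnpos
  have hetd : 16 * etd d ≤ 1 := by
    unfold etd
    have hd1 : (1 : ℝ) ≤ d := by exact_mod_cast h1
    have h2 : (1 : ℝ) ≤ (36 * (d : ℝ)) ^ 5 := one_le_pow₀ (by linarith)
    have h36 : (36 : ℝ) ^ 5 ≤ (36 * (d : ℝ)) ^ 5 := pow_le_pow_left₀ (by norm_num) (by linarith) 5
    rw [mul_one_div, div_le_one (by positivity)]
    nlinarith
  have hS1 := fmS (n := n) (d := d) h1 hetd (by omega)
  have hS2 := hn₁ n hnn₁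
  have hLs := fmL (n := n) (d := d) (L := L) (by omega) (by nlinarith)
  set A1 := (Reg n d).filter fun G => ∃ P : Finset (Fin n), (P.card : ℝ) ≤ etd d * n ∧
      12 * (P.card : ℤ) < 5 * E G P P with hA1
  set B1 := (Reg n d).filter fun G => ¬ ((1 / 2 : ℝ) * Fintype.card (Fin n) ≤
        ((univ.filter fun v => (∃ u, G.Adj v u) ∧ ∀ u ∈ nbr G {v}, Clean G L u).card : ℝ)) with hB1
  have hsub : ((Reg n d).filter fun G => ¬ (Spr G (etd d) (1 / 5) ∧
      (1 / 2 : ℝ) * Fintype.card (Fin n) ≤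
        ((univ.filter fun v => (∃ u, G.Adj v u) ∧ ∀ u ∈ nbr G {v}, Clean G L u).card : ℝ))) ⊆ A1 ∪ B1 := by
    intro G hG
    rw [mem_filter] at hG
    obtain ⟨hG1, hG2⟩ := hG
    rw [mem_union]
    by_cases hsp : Spr G (etd d) (1 / 5)
    · right
      rw [hB1, mem_filter]
      exact ⟨hG1, fun h => hG2 ⟨hsp, h⟩⟩
    · left
      rw [hA1, mem_filter]
      refine ⟨hG1, ?_⟩
      unfold Spr at hsp
      push Not at hsp
      obtain ⟨P, hP1, hP2⟩ := hsp
      refine ⟨P, by simpa using hP1, ?_⟩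
      have h3 : 12 * (P.card : ℝ) < 5 * (E G P P : ℝ) := by linarith
      exact_mod_cast h3
  have hA : (A1.card : ℝ) ≤ ε / 2 * (Reg n d).card :=
    hS1.trans (mul_le_mul_of_nonneg_right hS2 (Nat.cast_nonneg _))
  have hBG : ∀ G ∈ B1, (n : ℝ) ≤ 2 * (d + 1) * ((univ.filter fun v : Fin n => ¬ Clean G L v).card : ℝ) := by
    intro G hG
    rw [hB1, mem_filter] at hG
    obtain ⟨hG1, hG2⟩ := hG
    rw [not_le, Fintype.card_fin] at hG2
    set g := univ.filter fun v => (∃ u, G.Adj v u) ∧ ∀ u ∈ nbr G {v}, Clean G L u with hg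
    set B := univ.filter fun v : Fin n => ¬ Clean G L v with hB
    have hdeg : ∀ v, G.degree v ≤ d := fun v => (degree_Reg hG1 v).le
    have hsub2 : gᶜ ⊆ nbr G B := by
      intro v hv
      rw [mem_compl, hg, mem_filter] at hv
      have hex : ∃ u, G.Adj v u := by
        have h2 := mem_Reg.1 hG1 v
        have h3 : (univ.filter fun u => G.Adj v u).Nonempty := by
          rw [← card_pos, h2]; omega
        obtain ⟨u, hu⟩ := h3
        exact ⟨u, (mem_filter.1 hu).2⟩
      have h4 : ¬ ∀ u ∈ nbr G {v}, Clean G L u := fun h => hv ⟨mem_univ _, hex, h⟩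
      push Not at h4
      obtain ⟨u, hu, hcu⟩ := h4
      have huB : u ∈ B := by rw [hB, mem_filter]; exact ⟨mem_univ _, hcu⟩
      rw [mem_nbr] at hu ⊢
      rcases hu with hu | ⟨w, hw, hadj⟩
      · rw [mem_singleton] at hu
        left; rw [← hu]; exact huB
      · rw [mem_singleton] at hw
        right
        exact ⟨u, huB, by rw [hw] at hadj; exact hadj.symm⟩
    have h5 := card_le_card hsub2
    have h6 := card_nbr_le G hdeg B
    have h7 : gᶜ.card + g.card = n := by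
      have := card_compl_add_card g
      rwa [Fintype.card_fin] at this
    have h8 : (gᶜ.card : ℝ) + g.card = n := by exact_mod_cast h7
    have h9 : (gᶜ.card : ℝ) ≤ (d + 1) * B.card := by exact_mod_cast h5.trans h6
    linarith
  have hBs : (n : ℝ) * B1.card ≤ 2 * (d + 1) * (S * (Reg n d).card) := by
    have h2 : (n : ℝ) * B1.card ≤ ∑ G ∈ B1, 2 * (d + 1) * ((univ.filter fun v : Fin n => ¬ Clean G L v).card : ℝ) := by
      rw [mul_comm, ← nsmul_eq_mul, ← sum_const]
      exact sum_le_sum hBG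
    refine h2.trans ?_
    rw [← mul_sum]
    refine mul_le_mul_of_nonneg_left ?_ (by positivity)
    have h3 : ∑ G ∈ B1, (univ.filter fun v : Fin n => ¬ Clean G L v).card ≤
        ∑ G ∈ Reg n d, (univ.filter fun v : Fin n => ¬ Clean G L v).card :=
      sum_le_sum_of_subset (filter_subset _ _)
    have h4 := h3.trans hLs
    exact_mod_cast h4
  have hB : (B1.card : ℝ) ≤ ε / 2 * (Reg n d).card := by
    have h2 : 4 * (d + 1) * (S : ℝ) ≤ ε * n := by
      have h3 : 4 * (d + 1) * (S : ℝ) / ε < n := hn₂.trans_le (by exact_mod_cast hnn₂)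
      rw [div_lt_iff₀ hε] at h3
      linarith
    have h3 : (n : ℝ) * B1.card ≤ n * (ε / 2 * (Reg n d).card) := by
      refine hBs.trans ?_
      have h4 : (0 : ℝ) ≤ (Reg n d).card := Nat.cast_nonneg _
      nlinarith [mul_le_mul_of_nonneg_right h2 h4]
    exact le_of_mul_le_mul_left h3 hn0
  have hcard := card_le_card hsub
  have hcu := card_union_le A1 B1
  have h2 : (((Reg n d).filter fun G => ¬ (Spr G (etd d) (1 / 5) ∧
      (1 / 2 : ℝ) * Fintype.card (Fin n) ≤
        ((univ.filter fun v => (∃ u, G.Adj v u) ∧ ∀ u ∈ nbr G {v}, Clean G L u).card : ℝ))).card : ℝ) ≤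
      A1.card + B1.card := by exact_mod_cast hcard.trans hcu
  linarith

end H49.NB
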