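import Pool.Agent.H49.NB.Main
import Pool.Agent.H49.NB.Whp

/-!
# Almost all regular graphs have internal partitions with parts of almost equal size

`main d h1 (1/2) (etd d) (1/5)` gives `L, n₁`; `whp d h1 L ε` gives `n₂`.
-/

set_option autoImplicit false
set_option linter.unusedSectionVars false

namespace H49.NB

open Finset H97.Int
open scoped Classical

theorem finC (d : ℕ) (h1 : 1 ≤ d) (ε : ℝ) (hε : 0 < ε) : ∃ n₀ : ℕ, ∀ n ≥ n₀,
    (((Reg n d).filter fun G => ¬ NearInt G (2 * d)).card : ℝ) ≤ ε * (Reg n d).card := by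
  have hη : 0 < etd d := by
    unfold etd
    have : (0 : ℝ) < d := by exact_mod_cast h1
    positivity
  obtain ⟨L, n₁, hL⟩ := main d h1 (1 / 2) (etd d) (1 / 5) (by norm_num) hη (by norm_num)
  obtain ⟨n₂, h₂⟩ := whp d h1 L ε hε
  refine ⟨max n₁ n₂, fun n hn => ?_⟩
  refine le_trans ?_ (h₂ n (le_trans (le_max_right _ _) hn))
  have hsub : ((Reg n d).filter fun G => ¬ NearInt G (2 * d)) ⊆
      (Reg n d).filter fun G => ¬ (Spr G (etd d) (1 / 5) ∧
      (1 / 2 : ℝ) * Fintype.card (Fin n) ≤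
        ((univ.filter fun v => (∃ u, G.Adj v u) ∧ ∀ u ∈ nbr G {v}, Clean G L u).card : ℝ)) := by
    intro G hG
    rw [Finset.mem_filter] at hG ⊢
    refine ⟨hG.1, fun hcon => hG.2 ?_⟩
    refine hL (Fin n) G (fun v => (degree_Reg hG.1 v).le) ?_ hcon.1 (by convert hcon.2)
    rw [Fintype.card_fin]
    exact le_trans (le_max_left _ _) hn
  exact_mod_cast Finset.card_le_card hsub

end H49.NB
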