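import Pool.Agent.H49.NB.FinC
import Pool.Agent.H49.NB.E1Main

/-!
# Almost all regular graphs of even degree have internal bisections

Copy of the proof of `finC` with `main1` in place of `main` (`Even d` gives `Even (G.degree v)` by `degree_Reg`); for odd `d` it is `finC`.
-/

set_option autoImplicit false
set_option linter.unusedSectionVars false

namespace H49.NB

open Finset H97.Int
open scoped Classical

theorem finD (d : ℕ) (h1 : 1 ≤ d) (ε : ℝ) (hε : 0 < ε) : ∃ n₀ : ℕ, ∀ n ≥ n₀,
    (((Reg n d).filter fun G => ¬ NearInt G (if Even d then 1 else 2 * d)).card : ℝ) ≤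
      ε * (Reg n d).card := by
  by_cases hd : Even d
  · simp only [if_pos hd]
    have hη : 0 < etd d := by
      unfold etd
      have : (0 : ℝ) < d := by exact_mod_cast h1
      positivity
    obtain ⟨L, n₁, hL⟩ := main1 d h1 (1 / 2) (etd d) (1 / 5) (by norm_num) hη (by norm_num)
    obtain ⟨n₂, h₂⟩ := whp d h1 L ε hε
    refine ⟨max n₁ n₂, fun n hn => ?_⟩
    refine le_trans ?_ (h₂ n (le_trans (le_max_right _ _) hn))
    have hsub : ((Reg n d).filter fun G => ¬ NearInt G 1) ⊆
        (Reg n d).filter fun G => ¬ (Spr G (etd d) (1 / 5) ∧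
        (1 / 2 : ℝ) * Fintype.card (Fin n) ≤
          ((univ.filter fun v => (∃ u, G.Adj v u) ∧ ∀ u ∈ nbr G {v}, Clean G L u).card : ℝ)) := by
      intro G hG
      rw [Finset.mem_filter] at hG ⊢
      refine ⟨hG.1, fun hcon => hG.2 ?_⟩
      refine hL (Fin n) G (fun v => (degree_Reg hG.1 v).le)
        (fun v => by rw [degree_Reg hG.1 v]; exact hd) ?_ hcon.1 (by convert hcon.2)
      rw [Fintype.card_fin]
      exact le_trans (le_max_left _ _) hn
    exact_mod_cast Finset.card_le_card hsub
  · simp only [if_neg hd]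
    exact finC d h1 ε hε

end H49.NB
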