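import Pool.Agent.H49.NB.RhoBas

/-!
# Existence of gadgets

`J ⊆ Q` maximal (for `card`) such that `p ∉ nb G 8 {o}` for different `o, p ∈ J`. Then `Q ⊆ ⋃_{o ∈ J} nb G 8 {o} = nb G 8 J`, so `|Q| ≤ (d + 1)^8 |J|`. `w o` = a neighbour of `o` (for
`o ∈ J`), `O = J ∪ w(J)`; `π v = w v` if `v ∈ J`, else `π v` = the (unique) `o ∈ J` with `w o = v`. For `v ∈ O` let `b v ∈ J` be its base (`v = b v` or `v = w (b v)`; they are different
for different bases, since `w o ∈ nb G 1 {o}`). Two vertices of `O` with different bases have distance `≥ 7`: `p ∉ nb G 6 {o}` (otherwise `b p ∈ nb G 8 {b o}`). All vertices of `O` are clean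
(`hQ`, `nbr`).
Facts for one gadget `{o, o'}`, `o' = π o`, `x, y ∉ O`, `del G {o}` contains all edges of `G` not at `o`, and `L ≥ 2 R + 3 ≥ 3`:
 - `x` adjacent to `o` and `o'`: `o' ∈ nb (del G {o}) 1 {x}`, against `Clean o`;
 - `y` adjacent to `x₁ ≠ x₂`, both adjacent to `o`: `x₂ ∈ nb (del G {o}) 2 {x₁}`; `x₁` adjacent to `o` and `x₂` to `o'`: `o' ∈ nb (del G {o}) 3 {x₁}` (`x₁, y, x₂, o'`), and `o' ≠ x₁`;
 - `x` adjacent to `y`, both adjacent to `o` / `x` to `o`, `y` to `o'`: the same with 1 and 2 steps.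
For different gadgets the distance of the end vertices would be at most `4`.
Balls (`hdis`): let `z ∈ nb (del G O) R {x} ∩ nb (del G O) R {y}`, `x ≠ y` in `bd o ∪ bd (π o)`; then `y ∈ nb (del G O) (2 R) {x} ⊆ nb (del G {p}) (2 R) {x}` for both `p = o` and `p = π o` (a
monotonicity lemma: `del G O ≤ del G {p}` for `p ∈ O`). If `x, y` are neighbours of the same `p`: against `Clean p`. If `x` is a neighbour of `o`, `y` of `o'`: then
`o' ∈ nb (del G {o}) (2 R + 1) {x}`, `x ≠ o'`, against `Clean o`. (The other case is symmetric.)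
-/

set_option autoImplicit false
set_option linter.unusedSectionVars false

namespace H49.NB

open Finset H97.Int
open scoped Classical symmDiff

variable {V : Type} [Fintype V] [DecidableEq V] (G : SimpleGraph V) [DecidableRel G.Adj]

/-- the branches at a gadget do not meet up to distance `R` -/
def Far (R : ℕ) (O : Finset V) (π : V → V) : Prop :=
  ∀ o ∈ O, ∀ x ∈ bd G O o ∪ bd G O (π o), ∀ y ∈ bd G O o ∪ bd G O (π o), x ≠ y →
    Disjoint (nb (del G O) R {x}) (nb (del G O) R {y})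

private lemma gx_refl (H : SimpleGraph V) [DecidableRel H.Adj] (r : ℕ) (x : V) : x ∈ nb H r {x} :=
  subset_nb H r _ (Finset.mem_singleton_self x)

private lemma gx_one (H : SimpleGraph V) [DecidableRel H.Adj] {x y : V} (h : H.Adj x y) : y ∈ nb H 1 {x} := by
  simp only [nb, mem_nbr]
  exact Or.inr ⟨x, Finset.mem_singleton_self x, h⟩

private lemma gx_trans (H : SimpleGraph V) [DecidableRel H.Adj] {r s : ℕ} {x y z : V} (h1 : y ∈ nb H r {x})
    (h2 : z ∈ nb H s {y}) : z ∈ nb H (r + s) {x} := by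
  rw [Nat.add_comm, nb_add]
  exact nb_mono H (by simpa using h1) s h2

private lemma gx_step (H : SimpleGraph V) [DecidableRel H.Adj] {r : ℕ} {x y z : V} (h1 : y ∈ nb H r {x})
    (h2 : H.Adj y z) : z ∈ nb H (r + 1) {x} := gx_trans H h1 (gx_one H h2)

private lemma gx_le (H K : SimpleGraph V) [DecidableRel H.Adj] [DecidableRel K.Adj]
    (h : ∀ u v, H.Adj u v → K.Adj u v) (r : ℕ) (U : Finset V) : nb H r U ⊆ nb K r U := by
  induction r with
  | zero => exact subset_rfl
  | succ r ih =>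
    intro x hx
    simp only [nb, mem_nbr] at hx ⊢
    rcases hx with hx | ⟨u, hu, hux⟩
    · exact Or.inl (ih hx)
    · exact Or.inr ⟨u, ih hu, h _ _ hux⟩

/-- the maximal set of bases -/
private lemma gx_max {d : ℕ} (hd : ∀ v, G.degree v ≤ d) (Q : Finset V) :
    ∃ J ⊆ Q, (∀ o ∈ J, ∀ p ∈ J, p ∈ nb G 8 {o} → p = o) ∧ Q.card ≤ (d + 1) ^ 8 * J.card := by
  obtain ⟨J, hJ, hmax⟩ := Finset.exists_max_image
    (Q.powerset.filter fun J => ∀ o ∈ J, ∀ p ∈ J, p ∈ nb G 8 {o} → p = o) Finset.card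
    ⟨∅, by simp⟩
  rw [Finset.mem_filter, Finset.mem_powerset] at hJ
  refine ⟨J, hJ.1, hJ.2, ?_⟩
  have hcov : Q ⊆ nb G 8 J := by
    intro q hq
    by_contra hcon
    have hfar : ∀ o ∈ J, q ∉ nb G 8 {o} := by
      intro o ho h
      exact hcon (nb_mono G (by simpa using ho) 8 h)
    have hqJ : q ∉ J := fun h => hfar q h (gx_refl G 8 q)
    have h1 : insert q J ∈ Q.powerset.filter fun J => ∀ o ∈ J, ∀ p ∈ J, p ∈ nb G 8 {o} → p = o := by
      rw [Finset.mem_filter, Finset.mem_powerset]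
      refine ⟨Finset.insert_subset hq hJ.1, ?_⟩
      intro o ho p hp hop
      rw [Finset.mem_insert] at ho hp
      rcases ho with rfl | ho
      · rcases hp with rfl | hp
        · rfl
        · exact absurd (mem_nb_singleton_symm G hop) (hfar p hp)
      · rcases hp with rfl | hp
        · exact absurd hop (hfar o ho)
        · exact hJ.2 o ho p hp hop
    have h2 := hmax _ h1
    rw [Finset.card_insert_of_notMem hqJ] at h2
    omega
  exact (Finset.card_le_card hcov).trans (card_nb_le G hd 8 J)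

/-- the geometric core: what is needed about `O` and `π` -/
private lemma gx_core {L R : ℕ} (hL : 2 * R + 3 ≤ L) {O : Finset V} {π : V → V}
    (hmem : ∀ o ∈ O, π o ∈ O) (hinv : ∀ o ∈ O, π (π o) = o) (hadj : ∀ o ∈ O, G.Adj o (π o))
    (hcl : ∀ o ∈ O, Clean G L o) (hkey : ∀ o ∈ O, ∀ p ∈ O, p ∈ nb G 6 {o} → p = o ∨ p = π o) :
    Gad G O π ∧ Far G R O π := by
  have ne_of : ∀ {x o : V}, x ∉ O → o ∈ O → x ≠ o := fun hx ho h => hx (h ▸ ho)
  have dadj : ∀ {o x y : V}, G.Adj x y → x ≠ o → y ≠ o → (del G {o}).Adj x y := by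
    intro o x y h h1 h2
    exact ⟨h, by simpa using h1, by simpa using h2⟩
  have six : ∀ {r : ℕ} {o p : V}, r ≤ 6 → p ∈ nb G r {o} → p ∈ nb G 6 {o} :=
    fun hr h => nb_mono_left G hr _ h
  have bad : ∀ {o x y : V} {r : ℕ}, o ∈ O → G.Adj o x → G.Adj o y → x ≠ y → r ≤ L →
      y ∈ nb (del G {o}) r {x} → False := by
    intro o x y r ho hx hy hne hr h
    exact hcl o ho x y hx hy hne (nb_mono_left (del G {o}) hr _ h)
  have hpne : ∀ o ∈ O, π o ≠ o := fun o ho h => (hadj o ho).ne h.symm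
  refine ⟨⟨hmem, hinv, hadj, ?_, ?_, ?_, ?_⟩, ?_⟩
  · intro o ho p hp hop
    rcases hkey o ho p hp (six (by norm_num) (gx_one G hop)) with h | h
    · exact absurd h.symm hop.ne
    · exact h
  · intro x hx o ho p hp hxo hxp
    by_contra hne
    have h1 : p ∈ nb G 6 {o} := six (r := 1 + 1) (by norm_num) (gx_step G (gx_one G hxo.symm) hxp)
    rcases hkey o ho p hp h1 with h | h
    · exact hne h.symm
    · refine bad (r := 1) ho hxo.symm (h ▸ hadj o ho) (ne_of hx hp) (by omega) ?_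
      exact gx_one _ (dadj hxp (ne_of hx ho) (Ne.symm hne))
  · intro y hy x₁ hx₁ x₂ hx₂ o₁ ho₁ o₂ ho₂ h1 h2 h3 h4
    by_contra hne
    have h5 : o₂ ∈ nb G 6 {o₁} := six (r := 1 + 1 + 1 + 1) (by norm_num)
      (gx_step G (gx_step G (gx_step G (gx_one G h3.symm) h1.symm) h2) h4)
    have e1 := gx_one (del G {o₁}) (dadj h1.symm (ne_of hx₁ ho₁) (ne_of hy ho₁))
    have e2 := gx_step (del G {o₁}) e1 (dadj h2 (ne_of hy ho₁) (ne_of hx₂ ho₁))
    rcases hkey o₁ ho₁ o₂ ho₂ h5 with h | h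
    · subst h
      exact bad ho₁ h3.symm h4.symm hne (by omega) e2
    · have hne2 : o₂ ≠ o₁ := by rw [h]; exact hpne o₁ ho₁
      have e3 := gx_step (del G {o₁}) e2 (dadj h4 (ne_of hx₂ ho₁) hne2)
      exact bad ho₁ h3.symm (h ▸ hadj o₁ ho₁) (ne_of hx₁ ho₂) (by omega) e3
  · intro x hx y hy o ho p hp hxo hyp hxy
    have h5 : p ∈ nb G 6 {o} := six (r := 1 + 1 + 1) (by norm_num)
      (gx_step G (gx_step G (gx_one G hxo.symm) hxy) hyp)
    have e1 := gx_one (del G {o}) (dadj hxy (ne_of hx ho) (ne_of hy ho))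
    rcases hkey o ho p hp h5 with h | h
    · subst h
      exact bad ho hxo.symm hyp.symm hxy.ne (by omega) e1
    · have hne2 : p ≠ o := by rw [h]; exact hpne o ho
      have e2 := gx_step (del G {o}) e1 (dadj hyp (ne_of hy ho) hne2)
      exact bad ho hxo.symm (h ▸ hadj o ho) (ne_of hx hp) (by omega) e2
  · intro o ho x hx y hy hne
    rw [Finset.disjoint_left]
    intro z hzx hzy
    have hyx : y ∈ nb (del G O) (R + R) {x} :=
      gx_trans _ hzx (mem_nb_singleton_symm _ hzy)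
    have hmono : ∀ p ∈ O, y ∈ nb (del G {p}) (R + R) {x} := by
      intro p hp
      refine gx_le (del G O) (del G {p}) ?_ (R + R) {x} hyx
      intro u v huv
      exact ⟨huv.1, by simpa using ne_of huv.2.1 hp, by simpa using ne_of huv.2.2 hp⟩
    have same : ∀ p ∈ O, x ∈ bd G O p → y ∈ bd G O p → False := by
      intro p hp h1 h2
      rw [mem_bd] at h1 h2
      exact bad hp h1.1 h2.1 hne (by omega) (hmono p hp)
    have diff : ∀ p ∈ O, x ∈ bd G O p → y ∈ bd G O (π p) → False := by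
      intro p hp h1 h2
      rw [mem_bd] at h1 h2
      have e := gx_step (del G {p}) (hmono p hp) (dadj h2.1.symm (ne_of h2.2 hp) (hpne p hp))
      exact bad hp h1.1 (hadj p hp) (ne_of h1.2 (hmem p hp)) (by omega) e
    rw [Finset.mem_union] at hx hy
    rcases hx with hx | hx
    · rcases hy with hy | hy
      · exact same o ho hx hy
      · exact diff o ho hx hy
    · rcases hy with hy | hy
      · exact diff (π o) (hmem o ho) hx (by rw [hinv o ho]; exact hy)
      · exact same (π o) (hmem o ho) hx hy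

theorem exists_gad {d L R : ℕ} (hd : ∀ v, G.degree v ≤ d) (hL : 2 * R + 3 ≤ L) {Q : Finset V}
    (hQ : ∀ v ∈ Q, (∃ u, G.Adj v u) ∧ ∀ u ∈ nbr G {v}, Clean G L u) :
    ∃ (O : Finset V) (π : V → V), Gad G O π ∧ Q.card ≤ (d + 1) ^ 8 * O.card ∧ Far G R O π := by
  obtain ⟨J, hJQ, hsep, hcard⟩ := gx_max G hd Q
  obtain ⟨w, hw⟩ : ∃ w : V → V, ∀ o ∈ J, G.Adj o (w o) := by
    refine ⟨fun v => if h : ∃ u, G.Adj v u then h.choose else v, fun o ho => ?_⟩
    have h := (hQ o (hJQ ho)).1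
    show G.Adj o (if h : ∃ u, G.Adj o u then h.choose else o)
    rw [dif_pos h]
    exact h.choose_spec
  have hw1 : ∀ o ∈ J, w o ∈ nb G 1 {o} := fun o ho => gx_one G (hw o ho)
  have hwJ : ∀ o ∈ J, w o ∉ J := by
    intro o ho h
    have h1 := hsep o ho _ h (nb_mono_left G (by norm_num) _ (hw1 o ho))
    exact (hw o ho).ne h1.symm
  obtain ⟨b, hb1, hb2⟩ : ∃ b : V → V, (∀ o ∈ J, b o = o) ∧ ∀ o ∈ J, b (w o) = o := by
    refine ⟨fun v => if v ∈ J then v else if h : ∃ o ∈ J, w o = v then h.choose else v, fun o ho => ?_,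
      fun o ho => ?_⟩
    · show (if o ∈ J then o else _) = o
      rw [if_pos ho]
    · show (if w o ∈ J then w o else if h : ∃ p ∈ J, w p = w o then h.choose else w o) = o
      rw [if_neg (hwJ o ho)]
      have h : ∃ p ∈ J, w p = w o := ⟨o, ho, rfl⟩
      rw [dif_pos h]
      have hs := h.choose_spec
      refine hsep o ho _ hs.1 ?_
      refine nb_mono_left G (show 1 + 1 ≤ 8 by norm_num) _ ?_
      have e1 := hw1 o ho
      have e2 := hw _ hs.1
      rw [hs.2] at e2
      exact gx_step G e1 e2.symm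
  have hO : ∀ v ∈ J ∪ J.image w, b v ∈ J ∧ (v = b v ∨ v = w (b v)) := by
    intro v hv
    rw [Finset.mem_union, Finset.mem_image] at hv
    rcases hv with hv | ⟨o, ho, rfl⟩
    · rw [hb1 v hv]
      exact ⟨hv, Or.inl rfl⟩
    · rw [hb2 o ho]
      exact ⟨ho, Or.inr rfl⟩
  have hO1 : ∀ v ∈ J ∪ J.image w, v ∈ nb G 1 {b v} := by
    intro v hv
    obtain ⟨h1, h2⟩ := hO v hv
    rcases h2 with h2 | h2
    · rw [← h2]
      exact gx_refl G 1 v
    · have h3 := hw1 _ h1
      rw [← h2] at h3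
      exact h3
  let π : V → V := fun v => if v ∈ J then w v else b v
  have hp1 : ∀ o ∈ J, π o = w o := fun o ho => if_pos ho
  have hp2 : ∀ o ∈ J, π (w o) = o := by
    intro o ho
    show (if w o ∈ J then w (w o) else b (w o)) = o
    rw [if_neg (hwJ o ho), hb2 o ho]
  have hcases : ∀ v ∈ J ∪ J.image w, (v ∈ J) ∨ ∃ o ∈ J, v = w o := by
    intro v hv
    rw [Finset.mem_union, Finset.mem_image] at hv
    rcases hv with hv | ⟨o, ho, h⟩
    · exact Or.inl hv
    · exact Or.inr ⟨o, ho, h.symm⟩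
  have hJO : ∀ o ∈ J, o ∈ J ∪ J.image w := fun o ho => Finset.mem_union_left _ ho
  have hwO : ∀ o ∈ J, w o ∈ J ∪ J.image w :=
    fun o ho => Finset.mem_union_right _ (Finset.mem_image_of_mem w ho)
  have hmem : ∀ o ∈ J ∪ J.image w, π o ∈ J ∪ J.image w := by
    intro v hv
    rcases hcases v hv with hv | ⟨o, ho, rfl⟩
    · rw [hp1 v hv]; exact hwO v hv
    · rw [hp2 o ho]; exact hJO o ho
  have hinv : ∀ o ∈ J ∪ J.image w, π (π o) = o := by
    intro v hv
    rcases hcases v hv with hv | ⟨o, ho, rfl⟩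
    · rw [hp1 v hv, hp2 v hv]
    · rw [hp2 o ho, hp1 o ho]
  have hadj : ∀ o ∈ J ∪ J.image w, G.Adj o (π o) := by
    intro v hv
    rcases hcases v hv with hv | ⟨o, ho, rfl⟩
    · rw [hp1 v hv]; exact hw v hv
    · rw [hp2 o ho]; exact (hw o ho).symm
  have hcl : ∀ o ∈ J ∪ J.image w, Clean G L o := by
    intro v hv
    obtain ⟨h1, -⟩ := hO v hv
    exact (hQ _ (hJQ h1)).2 v (by simpa [nb] using hO1 v hv)
  have hkey : ∀ o ∈ J ∪ J.image w, ∀ p ∈ J ∪ J.image w, p ∈ nb G 6 {o} → p = o ∨ p = π o := by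
    intro o ho p hp hop
    obtain ⟨h1, h2⟩ := hO o ho
    obtain ⟨h3, h4⟩ := hO p hp
    have e1 : p ∈ nb G (1 + 6) {b o} := gx_trans G (hO1 o ho) hop
    have e2 : b p ∈ nb G (1 + 6 + 1) {b o} := gx_trans G e1 (mem_nb_singleton_symm G (hO1 p hp))
    have e3 : b p = b o := hsep _ h1 _ h3 e2
    rw [e3] at h4
    rcases h2 with h2 | h2 <;> rcases h4 with h4 | h4
    · exact Or.inl (h4.trans h2.symm)
    · right
      rw [h4, ← h2]
      exact (hp1 o (h2 ▸ h1)).symm
    · right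
      rw [h4]
      have := hp2 _ h1
      rw [← h2] at this
      exact this.symm
    · exact Or.inl (h4.trans h2.symm)
  obtain ⟨hG, hF⟩ := gx_core G hL hmem hinv hadj hcl hkey
  refine ⟨J ∪ J.image w, π, hG, ?_, hF⟩
  exact hcard.trans (Nat.mul_le_mul le_rfl (Finset.card_le_card Finset.subset_union_left))

end H49.NB
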