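import Pool.Agent.H49.NB.RhoBas
import Pool.Agent.H49.NB.GadEx
import Pool.Agent.H49.NB.Unif

/-!
# A gadget is free with positive probability

`B = bd o ∪ bd (π o)` (disjoint, `bd_disj`), `|B| ≤ 2 d` (`bd_card`, twice). `Q = Q₁ ∪ Q₂`, `Q₁ ⊆ bd o` with `|Q₁| = |bd o| / 2`, `Q₂ ⊆ bd (π o)` with half of the elements
(`Finset.exists_subset_card_eq`). If `X A ∩ B = Q` then `∑_{x ∈ bd o} spin (X A) x = 2 |Q₁| - |bd o| ∈ {0, -1}`, so `|sn o| ≤ 1 + tn o` (the tied `x` contribute at most `tn o`), and `o` is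
not strong; the same for `π o`. `unif` for `del G O`: `2^|B| #{A | X A ∩ B = Q} = 2^n`, and `2^|B| ≤ 4^d`.
-/

set_option autoImplicit false
set_option linter.unusedSectionVars false

namespace H49.NB

open Finset H97.Int
open scoped Classical symmDiff

variable {V : Type} [Fintype V] [DecidableEq V] (G : SimpleGraph V) [DecidableRel G.Adj]

private lemma sum_spin' (S Y : Finset V) :
    ∑ x ∈ S, spin Y x = 2 * ((S.filter fun x => x ∈ Y).card : ℤ) - S.card := by
  have h1 : ∀ x ∈ S, spin Y x = 2 * (if x ∈ Y then (1 : ℤ) else 0) - 1 := by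
    intro x _
    unfold spin
    split_ifs <;> norm_num
  rw [sum_congr rfl h1, sum_sub_distrib, ← mul_sum, sum_boole, sum_const, nsmul_eq_mul, mul_one]

private lemma not_strong {O Y Q : Finset V} {o : V} (hc : Q.card = (bd G O o).card / 2)
    (hY : (bd G O o).filter (fun x => x ∈ Y) = Q) : ¬ Strong G O Y o := by
  intro h
  unfold Strong at h
  have h1 : ∑ x ∈ bd G O o, spin Y x = 2 * (Q.card : ℤ) - (bd G O o).card := by
    rw [sum_spin', hY]
  have h2 : ∑ x ∈ bd G O o, spin Y x =
      ∑ x ∈ (bd G O o).filter (fun x => Tied G O Y x), spin Y x + sn G O Y o := by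
    unfold sn
    rw [sum_filter_add_sum_filter_not]
  have h3 : |∑ x ∈ (bd G O o).filter (fun x => Tied G O Y x), spin Y x| ≤ tn G O Y o := by
    refine (abs_sum_le_sum_abs _ _).trans ?_
    unfold tn
    calc ∑ x ∈ (bd G O o).filter (fun x => Tied G O Y x), |spin Y x|
        ≤ ∑ _x ∈ (bd G O o).filter (fun x => Tied G O Y x), (1 : ℤ) := by
          refine sum_le_sum fun x _ => ?_
          unfold spin
          split_ifs <;> norm_num
      _ = _ := by rw [sum_const, nsmul_eq_mul, mul_one]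
  have h4 : (Q.card : ℤ) = ((bd G O o).card : ℤ) / 2 := by
    rw [hc]
    norm_num
  rw [abs_le] at h3
  rcases abs_cases (sn G O Y o) with h5 | h5 <;> omega

theorem flex_prob {d R : ℕ} (hd : ∀ v, G.degree v ≤ d) {O : Finset V} {π : V → V} (hG : Gad G O π)
    (hF : Far G R O π) {X : Finset V → Finset V} (hX : LocOdd (del G O) R X) {o : V} (ho : o ∈ O) :
    2 ^ Fintype.card V ≤ 4 ^ d * (univ.filter fun A : Finset V => o ∈ flx G π O (X A)).card := by
  have hp := hG.mem o ho
  have hne : o ≠ π o := (hG.adj o ho).ne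
  have hdj := bd_disj G hG ho hp hne
  obtain ⟨Q1, hQ1, hc1⟩ := exists_subset_card_eq (Nat.div_le_self (bd G O o).card 2)
  obtain ⟨Q2, hQ2, hc2⟩ := exists_subset_card_eq (Nat.div_le_self (bd G O (π o)).card 2)
  set B := bd G O o ∪ bd G O (π o) with hB
  have hQ : Q1 ∪ Q2 ⊆ B := union_subset_union hQ1 hQ2
  have hu := unif (del G O) hX (B := B) (fun x hx y hy hxy => hF o ho x hx y hy hxy) hQ
  have hBc : B.card ≤ 2 * d := by
    have h1 := bd_card G hd hG ho
    have h2 := bd_card G hd hG hp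
    have h3 := card_union_le (bd G O o) (bd G O (π o))
    rw [← hB] at h3
    omega
  have hsub : (univ.filter fun A : Finset V => X A ∩ B = Q1 ∪ Q2) ⊆
      univ.filter fun A : Finset V => o ∈ flx G π O (X A) := by
    intro A hA
    rw [mem_filter] at hA ⊢
    refine ⟨mem_univ _, ?_⟩
    unfold flx
    rw [mem_filter]
    have hkey : ∀ x ∈ B, (x ∈ X A ↔ x ∈ Q1 ∪ Q2) := by
      intro x hx
      rw [← hA.2, mem_inter]
      exact ⟨fun h => ⟨h, hx⟩, fun h => h.1⟩
    refine ⟨ho, not_strong G hc1 ?_, not_strong G hc2 ?_⟩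
    · ext x
      rw [mem_filter]
      constructor
      · rintro ⟨h1, h2⟩
        rcases mem_union.1 ((hkey x (mem_union_left _ h1)).1 h2) with h3 | h3
        · exact h3
        · exact absurd (hQ2 h3) (disjoint_left.1 hdj h1)
      · intro h
        exact ⟨hQ1 h, (hkey x (mem_union_left _ (hQ1 h))).2 (mem_union_left _ h)⟩
    · ext x
      rw [mem_filter]
      constructor
      · rintro ⟨h1, h2⟩
        rcases mem_union.1 ((hkey x (mem_union_right _ h1)).1 h2) with h3 | h3
        · exact absurd h1 (disjoint_left.1 hdj (hQ1 h3))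
        · exact h3
      · intro h
        exact ⟨hQ2 h, (hkey x (mem_union_right _ (hQ2 h))).2 (mem_union_right _ h)⟩
  calc 2 ^ Fintype.card V = 2 ^ B.card * (univ.filter fun A : Finset V => X A ∩ B = Q1 ∪ Q2).card := hu.symm
    _ ≤ 4 ^ d * (univ.filter fun A : Finset V => o ∈ flx G π O (X A)).card := by
      refine Nat.mul_le_mul ?_ (card_le_card hsub)
      calc 2 ^ B.card ≤ 2 ^ (2 * d) := Nat.pow_le_pow_right (by norm_num) hBc
        _ = 4 ^ d := by rw [pow_mul]; norm_num

end H49.NB
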