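import Pool.Agent.H49.NB.Iter

/-!
# First moments: dense small sets

Let `G ∈ Reg n d`, `P` a set of `p` vertices, `p ≤ η n`, `12 p < 5 E G P P`. `E G P P = 2 e(P)`, `e(P)` = number of edges inside `P`; so `6 p < 5 e(P)`, `e(P) ≥ m := p + p / 5 + 1` (natural
division), `p ≥ 1`. So there is a set `F` of `m` edges inside `P` (a subset of `P.sym2`, which has `p (p + 1)/2 ≤ p * p` elements, `Finset.card_sym2`) with `F ⊆ G`. Union bound over `p`
(`1 ≤ p ≤ ⌊η n⌋₊`), `P` (`n.choose p`), `F` (at most `(p * p).choose m`, `Nat.choose_le_choose`), and `iter`: `#(RegF n d F) ≤ (2 d/n)^m #(Reg n d)`; `4 m + 4 d (d+1) ≤ n d` since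
`m ≤ 2 p + 1`, `8 p ≤ 8 η n ≤ n/2`, `4 + 4 d (d+1) ≤ n/2`, `1 ≤ d`.
-/

set_option autoImplicit false
set_option linter.unusedSectionVars false

namespace H49.NB

open Finset H97.Int
open scoped Classical

private lemma E_le_edges {n : ℕ} (G : SimpleGraph (Fin n)) (P : Finset (Fin n)) :
    E G P P ≤ 2 * ((P.sym2.filter fun e => e ∈ G.edgeSet).card : ℤ) := by
  have h1 : E G P P = (((P ×ˢ P).filter fun x => G.Adj x.1 x.2).card : ℤ) := by
    unfold E adj
    rw [← Finset.sum_product', Finset.card_filter]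
    push_cast
    rfl
  have h2 : ((P ×ˢ P).filter fun x => G.Adj x.1 x.2).card ≤
      2 * (((P ×ˢ P).filter fun x => G.Adj x.1 x.2).image fun x => s(x.1, x.2)).card := by
    refine Finset.card_le_mul_card_image _ 2 fun a _ => ?_
    induction a using Sym2.ind with
    | _ u v =>
    refine (Finset.card_le_card (t := {(u, v), (v, u)}) ?_).trans Finset.card_le_two
    rintro ⟨x, y⟩ hx
    have hx2 := (Finset.mem_filter.1 hx).2
    rw [Sym2.eq_iff] at hx2
    rw [Finset.mem_insert, Finset.mem_singleton]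
    rcases hx2 with ⟨h3, h4⟩ | ⟨h3, h4⟩
    · exact Or.inl (Prod.ext h3 h4)
    · exact Or.inr (Prod.ext h3 h4)
  have h3 : (((P ×ˢ P).filter fun x => G.Adj x.1 x.2).image fun x => s(x.1, x.2)).card ≤
      (P.sym2.filter fun e => e ∈ G.edgeSet).card := by
    refine Finset.card_le_card fun e he => ?_
    rw [Finset.mem_image] at he
    obtain ⟨x, hx, rfl⟩ := he
    rw [Finset.mem_filter, Finset.mem_product] at hx
    rw [Finset.mem_filter]
    exact ⟨Finset.mk_mem_sym2_iff.2 hx.1, (SimpleGraph.mem_edgeSet G).2 hx.2⟩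
  rw [h1]
  exact_mod_cast h2.trans (Nat.mul_le_mul_left 2 h3)

/-- a set with many inner edges contains `m` of them -/
lemma edges_in {n p : ℕ} {G : SimpleGraph (Fin n)} {P : Finset (Fin n)} (hp : P.card = p)
    (h : 12 * (P.card : ℤ) < 5 * E G P P) :
    ∃ F ⊆ P.sym2, F.card = p + p / 5 + 1 ∧ ∀ e ∈ F, e ∈ G.edgeSet := by
  have h1 := E_le_edges G P
  have h2 : p + p / 5 + 1 ≤ (P.sym2.filter fun e => e ∈ G.edgeSet).card := by
    rw [hp] at h
    omega
  obtain ⟨F, hF1, hF2⟩ := Finset.exists_subset_card_eq h2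
  exact ⟨F, fun e he => (Finset.mem_filter.1 (hF1 he)).1, hF2,
    fun e he => (Finset.mem_filter.1 (hF1 he)).2⟩

theorem fmS {n d : ℕ} (h1 : 1 ≤ d) {η : ℝ} (hη : 16 * η ≤ 1) (hn : 8 + 8 * d * (d + 1) ≤ n) :
    (((Reg n d).filter fun G => ∃ P : Finset (Fin n), (P.card : ℝ) ≤ η * n ∧
      12 * (P.card : ℤ) < 5 * E G P P).card : ℝ) ≤
    (∑ p ∈ Icc 1 ⌊η * n⌋₊, fm n d p) * (Reg n d).card := by
  have hn0 : 0 < n := by omega
  have hnR : (0 : ℝ) < n := by exact_mod_cast hn0
  have hsub : ((Reg n d).filter fun G => ∃ P : Finset (Fin n), (P.card : ℝ) ≤ η * n ∧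
      12 * (P.card : ℤ) < 5 * E G P P) ⊆
      (Icc 1 ⌊η * n⌋₊).biUnion fun p => (powersetCard p (univ : Finset (Fin n))).biUnion
        fun P => (powersetCard (p + p / 5 + 1) P.sym2).biUnion fun F => RegF n d F := by
    intro G hG
    rw [mem_filter] at hG
    obtain ⟨hG1, P, hP1, hP2⟩ := hG
    have hP0 : P.card ≠ 0 := by
      intro h0
      rw [card_eq_zero] at h0
      subst h0
      simp [E] at hP2
    obtain ⟨F, hF1, hF2, hF3⟩ := edges_in rfl hP2
    rw [mem_biUnion]
    refine ⟨P.card, mem_Icc.2 ⟨Nat.one_le_iff_ne_zero.2 hP0, (Nat.le_floor_iff' hP0).2 hP1⟩, ?_⟩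
    rw [mem_biUnion]
    refine ⟨P, mem_powersetCard.2 ⟨subset_univ _, rfl⟩, ?_⟩
    rw [mem_biUnion]
    exact ⟨F, mem_powersetCard.2 ⟨hF1, hF2⟩, mem_RegF.2 ⟨hG1, hF3⟩⟩
  have h2 : ∀ p ∈ Icc 1 ⌊η * n⌋₊, ∀ F : Finset (Sym2 (Fin n)), F.card = p + p / 5 + 1 →
      ((RegF n d F).card : ℝ) ≤ (2 * d / n) ^ (p + p / 5 + 1) * (Reg n d).card := by
    intro p hp F hF
    rw [mem_Icc] at hp
    have hp1 : (p : ℝ) ≤ η * n := (Nat.le_floor_iff' (by omega)).1 hp.2
    have hp2 : 16 * p ≤ n := by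
      have h3 : (16 * p : ℝ) ≤ n := by nlinarith
      exact_mod_cast h3
    have hc : 4 * F.card + 4 * d * (d + 1) ≤ n * d := by
      have h3 : 4 * F.card ≤ 8 * p + 4 := by rw [hF]; omega
      have h4 : n ≤ n * d := Nat.le_mul_of_pos_right n h1
      nlinarith
    have h5 := iter F hc
    rw [hF] at h5
    have h6 : (n : ℝ) ^ (p + p / 5 + 1) * (RegF n d F).card ≤
        (2 * d) ^ (p + p / 5 + 1) * (Reg n d).card := by exact_mod_cast h5
    rw [div_pow, div_mul_eq_mul_div, le_div_iff₀ (by positivity)]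
    linarith
  have h3 : ∀ p ∈ Icc 1 ⌊η * n⌋₊, ∀ P ∈ powersetCard p (univ : Finset (Fin n)),
      (((powersetCard (p + p / 5 + 1) P.sym2).biUnion fun F => RegF n d F).card : ℝ) ≤
      ((p * p).choose (p + p / 5 + 1)) * ((2 * d / n) ^ (p + p / 5 + 1) * (Reg n d).card) := by
    intro p hp P hP
    have hP' := (mem_powersetCard.1 hP).2
    have hp1 := (mem_Icc.1 hp).1
    have hc : ((powersetCard (p + p / 5 + 1) P.sym2).card : ℝ) ≤
        ((p * p).choose (p + p / 5 + 1) : ℝ) := by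
      rw [card_powersetCard, Finset.card_sym2, hP']
      have h4 : (p + 1).choose 2 ≤ p * p := by
        rw [Nat.choose_two_right, Nat.add_sub_cancel]
        have h5 : (p + 1) * p ≤ p * p * 2 := by nlinarith
        omega
      exact_mod_cast Nat.choose_le_choose _ h4
    have h4 : (((powersetCard (p + p / 5 + 1) P.sym2).biUnion fun F => RegF n d F).card : ℝ) ≤
        ∑ F ∈ powersetCard (p + p / 5 + 1) P.sym2, ((RegF n d F).card : ℝ) := by
      exact_mod_cast card_biUnion_le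
    have h5 : ∑ F ∈ powersetCard (p + p / 5 + 1) P.sym2, ((RegF n d F).card : ℝ) ≤
        ∑ F ∈ powersetCard (p + p / 5 + 1) P.sym2,
          ((2 * d / n : ℝ) ^ (p + p / 5 + 1) * (Reg n d).card) :=
      sum_le_sum fun F hF => h2 p hp F (mem_powersetCard.1 hF).2
    rw [sum_const, nsmul_eq_mul] at h5
    exact h4.trans (h5.trans (mul_le_mul_of_nonneg_right hc (by positivity)))
  have h4 : ∀ p ∈ Icc 1 ⌊η * n⌋₊, (((powersetCard p (univ : Finset (Fin n))).biUnion
        fun P => (powersetCard (p + p / 5 + 1) P.sym2).biUnion fun F => RegF n d F).card : ℝ) ≤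
      fm n d p * (Reg n d).card := by
    intro p hp
    have h5 : (((powersetCard p (univ : Finset (Fin n))).biUnion
        fun P => (powersetCard (p + p / 5 + 1) P.sym2).biUnion fun F => RegF n d F).card : ℝ) ≤
        ∑ P ∈ powersetCard p (univ : Finset (Fin n)),
          (((powersetCard (p + p / 5 + 1) P.sym2).biUnion fun F => RegF n d F).card : ℝ) := by
      exact_mod_cast card_biUnion_le
    refine h5.trans ((sum_le_sum fun P hP => h3 p hp P hP).trans ?_)
    rw [sum_const, card_powersetCard, card_univ, Fintype.card_fin, nsmul_eq_mul]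
    unfold fm
    exact le_of_eq (by ring)
  have h5 : (((Icc 1 ⌊η * n⌋₊).biUnion fun p => (powersetCard p (univ : Finset (Fin n))).biUnion
        fun P => (powersetCard (p + p / 5 + 1) P.sym2).biUnion fun F => RegF n d F).card : ℝ) ≤
      ∑ p ∈ Icc 1 ⌊η * n⌋₊, (((powersetCard p (univ : Finset (Fin n))).biUnion
        fun P => (powersetCard (p + p / 5 + 1) P.sym2).biUnion fun F => RegF n d F).card : ℝ) := by
    exact_mod_cast card_biUnion_le
  have h6 : ((((Reg n d).filter fun G => ∃ P : Finset (Fin n), (P.card : ℝ) ≤ η * n ∧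
      12 * (P.card : ℤ) < 5 * E G P P)).card : ℝ) ≤
      (((Icc 1 ⌊η * n⌋₊).biUnion fun p => (powersetCard p (univ : Finset (Fin n))).biUnion
        fun P => (powersetCard (p + p / 5 + 1) P.sym2).biUnion fun F => RegF n d F).card : ℝ) := by
    exact_mod_cast card_le_card hsub
  refine h6.trans (h5.trans ((sum_le_sum h4).trans ?_))
  rw [sum_mul]

end H49.NB
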