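import Pool.Agent.H49.NB.Defs

/-!
# Functions of disjoint sets of coordinates are independent

`(∑_A f A)(∑_{A'} g A') = ∑_{(A, A')} f A * g A'`. The map `(A, A') ↦ ((A ∩ N) ∪ (A' ∩ Nᶜ), (A' ∩ N) ∪ (A ∩ Nᶜ))` is an involution of `Finset V × Finset V`, and with
`B = (A ∩ N) ∪ (A' ∩ Nᶜ)`: `f B = f A`, `g B = g A'`. So the sum is `∑_{(B, B')} f B * g B = 2^n ∑_B f B * g B`.
-/

set_option autoImplicit false
set_option linter.unusedSectionVars false

namespace H49.NB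

open Finset
open scoped Classical

theorem indep {V : Type} [Fintype V] [DecidableEq V] (N : Finset V) (f g : Finset V → ℝ)
    (hf : ∀ A A', A ∩ N = A' ∩ N → f A = f A') (hg : ∀ A A', A ∩ Nᶜ = A' ∩ Nᶜ → g A = g A') :
    2 ^ Fintype.card V * ∑ A, f A * g A = (∑ A, f A) * ∑ A, g A := by
  have e0 : (∑ A, f A) * ∑ A, g A = ∑ p : Finset V × Finset V, f p.1 * g p.2 := by
    rw [Finset.sum_mul_sum, Fintype.sum_prod_type]
  have e1 : ∑ p : Finset V × Finset V, f p.1 * g p.1 = 2 ^ Fintype.card V * ∑ A, f A * g A := by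
    rw [Fintype.sum_prod_type]
    simp only [Finset.sum_const, Finset.card_univ, Fintype.card_finset, nsmul_eq_mul,
      ← Finset.mul_sum]
    push_cast
    ring
  have inv : Function.Involutive (fun p : Finset V × Finset V =>
      (((p.1 ∩ N) ∪ (p.2 ∩ Nᶜ), (p.2 ∩ N) ∪ (p.1 ∩ Nᶜ)) : Finset V × Finset V)) := by
    intro p
    obtain ⟨A, B⟩ := p
    refine Prod.ext ?_ ?_
    · ext v
      by_cases h : v ∈ N <;> simp [h]
    · ext v
      by_cases h : v ∈ N <;> simp [h]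
  rw [e0, ← e1]
  refine (Fintype.sum_equiv inv.toPerm _ _ fun p => ?_).symm
  obtain ⟨A, B⟩ := p
  have h1 : f A = f ((A ∩ N) ∪ (B ∩ Nᶜ)) := by
    refine hf _ _ ?_
    ext v
    by_cases h : v ∈ N <;> simp [h]
  have h2 : g B = g ((A ∩ N) ∪ (B ∩ Nᶜ)) := by
    refine hg _ _ ?_
    ext v
    by_cases h : v ∈ N <;> simp [h]
  show f A * g B = f ((A ∩ N) ∪ (B ∩ Nᶜ)) * g ((A ∩ N) ∪ (B ∩ Nᶜ))
  rw [← h1, ← h2]

end H49.NB
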