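import Pool.Agent.H49.NB.Switch

/-!
# `P(F ⊆ G) ≤ (2d/n)^{|F|}`

Induction on `F` (`Finset.induction_on`, generalising the hypothesis), `switch` in every step. `RegF n d ∅ = Reg n d`.
-/

set_option autoImplicit false
set_option linter.unusedSectionVars false

namespace H49.NB

open Finset H97.Int
open scoped Classical

theorem iter {n d : ℕ} (F : Finset (Sym2 (Fin n))) (hn : 4 * F.card + 4 * d * (d + 1) ≤ n * d) :
    n ^ F.card * (RegF n d F).card ≤ (2 * d) ^ F.card * (Reg n d).card := by
  induction F using Finset.induction_on with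
  | empty =>
    have h0 : RegF n d ∅ = Reg n d := by
      ext G
      rw [mem_RegF]
      exact ⟨fun h => h.1, fun h => ⟨h, fun e he => absurd he (notMem_empty e)⟩⟩
    rw [h0, card_empty, pow_zero, pow_zero]
  | insert e F he ih =>
    rw [card_insert_of_notMem he] at hn
    have hn' : 4 * F.card + 4 * d * (d + 1) ≤ n * d := by linarith
    have h1 := switch he hn'
    have h2 := ih hn'
    rw [card_insert_of_notMem he]
    calc n ^ (F.card + 1) * (RegF n d (insert e F)).card =
        n ^ F.card * (n * (RegF n d (insert e F)).card) := by ring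
      _ ≤ n ^ F.card * (2 * d * (RegF n d F).card) := Nat.mul_le_mul_left _ h1
      _ = 2 * d * (n ^ F.card * (RegF n d F).card) := by ring
      _ ≤ 2 * d * ((2 * d) ^ F.card * (Reg n d).card) := Nat.mul_le_mul_left _ h2
      _ = (2 * d) ^ (F.card + 1) * (Reg n d).card := by ring

end H49.NB
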