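import Pool.Agent.H49.NB.State
import Pool.Agent.H49.NB.Compl
import Pool.Agent.H49.NB.Fin1

/-!
# The deterministic theorem

Constants: `s` with `2 (δ + 1/s) < 1/2`, `s ≥ 1`; `K = d s`; `C` from `compl`; `κ' = κ/(d+1)^8`; `p = κ'/(2 · 4^d)`; `γ = p/4`; `ε > 0` with `2 (d+1)^4 C ε ≤ p/4`, `(d+1)^3 C ε ≤ p/4`, `C ε ≤ η/2`;
`R, n₁` from `exists_state d K κ' ε γ`; `L = 2 R + 3`; `n₀ ≥ n₁, 2 d + 1`, `4/η`.
`Q` = the set of the `v` in the hypothesis; `exists_gad` gives `O, π`, `Gad`, `Far G R O π`, `|O| ≥ κ' n`. `exists_state`: `X, U`. `H = del G O` has degrees `≤ d` and `Spr H η δ`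
(`E (del G O) P P ≤ E G P P`). `compl` for `H` (`C |U| + 2 ≤ C ε n + 2 ≤ η n`): `Y` with `|X ∆ Y| ≤ C ε n`, `Opt2 H Y`. `Mz_lip`, `flx_lip`: `|Mz Y| ≤ γ n + 2 (d+1)^4 C ε n ≤ p n / 2`,
`|flx Y| ≥ p n - (d+1)^3 C ε n ≥ p n / 2`. `fin1`.
-/

set_option autoImplicit false
set_option linter.unusedSectionVars false

namespace H49.NB

open Finset H97.Int
open scoped Classical symmDiff

private lemma adj_del_le {V : Type} [Fintype V] [DecidableEq V] (G : SimpleGraph V) [DecidableRel G.Adj]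
    (O : Finset V) (u v : V) : adj (del G O) u v ≤ adj G u v := by
  unfold adj
  by_cases h : (del G O).Adj u v
  · rw [if_pos h, if_pos h.1]
  · rw [if_neg h]
    split_ifs <;> norm_num

private lemma spr_del {V : Type} [Fintype V] [DecidableEq V] (G : SimpleGraph V) [DecidableRel G.Adj]
    (O : Finset V) {η δ : ℝ} (h : Spr G η δ) : Spr (del G O) η δ := by
  intro P hP
  refine le_trans ?_ (h P hP)
  have h1 : E (del G O) P P ≤ E G P P := by
    unfold E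
    exact Finset.sum_le_sum fun u _ => Finset.sum_le_sum fun v _ => adj_del_le G O u v
  exact_mod_cast h1

private lemma degree_del {V : Type} [Fintype V] [DecidableEq V] (G : SimpleGraph V) [DecidableRel G.Adj]
    (O : Finset V) {d : ℕ} (hd : ∀ v, G.degree v ≤ d) (v : V) : (del G O).degree v ≤ d := by
  refine le_trans ?_ (hd v)
  rw [← SimpleGraph.card_neighborFinset_eq_degree, ← SimpleGraph.card_neighborFinset_eq_degree]
  refine Finset.card_le_card fun u hu => ?_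
  rw [SimpleGraph.mem_neighborFinset] at hu ⊢
  exact hu.1

theorem main (d : ℕ) (h1 : 1 ≤ d) (κ η δ : ℝ) (hκ : 0 < κ) (hη : 0 < η) (hδ : δ < 1 / 4) : ∃ L n₀ : ℕ,
    ∀ (V : Type) [Fintype V] [DecidableEq V] (G : SimpleGraph V) [DecidableRel G.Adj],
    (∀ v, G.degree v ≤ d) → n₀ ≤ Fintype.card V → Spr G η δ →
    κ * Fintype.card V ≤
      ((univ.filter fun v => (∃ u, G.Adj v u) ∧ ∀ u ∈ nbr G {v}, Clean G L u).card : ℝ) →
    NearInt G (2 * d) := by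
  obtain ⟨s, hs⟩ := exists_nat_gt (1 / (1 / 4 - δ))
  have hδ0 : 0 < 1 / 4 - δ := by linarith
  have hs0 : (0 : ℝ) < s := lt_trans (by positivity) hs
  have hs1 : 1 ≤ s := by
    have : 0 < s := by exact_mod_cast hs0
    omega
  have hδs : 2 * (δ + 1 / s) < 1 / 2 := by
    rw [div_lt_iff₀ hδ0] at hs
    have h2 : (1 : ℝ) / s < 1 / 4 - δ := by
      rw [div_lt_iff₀ hs0]
      linarith
    linarith
  obtain ⟨C, hC, hcompl⟩ := compl d s h1 hs1 δ hδs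
  obtain ⟨κ', hκ'd⟩ : ∃ κ' : ℝ, κ' = κ / ((d : ℝ) + 1) ^ 8 := ⟨_, rfl⟩
  have hκ' : 0 < κ' := by rw [hκ'd]; positivity
  obtain ⟨p, hpd⟩ : ∃ p : ℝ, p = κ' / (2 * 4 ^ d) := ⟨_, rfl⟩
  have hp : 0 < p := by rw [hpd]; positivity
  obtain ⟨ε, hεd⟩ : ∃ ε : ℝ, ε = min (p / (8 * ((d : ℝ) + 1) ^ 4 * C)) (η / (2 * C)) := ⟨_, rfl⟩
  have hε : 0 < ε := by
    rw [hεd]
    exact lt_min (by positivity) (by positivity)
  have hε1 : 2 * ((d : ℝ) + 1) ^ 4 * (C * ε) ≤ p / 4 := by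
    have h2 : ε ≤ p / (8 * ((d : ℝ) + 1) ^ 4 * C) := by rw [hεd]; exact min_le_left _ _
    rw [le_div_iff₀ (by positivity)] at h2
    nlinarith
  have hε2 : C * ε ≤ η / 2 := by
    have h2 : ε ≤ η / (2 * C) := by rw [hεd]; exact min_le_right _ _
    rw [le_div_iff₀ (by positivity)] at h2
    nlinarith
  obtain ⟨R, n₁, hst⟩ := exists_state d (d * s) κ' ε (p / 4) hκ' hε (by positivity)
  obtain ⟨m, hm⟩ := exists_nat_gt (4 / η)
  refine ⟨2 * R + 3, max n₁ (max (2 * d + 1) m), ?_⟩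
  intro V _ _ G _ hd hn hS hQ
  have hn1 : n₁ ≤ Fintype.card V := le_trans (le_max_left _ _) hn
  have hn2 : 2 * d < Fintype.card V :=
    lt_of_lt_of_le (Nat.lt_succ_self _) (le_trans (le_trans (le_max_left _ _) (le_max_right _ _)) hn)
  have hn3 : m ≤ Fintype.card V := le_trans (le_trans (le_max_right _ _) (le_max_right _ _)) hn
  have hn4 : 4 ≤ η * Fintype.card V := by
    have h2 : 4 / η < Fintype.card V := lt_of_lt_of_le hm (by exact_mod_cast hn3)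
    rw [div_lt_iff₀ hη] at h2
    linarith
  have hn0 : (0 : ℝ) ≤ Fintype.card V := Nat.cast_nonneg _
  obtain ⟨O, π, hG, hO, hF⟩ := exists_gad G hd (le_refl (2 * R + 3))
    (Q := univ.filter fun v => (∃ u, G.Adj v u) ∧ ∀ u ∈ nbr G {v}, Clean G (2 * R + 3) u)
    (fun v hv => (Finset.mem_filter.1 hv).2)
  have hO' : κ' * Fintype.card V ≤ O.card := by
    have h2 : ((univ.filter fun v => (∃ u, G.Adj v u) ∧ ∀ u ∈ nbr G {v}, Clean G (2 * R + 3) u).card : ℝ) ≤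
        ((d : ℝ) + 1) ^ 8 * O.card := by exact_mod_cast hO
    have h3 := hQ.trans h2
    rw [hκ'd, div_mul_eq_mul_div, div_le_iff₀ (by positivity)]
    linarith
  obtain ⟨X, U, hU, hX, hM, hfl⟩ := hst V G hd hn1 O π hG hF hO'
  have hCU : C * U.card ≤ C * (ε * Fintype.card V) := mul_le_mul_of_nonneg_left hU hC.le
  have hCe : C * (ε * Fintype.card V) ≤ η / 2 * Fintype.card V := by
    rw [← mul_assoc]
    exact mul_le_mul_of_nonneg_right hε2 hn0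
  obtain ⟨Y, hXY, hY⟩ := hcompl V (del G O) η (degree_del G O hd) (spr_del G O hS) X U hX (by linarith)
  have hXY' : ((X ∆ Y).card : ℝ) ≤ C * ε * Fintype.card V := by
    rw [mul_assoc]
    exact hXY.trans hCU
  refine fin1 G hd hn2 hG hY ?_
  have e1 := Mz_lip G hd hG X Y
  have e2 := flx_lip G hd hG X Y
  have e1' : |(Mz G π O X : ℝ) - (Mz G π O Y : ℝ)| ≤ 2 * (((d : ℝ) + 1) ^ 4 * ((X ∆ Y).card : ℝ)) := by
    exact_mod_cast e1
  have e2' : ((flx G π O X).card : ℝ) ≤ (flx G π O Y).card + ((d : ℝ) + 1) ^ 3 * ((X ∆ Y).card : ℝ) := by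
    exact_mod_cast e2
  have hM' : |(Mz G π O X : ℝ)| ≤ p / 4 * Fintype.card V := by
    have := hM
    push_cast at this
    exact this
  have hd1 : (1 : ℝ) ≤ (d : ℝ) + 1 := by
    have : (0 : ℝ) ≤ d := Nat.cast_nonneg _
    linarith
  have hd3 : ((d : ℝ) + 1) ^ 3 ≤ ((d : ℝ) + 1) ^ 4 := pow_le_pow_right₀ hd1 (by norm_num)
  have hc0 : (0 : ℝ) ≤ ((X ∆ Y).card : ℝ) := Nat.cast_nonneg _
  have f1 : ((d : ℝ) + 1) ^ 4 * ((X ∆ Y).card : ℝ) ≤ ((d : ℝ) + 1) ^ 4 * (C * ε * Fintype.card V) :=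
    mul_le_mul_of_nonneg_left hXY' (by positivity)
  have f2 : ((d : ℝ) + 1) ^ 3 * ((X ∆ Y).card : ℝ) ≤ ((d : ℝ) + 1) ^ 4 * ((X ∆ Y).card : ℝ) :=
    mul_le_mul_of_nonneg_right hd3 hc0
  have f3 : 2 * ((d : ℝ) + 1) ^ 4 * (C * ε) * Fintype.card V ≤ p / 4 * Fintype.card V :=
    mul_le_mul_of_nonneg_right hε1 hn0
  have f4 : p * Fintype.card V ≤ ((flx G π O X).card : ℝ) := by
    rw [hpd, div_mul_eq_mul_div, div_le_iff₀ (by positivity)]
    linarith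
  have f5 : |(Mz G π O Y : ℝ)| ≤ |(Mz G π O X : ℝ)| + |(Mz G π O X : ℝ) - (Mz G π O Y : ℝ)| := by
    have h2 := abs_sub_abs_le_abs_sub (Mz G π O Y : ℝ) (Mz G π O X : ℝ)
    rw [abs_sub_comm] at h2
    linarith
  have f6 : |(Mz G π O Y : ℝ)| ≤ ((flx G π O Y).card : ℝ) := by nlinarith
  exact_mod_cast f6

end H49.NB
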