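import Pool.Agent.H49.NB.Defs

/-!
# Regular graphs on `n` labelled vertices
-/

set_option autoImplicit false
set_option linter.unusedSectionVars false

namespace H49.NB

open Finset H97.Int
open scoped Classical

/-- the `d`-regular graphs on the vertex set `Fin n` -/
noncomputable def Reg (n d : ℕ) : Finset (SimpleGraph (Fin n)) :=
  univ.filter fun G => ∀ v, (univ.filter fun u => G.Adj v u).card = d

/-- those which contain the edges in `F` -/
noncomputable def RegF (n d : ℕ) (F : Finset (Sym2 (Fin n))) : Finset (SimpleGraph (Fin n)) :=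
  (Reg n d).filter fun G => ∀ e ∈ F, e ∈ G.edgeSet

lemma mem_Reg {n d : ℕ} {G : SimpleGraph (Fin n)} :
    G ∈ Reg n d ↔ ∀ v, (univ.filter fun u => G.Adj v u).card = d := by
  simp [Reg]

lemma mem_RegF {n d : ℕ} {F : Finset (Sym2 (Fin n))} {G : SimpleGraph (Fin n)} :
    G ∈ RegF n d F ↔ G ∈ Reg n d ∧ ∀ e ∈ F, e ∈ G.edgeSet := by
  simp [RegF]

lemma degree_Reg {n d : ℕ} {G : SimpleGraph (Fin n)} (hG : G ∈ Reg n d) (v : Fin n) : G.degree v = d := by
  rw [← mem_Reg.1 hG v, ← SimpleGraph.card_neighborFinset_eq_degree]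
  congr 1
  ext u
  simp

/-- the density in the sparseness condition -/
noncomputable def etd (d : ℕ) : ℝ := 1 / (6 * d * (36 * d) ^ 5)

/-- the bound of the first moment method for sets of `p` vertices -/
noncomputable def fm (n d p : ℕ) : ℝ :=
  (n.choose p : ℝ) * ((p * p).choose (p + p / 5 + 1)) * (2 * d / n) ^ (p + p / 5 + 1)

end H49.NB
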