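import Pool.Agent.H49.NB.RDefs

/-!
# Switching

`N(F)` = number of `d`-regular graphs which contain `F`. Claim `n N(F ∪ {e}) ≤ 2 d N(F)`, `e ∉ F`, if `4 |F| + 4 d (d+1) ≤ n d`. If `d = 0` or `e` is a loop: `N(F ∪ {e}) = 0` (for `d = 0` the
graphs have no edges). Let `e = uv`, `u ≠ v`. For `G ⊇ F ∪ {e}` a pair `(x, y)` is good if `G.Adj x y`, `s(x, y) ∉ F`, `x ∉ N(u) ∪ {u}`, `y ∉ N(v) ∪ {v}` (neighbourhoods in `G`). There are `n d`
ordered pairs of adjacent vertices; at most `2 |F|` have `s(x, y) ∈ F`, at most `(d+1) d` have `x ∈ N(u) ∪ {u}`, at most `(d+1) d` have `y ∈ N(v) ∪ {v}`. So there are at least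
`n d - 2 |F| - 2 d (d+1) ≥ n d / 2` good pairs. `v ∈ N(u)`, `u ∈ N(v)`, so `u, v, x, y` are different (`x ≠ y` are adjacent). Let `G' = G - uv - xy + ux + vy`
(edge set `(E(G) \ {uv, xy}) ∪ {ux, vy}`). `ux, vy ∉ E(G)`, `G'` is `d`-regular: `N'(u) = N(u) \ {v} ∪ {x}`, `N'(v) = N(v) \ {u} ∪ {y}`, `N'(x) = N(x) \ {y} ∪ {u}`, `N'(y) = N(y) \ {x} ∪ {v}`, the
others are unchanged. `G' ⊇ F` (`e ∉ F`, `xy ∉ F`). `(G, (x, y)) ↦ (G', (x, y))` is injective, since `G = G' - ux - vy + uv + xy`; and `x ∈ N'(u)`, `y ∈ N'(v)`, so the image has at most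
`d² N(F)` elements. So `n d N(F ∪ {e}) ≤ 2 d² N(F)`.
(Suggestion: use the finset of triples `(G, x, y)`, `Finset.card_le_card_of_injOn`, `Finset.card_sigma` or `card_eq_sum_card_fiberwise`.)
-/

set_option autoImplicit false
set_option linter.unusedSectionVars false

namespace H49.NB

open Finset H97.Int
open scoped Classical

/-- the graph `G - uv - xy + ux + vy` -/
def sw {n : ℕ} (G : SimpleGraph (Fin n)) (u v x y : Fin n) : SimpleGraph (Fin n) :=
  SimpleGraph.fromEdgeSet ((G.edgeSet \ {s(u, v), s(x, y)}) ∪ {s(u, x), s(v, y)})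

/-- good pairs -/
def GoodSw {n : ℕ} (F : Finset (Sym2 (Fin n))) (G : SimpleGraph (Fin n)) (u v x y : Fin n) : Prop :=
  G.Adj x y ∧ s(x, y) ∉ F ∧ x ≠ u ∧ ¬ G.Adj u x ∧ y ≠ v ∧ ¬ G.Adj v y

private lemma sw_adj {n : ℕ} (G : SimpleGraph (Fin n)) (u v x y a b : Fin n) :
    (sw G u v x y).Adj a b ↔ ((G.Adj a b ∧ s(a, b) ≠ s(u, v) ∧ s(a, b) ≠ s(x, y)) ∨
      s(a, b) = s(u, x) ∨ s(a, b) = s(v, y)) ∧ a ≠ b := by
  unfold sw
  rw [SimpleGraph.fromEdgeSet_adj]
  simp only [Set.mem_union, Set.mem_diff, Set.mem_insert_iff, Set.mem_singleton_iff,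
    SimpleGraph.mem_edgeSet, not_or, ne_eq]

private lemma sw_c1 {n : ℕ} (G : SimpleGraph (Fin n)) (u v x y : Fin n) :
    sw G v u y x = sw G u v x y := by
  unfold sw
  rw [Sym2.eq_swap (a := v) (b := u), Sym2.eq_swap (a := y) (b := x), Set.pair_comm s(v, y)]

private lemma sw_c2 {n : ℕ} (G : SimpleGraph (Fin n)) (u v x y : Fin n) :
    sw G x y u v = sw G u v x y := by
  unfold sw
  rw [Sym2.eq_swap (a := x) (b := u), Sym2.eq_swap (a := y) (b := v), Set.pair_comm s(x, y)]

private lemma sw_c3 {n : ℕ} (G : SimpleGraph (Fin n)) (u v x y : Fin n) :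
    sw G y x v u = sw G u v x y := by
  rw [sw_c1, sw_c2]

private lemma sw_nb {n : ℕ} {G : SimpleGraph (Fin n)} {u v x y : Fin n} (hux : u ≠ x) (huy : u ≠ y)
    (huv : G.Adj u v) (hn : ¬ G.Adj u x) :
    (univ.filter fun b => (sw G u v x y).Adj u b).card = (univ.filter fun b => G.Adj u b).card := by
  have huv' : u ≠ v := huv.ne
  have hxv : x ≠ v := fun h => hn (h ▸ huv)
  have h1 : (univ.filter fun b => (sw G u v x y).Adj u b) =
      insert x ((univ.filter fun b => G.Adj u b).erase v) := by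
    ext b
    simp only [mem_filter, mem_univ, true_and, mem_insert, mem_erase, sw_adj]
    have e1 : s(u, b) = s(u, v) ↔ b = v := Sym2.congr_right
    have e2 : s(u, b) = s(u, x) ↔ b = x := Sym2.congr_right
    have e3 : ¬ s(u, b) = s(x, y) := by
      rw [Sym2.eq_iff]
      rintro (⟨h, -⟩ | ⟨h, -⟩)
      · exact hux h
      · exact huy h
    have e4 : ¬ s(u, b) = s(v, y) := by
      rw [Sym2.eq_iff]
      rintro (⟨h, -⟩ | ⟨h, -⟩)
      · exact huv' h
      · exact huy h
    constructor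
    · rintro ⟨⟨h, h', -⟩ | h | h, -⟩
      · exact Or.inr ⟨fun hb => h' (e1.2 hb), h⟩
      · exact Or.inl (e2.1 h)
      · exact absurd h e4
    · rintro (h | ⟨h, h'⟩)
      · exact ⟨Or.inr (Or.inl (e2.2 h)), by rw [h]; exact hux⟩
      · exact ⟨Or.inl ⟨h', fun hb => h (e1.1 hb), e3⟩, h'.ne⟩
  rw [h1, card_insert_of_notMem (by
    rw [mem_erase, mem_filter]
    rintro ⟨-, -, h⟩
    exact hn h)]
  exact card_erase_add_one (by
    rw [mem_filter]
    exact ⟨mem_univ _, huv⟩)

private lemma sw_other {n : ℕ} {G : SimpleGraph (Fin n)} {u v x y z : Fin n} (h1 : z ≠ u) (h2 : z ≠ v)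
    (h3 : z ≠ x) (h4 : z ≠ y) (b : Fin n) : (sw G u v x y).Adj z b ↔ G.Adj z b := by
  rw [sw_adj]
  have key : ∀ p q : Fin n, z ≠ p → z ≠ q → ¬ s(z, b) = s(p, q) := by
    intro p q hp hq
    rw [Sym2.eq_iff]
    rintro (⟨h, -⟩ | ⟨h, -⟩)
    · exact hp h
    · exact hq h
  constructor
  · rintro ⟨⟨h, -, -⟩ | h | h, -⟩
    · exact h
    · exact absurd h (key u x h1 h3)
    · exact absurd h (key v y h2 h4)
  · intro h
    exact ⟨Or.inl ⟨h, key u v h1 h2, key x y h3 h4⟩, h.ne⟩

private lemma fib_fst {n d : ℕ} {G : SimpleGraph (Fin n)} (hG : G ∈ Reg n d) (A : Finset (Fin n)) :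
    (univ.filter fun q : Fin n × Fin n => G.Adj q.1 q.2 ∧ q.1 ∈ A).card ≤ d * A.card := by
  refine (Finset.card_le_mul_card_image (f := Prod.fst) _ d ?_).trans ?_
  · intro a _
    rw [← mem_Reg.1 hG a]
    refine card_le_card_of_injOn Prod.snd ?_ ?_
    · intro q hq
      simp only [coe_filter, mem_filter, mem_univ, true_and, Set.mem_setOf_eq] at hq ⊢
      rw [← hq.2]
      exact hq.1.1
    · intro q hq q' hq' h
      simp only [coe_filter, mem_filter, mem_univ, true_and, Set.mem_setOf_eq] at hq hq'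
      exact Prod.ext (hq.2.trans hq'.2.symm) h
  · refine Nat.mul_le_mul_left d (card_le_card ?_)
    intro a ha
    rw [mem_image] at ha
    obtain ⟨q, hq, rfl⟩ := ha
    exact (mem_filter.1 hq).2.2

private lemma fib_snd {n d : ℕ} {G : SimpleGraph (Fin n)} (hG : G ∈ Reg n d) (A : Finset (Fin n)) :
    (univ.filter fun q : Fin n × Fin n => G.Adj q.1 q.2 ∧ q.2 ∈ A).card ≤ d * A.card := by
  refine le_trans ?_ (fib_fst hG A)
  refine card_le_card_of_injOn Prod.swap ?_ ?_
  · intro q hq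
    simp only [coe_filter, mem_univ, true_and, Set.mem_setOf_eq] at hq ⊢
    exact ⟨hq.1.symm, hq.2⟩
  · intro q _ q' _ h
    exact Prod.swap_injective h

private lemma fib_all {n d : ℕ} {G : SimpleGraph (Fin n)} (hG : G ∈ Reg n d) :
    (univ.filter fun q : Fin n × Fin n => G.Adj q.1 q.2).card = n * d := by
  have h1 : (univ.filter fun q : Fin n × Fin n => G.Adj q.1 q.2).card =
      ∑ a : Fin n, (univ.filter fun b => G.Adj a b).card := by
    rw [card_filter, Fintype.sum_prod_type]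
    refine sum_congr rfl fun a _ => ?_
    rw [card_filter]
  rw [h1, sum_congr rfl fun a _ => mem_Reg.1 hG a, sum_const, card_univ, Fintype.card_fin,
    smul_eq_mul]

private lemma fib_F {n : ℕ} (F : Finset (Sym2 (Fin n))) :
    (univ.filter fun q : Fin n × Fin n => s(q.1, q.2) ∈ F).card ≤ 2 * F.card := by
  refine (Finset.card_le_mul_card_image (f := fun q : Fin n × Fin n => s(q.1, q.2)) _ 2 ?_).trans ?_
  · intro e _
    induction e using Sym2.ind with
    | _ a b =>
      refine (card_le_card (t := {(a, b), (b, a)}) ?_).trans card_le_two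
      intro q hq
      have h := (mem_filter.1 hq).2
      rw [Sym2.eq_iff] at h
      rw [mem_insert, mem_singleton]
      rcases h with ⟨h, h'⟩ | ⟨h, h'⟩
      · exact Or.inl (Prod.ext h h')
      · exact Or.inr (Prod.ext h h')
  · refine Nat.mul_le_mul_left 2 (card_le_card ?_)
    intro e he
    rw [mem_image] at he
    obtain ⟨q, hq, rfl⟩ := he
    exact (mem_filter.1 hq).2

private lemma card_nb1 {n d : ℕ} {G : SimpleGraph (Fin n)} (hG : G ∈ Reg n d) (u : Fin n) :
    (insert u (univ.filter fun b => G.Adj u b)).card ≤ d + 1 := by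
  refine (card_insert_le _ _).trans ?_
  rw [mem_Reg.1 hG u]

/-- many good pairs -/
lemma good_count {n d : ℕ} {F : Finset (Sym2 (Fin n))} (hn : 4 * F.card + 4 * d * (d + 1) ≤ n * d)
    {G : SimpleGraph (Fin n)} (hG : G ∈ Reg n d) (u v : Fin n) :
    n * d ≤ 2 * (univ.filter fun q : Fin n × Fin n => GoodSw F G u v q.1 q.2).card := by
  have h0 := fib_all hG
  have h1 := fib_F F
  have h2 := (fib_fst hG (insert u (univ.filter fun b => G.Adj u b))).trans
    (Nat.mul_le_mul_left d (card_nb1 hG u))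
  have h3 := (fib_snd hG (insert v (univ.filter fun b => G.Adj v b))).trans
    (Nat.mul_le_mul_left d (card_nb1 hG v))
  have hsub : (univ.filter fun q : Fin n × Fin n => G.Adj q.1 q.2) ⊆
      (univ.filter fun q : Fin n × Fin n => GoodSw F G u v q.1 q.2) ∪
      ((univ.filter fun q : Fin n × Fin n => s(q.1, q.2) ∈ F) ∪
      ((univ.filter fun q : Fin n × Fin n => G.Adj q.1 q.2 ∧
        q.1 ∈ insert u (univ.filter fun b => G.Adj u b)) ∪
      (univ.filter fun q : Fin n × Fin n => G.Adj q.1 q.2 ∧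
        q.2 ∈ insert v (univ.filter fun b => G.Adj v b)))) := by
    intro q hq
    have hq1 := (mem_filter.1 hq).2
    simp only [mem_union, mem_filter, mem_univ, true_and, mem_insert]
    by_cases a1 : s(q.1, q.2) ∈ F
    · exact Or.inr (Or.inl a1)
    by_cases a2 : q.1 = u ∨ G.Adj u q.1
    · exact Or.inr (Or.inr (Or.inl ⟨hq1, a2⟩))
    by_cases a3 : q.2 = v ∨ G.Adj v q.2
    · exact Or.inr (Or.inr (Or.inr ⟨hq1, a3⟩))
    push Not at a2 a3
    exact Or.inl ⟨hq1, a1, a2.1, a2.2, a3.1, a3.2⟩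
  have h4 := card_le_card hsub
  have h5 := card_union_le (univ.filter fun q : Fin n × Fin n => GoodSw F G u v q.1 q.2)
    ((univ.filter fun q : Fin n × Fin n => s(q.1, q.2) ∈ F) ∪
      ((univ.filter fun q : Fin n × Fin n => G.Adj q.1 q.2 ∧
        q.1 ∈ insert u (univ.filter fun b => G.Adj u b)) ∪
      (univ.filter fun q : Fin n × Fin n => G.Adj q.1 q.2 ∧
        q.2 ∈ insert v (univ.filter fun b => G.Adj v b))))
  have h6 := card_union_le (univ.filter fun q : Fin n × Fin n => s(q.1, q.2) ∈ F)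
      ((univ.filter fun q : Fin n × Fin n => G.Adj q.1 q.2 ∧
        q.1 ∈ insert u (univ.filter fun b => G.Adj u b)) ∪
      (univ.filter fun q : Fin n × Fin n => G.Adj q.1 q.2 ∧
        q.2 ∈ insert v (univ.filter fun b => G.Adj v b)))
  have h7 := card_union_le (univ.filter fun q : Fin n × Fin n => G.Adj q.1 q.2 ∧
        q.1 ∈ insert u (univ.filter fun b => G.Adj u b))
      (univ.filter fun q : Fin n × Fin n => G.Adj q.1 q.2 ∧
        q.2 ∈ insert v (univ.filter fun b => G.Adj v b))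
  have h8 : 4 * d * (d + 1) = 4 * (d * (d + 1)) := by ring
  rw [h8] at hn
  omega

/-- the switched graph -/
lemma sw_mem {n d : ℕ} {F : Finset (Sym2 (Fin n))} {G : SimpleGraph (Fin n)} {u v x y : Fin n}
    (he : s(u, v) ∉ F) (hG : G ∈ RegF n d (insert s(u, v) F)) (h : GoodSw F G u v x y) :
    sw G u v x y ∈ RegF n d F ∧ (sw G u v x y).Adj u x ∧ (sw G u v x y).Adj v y := by
  obtain ⟨hR, hF⟩ := mem_RegF.1 hG
  obtain ⟨hxy, hxyF, hxu, hux, hyv, hvy⟩ := h
  have huv : G.Adj u v := (SimpleGraph.mem_edgeSet G).1 (hF _ (mem_insert_self _ _))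
  have hyu : y ≠ u := fun h => hvy (h ▸ huv.symm)
  have hxv : x ≠ v := fun h => hux (h ▸ huv)
  have a1 : (sw G u v x y).Adj u x := (sw_adj G u v x y u x).2 ⟨Or.inr (Or.inl rfl), hxu.symm⟩
  have a2 : (sw G u v x y).Adj v y := (sw_adj G u v x y v y).2 ⟨Or.inr (Or.inr rfl), hyv.symm⟩
  refine ⟨mem_RegF.2 ⟨mem_Reg.2 fun z => ?_, fun e heF => ?_⟩, a1, a2⟩
  · by_cases z1 : z = u
    · rw [z1, sw_nb hxu.symm hyu.symm huv hux]
      exact mem_Reg.1 hR u
    by_cases z2 : z = v
    · rw [z2, ← sw_c1, sw_nb hyv.symm hxv.symm huv.symm hvy]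
      exact mem_Reg.1 hR v
    by_cases z3 : z = x
    · rw [z3, ← sw_c2, sw_nb hxu hxv hxy (fun h => hux h.symm)]
      exact mem_Reg.1 hR x
    by_cases z4 : z = y
    · rw [z4, ← sw_c3, sw_nb hyv hyu hxy.symm (fun h => hvy h.symm)]
      exact mem_Reg.1 hR y
    rw [filter_congr fun b _ => sw_other (G := G) z1 z2 z3 z4 b]
    exact mem_Reg.1 hR z
  · have h1 := hF e (mem_insert_of_mem heF)
    induction e using Sym2.ind with
    | _ a b =>
      rw [SimpleGraph.mem_edgeSet] at h1 ⊢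
      rw [sw_adj]
      exact ⟨Or.inl ⟨h1, fun hh => he (hh ▸ heF), fun hh => hxyF (hh ▸ heF)⟩, h1.ne⟩

/-- the switching can be undone -/
lemma sw_inj {n : ℕ} {F : Finset (Sym2 (Fin n))} {G G' : SimpleGraph (Fin n)} {u v x y : Fin n}
    (hG : G.Adj u v) (hG' : G'.Adj u v) (h : GoodSw F G u v x y) (h' : GoodSw F G' u v x y)
    (he : sw G u v x y = sw G' u v x y) : G = G' := by
  have key : ∀ {H : SimpleGraph (Fin n)}, H.Adj u v → GoodSw F H u v x y → ∀ a b : Fin n,
      H.Adj a b ↔ s(a, b) = s(u, v) ∨ s(a, b) = s(x, y) ∨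
        ((sw H u v x y).Adj a b ∧ s(a, b) ≠ s(u, x) ∧ s(a, b) ≠ s(v, y)) := by
    intro H hH hg a b
    have adj_of : ∀ p q : Fin n, s(a, b) = s(p, q) → (H.Adj a b ↔ H.Adj p q) := by
      intro p q hpq
      rw [← SimpleGraph.mem_edgeSet, ← SimpleGraph.mem_edgeSet, hpq]
    constructor
    · intro hab
      by_cases c1 : s(a, b) = s(u, v)
      · exact Or.inl c1
      by_cases c2 : s(a, b) = s(x, y)
      · exact Or.inr (Or.inl c2)
      refine Or.inr (Or.inr ⟨(sw_adj H u v x y a b).2 ⟨Or.inl ⟨hab, c1, c2⟩, hab.ne⟩, ?_, ?_⟩)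
      · intro c3
        exact hg.2.2.2.1 ((adj_of u x c3).1 hab)
      · intro c3
        exact hg.2.2.2.2.2 ((adj_of v y c3).1 hab)
    · rintro (c1 | c2 | ⟨c3, c4, c5⟩)
      · exact (adj_of u v c1).2 hH
      · exact (adj_of x y c2).2 hg.1
      · rcases (sw_adj H u v x y a b).1 c3 with ⟨⟨c6, -, -⟩ | c6 | c6, -⟩
        · exact c6
        · exact absurd c6 c4
        · exact absurd c6 c5
  ext a b
  rw [key hG h, key hG' h', he]

theorem switch {n d : ℕ} {F : Finset (Sym2 (Fin n))} {e : Sym2 (Fin n)} (he : e ∉ F)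
    (hn : 4 * F.card + 4 * d * (d + 1) ≤ n * d) :
    n * (RegF n d (insert e F)).card ≤ 2 * d * (RegF n d F).card := by
  induction e using Sym2.ind with
  | _ u v =>
    rcases Nat.eq_zero_or_pos d with hd | hd
    · have h0 : RegF n d (insert s(u, v) F) = ∅ := by
        rw [Finset.eq_empty_iff_forall_notMem]
        intro G hG
        obtain ⟨hR, hF⟩ := mem_RegF.1 hG
        have huv : G.Adj u v := (SimpleGraph.mem_edgeSet G).1 (hF _ (mem_insert_self _ _))
        have h1 := mem_Reg.1 hR u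
        rw [hd, card_eq_zero, filter_eq_empty_iff] at h1
        exact h1 (mem_univ v) huv
      rw [h0, card_empty, mul_zero]
      exact Nat.zero_le _
    · set S := RegF n d (insert s(u, v) F) with hS
      set T : Finset (SimpleGraph (Fin n) × (Fin n × Fin n)) :=
        (S ×ˢ univ).filter fun p => GoodSw F p.1 u v p.2.1 p.2.2 with hT
      set R : Finset (SimpleGraph (Fin n) × (Fin n × Fin n)) :=
        (RegF n d F ×ˢ univ).filter fun p => p.1.Adj u p.2.1 ∧ p.1.Adj v p.2.2 with hR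
      have hTc : T.card = ∑ G ∈ S, (univ.filter fun q : Fin n × Fin n => GoodSw F G u v q.1 q.2).card := by
        rw [hT, card_filter, sum_product]
        refine sum_congr rfl fun G _ => ?_
        rw [card_filter]
      have hRc : R.card = ∑ G ∈ RegF n d F, d * d := by
        rw [hR, card_filter, sum_product]
        refine sum_congr rfl fun G hG => ?_
        have hG1 := (mem_RegF.1 hG).1
        rw [← card_filter]
        have h1 : (univ.filter fun q : Fin n × Fin n => G.Adj u q.1 ∧ G.Adj v q.2) =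
            (univ.filter fun b => G.Adj u b) ×ˢ (univ.filter fun b => G.Adj v b) := by
          ext q
          simp only [mem_filter, mem_univ, true_and, mem_product]
        rw [h1, card_product, mem_Reg.1 hG1 u, mem_Reg.1 hG1 v]
      have h1 : n * d * S.card ≤ 2 * T.card := by
        rw [hTc, mul_sum, mul_comm, ← smul_eq_mul, ← sum_const]
        exact sum_le_sum fun G hG => good_count hn (mem_RegF.1 hG).1 u v
      have h2 : T.card ≤ R.card := by
        refine card_le_card_of_injOn (fun p => (sw p.1 u v p.2.1 p.2.2, p.2)) ?_ ?_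
        · intro p hp
          obtain ⟨hp1, hp2⟩ := mem_filter.1 (mem_coe.1 hp)
          have h3 := sw_mem he (mem_product.1 hp1).1 hp2
          exact mem_coe.2 (mem_filter.2 ⟨mem_product.2 ⟨h3.1, mem_univ _⟩, h3.2⟩)
        · intro p hp p' hp' hpp
          obtain ⟨hp1, hp2⟩ := mem_filter.1 (mem_coe.1 hp)
          obtain ⟨hp1', hp2'⟩ := mem_filter.1 (mem_coe.1 hp')
          have e1 : p.2 = p'.2 := (Prod.ext_iff.1 hpp).2
          have e2 : sw p.1 u v p.2.1 p.2.2 = sw p'.1 u v p'.2.1 p'.2.2 := (Prod.ext_iff.1 hpp).1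
          rw [← e1] at e2 hp2'
          have a1 : p.1.Adj u v := (SimpleGraph.mem_edgeSet _).1
            ((mem_RegF.1 (mem_product.1 hp1).1).2 _ (mem_insert_self _ _))
          have a2 : p'.1.Adj u v := (SimpleGraph.mem_edgeSet _).1
            ((mem_RegF.1 (mem_product.1 hp1').1).2 _ (mem_insert_self _ _))
          exact Prod.ext (sw_inj a1 a2 hp2 hp2' e2) e1
      rw [sum_const, smul_eq_mul] at hRc
      have h3 : n * d * S.card ≤ 2 * ((RegF n d F).card * (d * d)) := by
        rw [← hRc]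
        exact h1.trans (Nat.mul_le_mul_left 2 h2)
      have h4 : d * (n * S.card) ≤ d * (2 * d * (RegF n d F).card) := by
        calc d * (n * S.card) = n * d * S.card := by ring
          _ ≤ 2 * ((RegF n d F).card * (d * d)) := h3
          _ = _ := by ring
      exact Nat.le_of_mul_le_mul_left h4 hd

end H49.NB
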